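import Pool.Agent.Q294.Pm.Stm

/-!
Project PM: jobs A and C.
-/

set_option autoImplicit false

namespace Q294.Pm

theorem two {a b a' b' A B da db : ℝ} (h1 : |a - a'| ≤ da) (h2 : |b| ≤ B) (h3 : |a'| ≤ A)
    (h4 : |b - b'| ≤ db) : |a * b - a' * b'| ≤ da * B + A * db := by
  have e : a * b - a' * b' = (a - a') * b + a' * (b - b') := by ring
  rw [e]
  refine (abs_add_le _ _).trans ?_
  rw [abs_mul, abs_mul]
  have i1 : |a - a'| * |b| ≤ da * B := mul_le_mul h1 h2 (abs_nonneg _) ((abs_nonneg _).trans h1)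
  have i2 : |a'| * |b - b'| ≤ A * db := mul_le_mul h3 h4 (abs_nonneg _) ((abs_nonneg _).trans h3)
  linarith

/-- increment of the cubic -/
noncomputable def qq (s x : ℝ) : ℝ := s ^ 2 - 3 * s * (2 * x + 1) + 2 * (3 * x ^ 2 + 3 * x + 1)

/-- the cubic -/
noncomputable def PP (s x : ℝ) : ℝ := x * (s - x) * (s - 2 * x)

theorem dpsi_x {s x y : ℝ} : psi s (x + 1) y - psi s x y = qq s x * (y * (s - y)) / s ^ 4 := by
  unfold psi qq
  ring

theorem dpsi_y {s x y : ℝ} : psi s x (y + 1) - psi s x y = PP s x * (s - 2 * y - 1) / s ^ 4 := by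
  unfold psi PP
  ring

theorem qq_le {s x : ℝ} (hs : 1 ≤ s) (h0 : 0 ≤ x) (h1 : x + 1 ≤ s) : |qq s x| ≤ s ^ 2 := by
  unfold qq
  rw [abs_le]
  constructor
  · nlinarith [sq_nonneg (2 * x - (s - 1)), sq_nonneg s]
  · nlinarith [mul_nonneg h0 (by linarith : 0 ≤ s - 1 - x)]

theorem qq_lip {s x x' δ : ℝ} (h0 : 0 ≤ x) (h1 : x + 1 ≤ s) (h0' : 0 ≤ x') (h1' : x' + 1 ≤ s)
    (hd : |x - x'| ≤ δ) : |qq s x - qq s x'| ≤ 6 * s * δ := by
  have e : qq s x - qq s x' = (6 * (x + x' + 1 - s)) * (x - x') := by unfold qq; ring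
  rw [e, abs_mul]
  have : |6 * (x + x' + 1 - s)| ≤ 6 * s := by
    rw [abs_le]
    constructor <;> linarith
  exact mul_le_mul this hd (abs_nonneg _) (by linarith)

theorem RR_le {s y : ℝ} (h0 : 0 ≤ y) (h1 : y ≤ s) : |y * (s - y)| ≤ s ^ 2 / 4 := by
  rw [abs_of_nonneg (mul_nonneg h0 (by linarith))]
  nlinarith [sq_nonneg (s - 2 * y)]

theorem RR_lip {s y y' δ : ℝ} (h0 : 0 ≤ y) (h1 : y ≤ s) (h0' : 0 ≤ y') (h1' : y' ≤ s)
    (hd : |y - y'| ≤ δ) : |y * (s - y) - y' * (s - y')| ≤ s * δ := by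
  have e : y * (s - y) - y' * (s - y') = (s - y - y') * (y - y') := by ring
  rw [e, abs_mul]
  have : |s - y - y'| ≤ s := by
    rw [abs_le]
    constructor <;> linarith
  exact mul_le_mul this hd (abs_nonneg _) (by linarith)

theorem PP_le {s x : ℝ} (h0 : 0 ≤ x) (h1 : x ≤ s) : |PP s x| ≤ s ^ 3 / 4 := by
  unfold PP
  rw [abs_mul]
  have i1 := RR_le h0 h1
  have i2 : |s - 2 * x| ≤ s := by
    rw [abs_le]
    constructor <;> linarith
  calc |x * (s - x)| * |s - 2 * x| ≤ s ^ 2 / 4 * s :=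
        mul_le_mul i1 i2 (abs_nonneg _) (by positivity)
    _ = s ^ 3 / 4 := by ring

theorem PP_lip {s x x' δ : ℝ} (h0 : 0 ≤ x) (h1 : x ≤ s) (h0' : 0 ≤ x') (h1' : x' ≤ s)
    (hd : |x - x'| ≤ δ) : |PP s x - PP s x'| ≤ s ^ 2 * δ := by
  have e : PP s x - PP s x' =
      (s ^ 2 - 3 * s * (x + x') + 2 * (x ^ 2 + x * x' + x' ^ 2)) * (x - x') := by unfold PP; ring
  rw [e, abs_mul]
  have : |s ^ 2 - 3 * s * (x + x') + 2 * (x ^ 2 + x * x' + x' ^ 2)| ≤ s ^ 2 := by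
    rw [abs_le]
    constructor
    · nlinarith [sq_nonneg (x - x'), sq_nonneg (s - (x + x'))]
    · nlinarith [mul_nonneg h0 (by linarith : 0 ≤ s - x), mul_nonneg h0' (by linarith : 0 ≤ s - x'),
        mul_nonneg h0 (by linarith : 0 ≤ s - x'), mul_nonneg h0' (by linarith : 0 ≤ s - x)]
  exact mul_le_mul this hd (abs_nonneg _) (by positivity)

theorem t_A : S_A := by
  intro s hs
  have hs0 : 0 < s := by linarith
  have h4 : 0 < s ^ 4 := by positivity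
  refine ⟨?_, ?_, ?_, ?_⟩
  · intro x y hx hx1 hy hy1
    rw [dpsi_x, abs_div, abs_mul, abs_of_pos h4, div_le_iff₀ h4]
    calc |qq s x| * |y * (s - y)| ≤ s ^ 2 * (s ^ 2 / 4) :=
          mul_le_mul (qq_le hs hx hx1) (RR_le hy hy1) (abs_nonneg _) (by positivity)
      _ = 1 / 4 * s ^ 4 := by ring
  · intro x y hx hx1 hy hy1
    rw [dpsi_y, abs_div, abs_mul, abs_of_pos h4, div_le_iff₀ h4]
    have : |s - 2 * y - 1| ≤ s := by
      rw [abs_le]
      constructor <;> linarith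
    calc |PP s x| * |s - 2 * y - 1| ≤ s ^ 3 / 4 * s :=
          mul_le_mul (PP_le hx hx1) this (abs_nonneg _) (by positivity)
      _ = 1 / 4 * s ^ 4 := by ring
  · intro x y x' y' δ hx hx1 hx' hx1' hy hy1 hy' hy1' hd1 hd2
    have hδ : 0 ≤ δ := (abs_nonneg _).trans hd1
    rw [dpsi_x, dpsi_x, ← sub_div, abs_div, abs_of_pos h4, div_le_div_iff₀ h4 hs0]
    have h := two (qq_lip hx hx1 hx' hx1' hd1) (RR_le hy hy1) (qq_le hs hx' hx1')
      (RR_lip hy hy1 hy' hy1' hd2)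
    have h3 : 0 ≤ s ^ 4 * δ := by positivity
    calc |qq s x * (y * (s - y)) - qq s x' * (y' * (s - y'))| * s ≤
          (6 * s * δ * (s ^ 2 / 4) + s ^ 2 * (s * δ)) * s :=
          mul_le_mul_of_nonneg_right h hs0.le
      _ ≤ 3 * δ * s ^ 4 := by nlinarith
  · intro x y x' y' δ hx hx1 hx' hx1' hy hy1 hy' hy1' hd1 hd2
    have hδ : 0 ≤ δ := (abs_nonneg _).trans hd1
    rw [dpsi_y, dpsi_y, ← sub_div, abs_div, abs_of_pos h4, div_le_div_iff₀ h4 hs0]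
    have i1 : |s - 2 * y - 1| ≤ s := by
      rw [abs_le]
      constructor <;> linarith
    have i2 : |(s - 2 * y - 1) - (s - 2 * y' - 1)| ≤ 2 * δ := by
      have e : (s - 2 * y - 1) - (s - 2 * y' - 1) = -(2 * (y - y')) := by ring
      rw [e, abs_neg, abs_mul, abs_of_pos (by norm_num : (0 : ℝ) < 2)]
      linarith
    have h := two (PP_lip hx hx1 hx' hx1' hd1) i1 (PP_le hx' hx1') i2
    have h3 : 0 ≤ s ^ 4 * δ := by positivity
    calc |PP s x * (s - 2 * y - 1) - PP s x' * (s - 2 * y' - 1)| * s ≤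
          (s ^ 2 * δ * s + s ^ 3 / 4 * (2 * δ)) * s :=
          mul_le_mul_of_nonneg_right h hs0.le
      _ ≤ 3 * δ * s ^ 4 := by nlinarith

theorem mod_facts (i x : ℕ) : 0 ≤ ((x % 2 ^ (i + 1) : ℕ) : ℝ) ∧
    ((x % 2 ^ (i + 1) : ℕ) : ℝ) + 1 ≤ 2 ^ (i + 1) := by
  refine ⟨by positivity, ?_⟩
  have h : x % 2 ^ (i + 1) + 1 ≤ 2 ^ (i + 1) := Nat.mod_lt x (by positivity)
  exact_mod_cast h

/-- local coordinates of the point and of the corner -/
theorem mod_cor {j i x : ℕ} (h : j < i) :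
    |((x % 2 ^ (i + 1) : ℕ) : ℝ) - ((x / 2 ^ (j + 1) * 2 ^ (j + 1) % 2 ^ (i + 1) : ℕ) : ℝ)| ≤
      2 ^ (j + 1) := by
  have hs : 0 < 2 ^ (j + 1) := by positivity
  obtain ⟨m, hm⟩ : ∃ m, i = j + m := ⟨i - j, by omega⟩
  have e1 : 2 ^ (i + 1) = 2 ^ (j + 1) * 2 ^ m := by rw [← pow_add, hm]; congr 1; ring
  have h1 := Nat.div_add_mod x (2 ^ (j + 1))
  have h2 := Nat.mod_lt x hs
  -- x % (s M) = s * (x / s % M) + x % s
  have h3 : x % 2 ^ (i + 1) = 2 ^ (j + 1) * (x / 2 ^ (j + 1) % 2 ^ m) + x % 2 ^ (j + 1) := by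
    rw [e1, Nat.mod_mul, Nat.add_comm]
  have h4 : x / 2 ^ (j + 1) * 2 ^ (j + 1) % 2 ^ (i + 1) =
      2 ^ (j + 1) * (x / 2 ^ (j + 1) % 2 ^ m) := by
    rw [e1, Nat.mul_comm, Nat.mul_mod_mul_left]
  have h5 : x % 2 ^ (i + 1) = x / 2 ^ (j + 1) * 2 ^ (j + 1) % 2 ^ (i + 1) + x % 2 ^ (j + 1) := by
    rw [h3, h4]
  rw [h5]
  push_cast
  rw [add_sub_cancel_left, abs_of_nonneg (by positivity)]
  exact_mod_cast h2.le

theorem t_C (hA : S_A) : S_C := by
  have hs1 : ∀ i : ℕ, (1 : ℝ) ≤ 2 ^ (i + 1) := fun i => one_le_pow₀ (by norm_num)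
  refine ⟨?_, ?_, ?_, ?_⟩
  · intro i z
    unfold dx Psi
    exact (hA _ (hs1 i)).1 _ _ (mod_facts i z.1).1 (mod_facts i z.1).2 (mod_facts i z.2).1
      (by have := (mod_facts i z.2).2; linarith)
  · intro i z
    unfold dy Psi
    exact (hA _ (hs1 i)).2.1 _ _ (mod_facts i z.1).1 (by have := (mod_facts i z.1).2; linarith)
      (mod_facts i z.2).1 (mod_facts i z.2).2
  · intro i j z hij
    unfold dx Psi cor
    exact (hA _ (hs1 i)).2.2.1 _ _ _ _ _ (mod_facts i z.1).1 (mod_facts i z.1).2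
      (mod_facts i _).1 (mod_facts i _).2 (mod_facts i z.2).1
      (by have := (mod_facts i z.2).2; linarith) (mod_facts i _).1
      (by have := (mod_facts i (z.2 / 2 ^ (j + 1) * 2 ^ (j + 1))).2; linarith)
      (mod_cor hij) (mod_cor hij)
  · intro i j z hij
    unfold dy Psi cor
    exact (hA _ (hs1 i)).2.2.2 _ _ _ _ _ (mod_facts i z.1).1
      (by have := (mod_facts i z.1).2; linarith) (mod_facts i _).1
      (by have := (mod_facts i (z.1 / 2 ^ (j + 1) * 2 ^ (j + 1))).2; linarith)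
      (mod_facts i z.2).1 (mod_facts i z.2).2 (mod_facts i _).1 (mod_facts i _).2
      (mod_cor hij) (mod_cor hij)

end Q294.Pm
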