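import Pool.Agent.Q294.Pm.Stm

/-!
Project PM: assembly.
-/

set_option autoImplicit false

open MeasureTheory ProbabilityTheory
open scoped ENNReal NNReal

namespace Q294.Pm

universe u

theorem Yb_eq {q : ℕ} {Ω : Type*} (f : Fin q → ℝ) (S : Finset (ℕ × ℕ)) (n : Fin q → ℕ × ℕ → Ω → ℕ)
    (ω : Ω) (g : ℕ × ℕ → ℝ) :
    ∑ b ∈ S, Yb f S n b ω * g b = ∑ b ∈ S, (∑ i, f i * (n i b ω : ℝ)) * g b := by
  refine Finset.sum_congr rfl fun b hb => ?_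
  unfold Yb
  rw [if_pos hb]

/-- the inequality at every scale -/
theorem scale (hD : S_D) (hH : S_H.{u}) (hI : S_I.{u}) (hJ : S_J.{u}) (hK : S_K.{u})
    (hL : S_L.{u}) (hP : S_P.{u}) (hQ : S_Q) (hR : S_R) (hT : S_T.{u}) {q : ℕ} {lam : Fin q → ℝ}
    (hlam : ∀ i, 0 < lam i) {V : Finset (Fin q → ℕ)} (hcrit : lam ∈ frontier (cone V)) :
    0 < q ∧ ∃ d A B : ℝ, 0 < d ∧ 0 < A ∧ 0 < B ∧ ∀ (Ω : Type u) [MeasurableSpace Ω] (P : Measure Ω)
      [IsProbabilityMeasure P] (M : Ω → Set (Family q)), IsScheme P lam V M → ∀ K : ℕ, 2 ≤ K →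
      d * K ≤ B * (A * √K + 7) *
        (6 + 4 * ∑ k ∈ Finset.range K, 2 ^ k * tail P lam M (2 ^ k)) := by
  obtain ⟨f, hf0, hfl, hfV⟩ := hR q lam V hcrit
  have hq : 0 < q := by
    rcases Nat.eq_zero_or_pos q with h | h
    · subst h
      exact absurd (Subsingleton.elim f 0) hf0
    · exact h
  refine ⟨hq, ?_⟩
  obtain ⟨i₀, hi₀⟩ : ∃ i, f i ≠ 0 := by
    by_contra h
    push Not at h
    exact hf0 (funext h)
  have hσ2 : 0 < ∑ i, f i ^ 2 * lam i := by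
    refine Finset.sum_pos' (fun i _ => mul_nonneg (sq_nonneg _) (hlam i).le) ⟨i₀, Finset.mem_univ _, ?_⟩
    have := hlam i₀
    positivity
  obtain ⟨σ, hσ⟩ : ∃ σ, σ = √(∑ i, f i ^ 2 * lam i) := ⟨_, rfl⟩
  have hσ0 : 0 < σ := by rw [hσ]; exact Real.sqrt_pos.2 hσ2
  have hσs : σ ^ 2 = ∑ i, f i ^ 2 * lam i := by rw [hσ]; exact Real.sq_sqrt hσ2.le
  obtain ⟨c1, hc1, hlow⟩ := hL q lam f hlam hf0
  obtain ⟨A, d, hA, hd, hmain⟩ := hH c1 σ hc1 hσ0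
  obtain ⟨C, hC⟩ : ∃ C, C = ∑ i, |f i| := ⟨_, rfl⟩
  have hCi : ∀ i, |f i| ≤ C := by
    intro i
    rw [hC]
    exact Finset.single_le_sum (f := fun i => |f i|) (fun j _ => abs_nonneg _) (Finset.mem_univ i)
  have hC0 : 0 < C := lt_of_lt_of_le (abs_pos.2 hi₀) (hCi i₀)
  have hΛ : 0 < ∑ i, lam i := Finset.sum_pos (fun i _ => hlam i) ⟨i₀, Finset.mem_univ _⟩
  refine ⟨d, A, C * ∑ i, lam i, hd, hA, by positivity, ?_⟩
  intro Ω _ P _ M hM K hK2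
  obtain ⟨t, ht⟩ : ∃ t : ℝ, t = A * √K + 3 := ⟨_, rfl⟩
  have ht0 : 0 ≤ t := by rw [ht]; positivity
  obtain ⟨n, hn⟩ : ∃ n : Fin q → ℕ × ℕ → Ω → ℕ, n = fun i b ω => (points (M ω) i ∩ U b).ncard :=
    ⟨_, rfl⟩
  obtain ⟨hInd, hfinite⟩ := hI q Ω P lam (fun i ω => points (M ω) i) hM.poisson (box (2 ^ K))
  rw [← hn] at hInd
  obtain ⟨k1, k2, k3, k4⟩ := hK q Ω P lam f n K hlam hfl hInd
  have good : Good P (Yb f (box (2 ^ K)) n) c1 σ K := by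
    refine ⟨k1, hJ q Ω P lam f n _ hInd, k2, ?_, ?_⟩
    · intro z hz k hk
      exact hlow Ω P n K hInd z hz k hk
    · intro z hz k hk
      rw [hσs]
      exact k4 z hz k hk
  have h1 := hmain Ω P (Yb f (box (2 ^ K)) n) K hK2 good
  rw [← ht] at h1
  have hbal := hP q Ω P lam V M f hlam hM hfl hfV
  obtain ⟨G, hG⟩ : ∃ G : Ω → ℝ, G = fun ω => ∑ b ∈ box (2 ^ K), Yb f (box (2 ^ K)) n b ω *
    phi K t (fun b' => Yb f (box (2 ^ K)) n b' ω) b := ⟨_, rfl⟩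
  obtain ⟨H, hHd⟩ : ∃ H : Ω → ℝ, H = fun ω => C * (t + 4) *
      (6 * ∑ b ∈ box (2 ^ K), ∑ i, (n i b ω : ℝ) +
        4 * ∑ k ∈ Finset.range K, 2 ^ k * ((far (M ω) (sq (2 ^ K)) (2 ^ k)).ncard : ℝ)) := ⟨_, rfl⟩
  have hpt : ∀ᵐ ω ∂P, G ω ≤ H ω := by
    filter_upwards [hM.disjoint, hbal, hfinite] with ω a1 a2 a3
    obtain ⟨b1, b2, b3⟩ := hD K t (fun b' => Yb f (box (2 ^ K)) n b' ω) ht0
    have := hQ q (M ω) f C (t + 4) K (phi K t fun b' => Yb f (box (2 ^ K)) n b' ω) a1 a2 hCi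
      (by linarith) a3 b1 b2 b3 (by
        intro z hz
        unfold phi
        rw [if_neg hz])
    rw [hG, hHd]
    simp only
    rw [Yb_eq]
    refine (le_abs_self _).trans ?_
    rw [hn]
    rw [hn] at this
    exact this
  have hpos : 0 < ∫ ω, G ω ∂P := by
    rw [hG]
    refine lt_of_lt_of_le ?_ h1
    have : (0 : ℝ) < K := by exact_mod_cast (by omega : 0 < K)
    positivity
  have hGi : Integrable G P := by
    by_contra h
    rw [integral_undef h] at hpos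
    exact lt_irrefl _ hpos
  have hT' : ∀ k : ℕ, Integrable (fun ω => ((far (M ω) (sq (2 ^ K)) (2 ^ k)).ncard : ℝ)) P ∧
      ∫ ω, ((far (M ω) (sq (2 ^ K)) (2 ^ k)).ncard : ℝ) ∂P =
        4 ^ K * (∑ i, lam i) * tail P lam M (2 ^ k) := by
    intro k
    obtain ⟨a1, a2, _⟩ := hT q Ω P lam V M hlam hq hM K (2 ^ k) (by positivity)
    exact ⟨a1, a2⟩
  have hni : ∀ b ∈ box (2 ^ K), Integrable (fun ω => ∑ i, (n i b ω : ℝ)) P := by
    intro b hb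
    exact integrable_finsetSum _ fun i _ => (k3 i b hb).2
  have hN1 : Integrable (fun ω => ∑ b ∈ box (2 ^ K), ∑ i, (n i b ω : ℝ)) P :=
    integrable_finsetSum _ hni
  have hN2 : ∫ ω, ∑ b ∈ box (2 ^ K), ∑ i, (n i b ω : ℝ) ∂P = 4 ^ K * ∑ i, lam i := by
    rw [integral_finsetSum _ hni]
    have : ∀ b ∈ box (2 ^ K), ∫ ω, ∑ i, (n i b ω : ℝ) ∂P = ∑ i, lam i := by
      intro b hb
      rw [integral_finsetSum _ fun i _ => (k3 i b hb).2]
      exact Finset.sum_congr rfl fun i _ => (k3 i b hb).1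
    rw [Finset.sum_congr rfl this, Finset.sum_const, nsmul_eq_mul]
    unfold box
    rw [Finset.card_product, Finset.card_range]
    push_cast
    rw [← mul_pow]
    norm_num
  have hF1 : Integrable (fun ω => ∑ k ∈ Finset.range K,
      2 ^ k * ((far (M ω) (sq (2 ^ K)) (2 ^ k)).ncard : ℝ)) P :=
    integrable_finsetSum _ fun k _ => (hT' k).1.const_mul _
  have hF2 : ∫ ω, ∑ k ∈ Finset.range K, 2 ^ k * ((far (M ω) (sq (2 ^ K)) (2 ^ k)).ncard : ℝ) ∂P =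
      4 ^ K * (∑ i, lam i) * ∑ k ∈ Finset.range K, 2 ^ k * tail P lam M (2 ^ k) := by
    rw [integral_finsetSum _ fun k _ => (hT' k).1.const_mul _, Finset.mul_sum]
    refine Finset.sum_congr rfl fun k _ => ?_
    rw [integral_const_mul, (hT' k).2]
    ring
  have hHi : Integrable H P := by
    rw [hHd]
    exact ((hN1.const_mul 6).add (hF1.const_mul 4)).const_mul _
  have hle : ∫ ω, G ω ∂P ≤ ∫ ω, H ω ∂P := integral_mono_ae hGi hHi hpt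
  have hHv : ∫ ω, H ω ∂P = C * (t + 4) * (6 * (4 ^ K * ∑ i, lam i) +
      4 * (4 ^ K * (∑ i, lam i) * ∑ k ∈ Finset.range K, 2 ^ k * tail P lam M (2 ^ k))) := by
    rw [hHd]
    simp only
    rw [integral_const_mul, integral_add (hN1.const_mul 6) (hF1.const_mul 4), integral_const_mul,
      integral_const_mul, hN2, hF2]
  have hG' : d * K * 4 ^ K ≤ ∫ ω, G ω ∂P := by
    rw [hG]
    exact h1
  rw [hHv] at hle
  have h4 : (0 : ℝ) < 4 ^ K := by positivity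
  have h5 : d * K * 4 ^ K ≤ (C * (∑ i, lam i) * (A * √K + 7) *
      (6 + 4 * ∑ k ∈ Finset.range K, 2 ^ k * tail P lam M (2 ^ k))) * 4 ^ K := by
    refine (hG'.trans hle).trans (le_of_eq ?_)
    rw [ht]
    ring
  exact le_of_mul_le_mul_right h5 h4

theorem main (hD : S_D) (hH : S_H.{u}) (hI : S_I.{u}) (hJ : S_J.{u}) (hK : S_K.{u})
    (hL : S_L.{u}) (hP : S_P.{u}) (hQ : S_Q) (hR : S_R) (hT : S_T.{u}) (hV : S_V) {q : ℕ}
    {lam : Fin q → ℝ} (hlam : ∀ i, 0 < lam i) {V : Finset (Fin q → ℕ)}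
    (hcrit : lam ∈ frontier (cone V)) :
    ∃ c R₀ : ℝ, 0 < c ∧ ∀ (Ω : Type u) [MeasurableSpace Ω] (P : Measure Ω)
      [IsProbabilityMeasure P] (M : Ω → Set (Family q)), IsScheme P lam V M →
      (∀ R ≥ R₀, c * √(Real.log R) ≤ ∫ r in (0 : ℝ)..R, tail P lam M r) ∧
      ∀ C r₀ : ℝ, ¬ ∀ r ≥ r₀, tail P lam M r < C / (r * Real.log r) := by
  obtain ⟨hq, d, A, B, hd, hA, hB, hsc⟩ := scale hD hH hI hJ hK hL hP hQ hR hT hlam hcrit
  obtain ⟨c, R₀, hc, hfin⟩ := hV d A B hd hA hB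
  refine ⟨c, R₀, hc, ?_⟩
  intro Ω _ P _ M hM
  refine hfin (tail P lam M) ?_ ?_ (hsc Ω P M hM)
  · intro r hr
    obtain ⟨_, _, a3, a4, _⟩ := hT q Ω P lam V M hlam hq hM 0 r hr
    exact ⟨a3, a4⟩
  · intro r r' hr hrr
    obtain ⟨_, _, _, _, a5⟩ := hT q Ω P lam V M hlam hq hM 0 r hr
    exact a5 r' hrr

end Q294.Pm
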