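import Pool.Agent.Q294.Pm.G

/-!
Project PM: job F.
-/

set_option autoImplicit false

open MeasureTheory ProbabilityTheory
open scoped ENNReal NNReal

namespace Q294.Pm

/-- a permutation supported in `T` preserves the sums over `S` if `T ⊆ S` or `T`, `S` disjoint -/
theorem sum_perm {π : Equiv.Perm (ℕ × ℕ)} {T S : Finset (ℕ × ℕ)} (hπ : ∀ b, b ∉ T → π b = b)
    (h : T ⊆ S ∨ Disjoint T S) (y : ℕ × ℕ → ℝ) : ∑ b ∈ S, (y ∘ π) b = ∑ b ∈ S, y b := by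
  rcases h with h | h
  · have hT : ∀ b, b ∈ T → π b ∈ T := by
      intro b hb
      by_contra hc
      have h1 := hπ (π b) hc
      have h2 := π.injective h1
      rw [h2] at hc
      exact hc hb
    have hS : ∀ b, b ∈ S → π b ∈ S := by
      intro b hb
      by_cases hb' : b ∈ T
      · exact h (hT b hb')
      · rw [hπ b hb']
        exact hb
    have himg : S.map π.toEmbedding = S := by
      refine Finset.eq_of_subset_of_card_le ?_ ?_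
      · intro x hx
        obtain ⟨b, hb, rfl⟩ := Finset.mem_map.1 hx
        exact hS b hb
      · rw [Finset.card_map]
    calc ∑ b ∈ S, (y ∘ π) b = ∑ b ∈ S.map π.toEmbedding, y b := by
          rw [Finset.sum_map]
          rfl
      _ = ∑ b ∈ S, y b := by rw [himg]
  · refine Finset.sum_congr rfl fun b hb => ?_
    have : b ∉ T := fun hbT => (Finset.disjoint_left.1 h) hbT hb
    simp only [Function.comp]
    rw [hπ b this]

theorem pow_succ_eq (k : ℕ) : 2 ^ (k + 1) = 2 ^ k + 2 ^ k := by ring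

/-- the cell of level `k` in terms of the corner -/
theorem cor_le (k : ℕ) (x : ℕ) : x / 2 ^ (k + 1) * 2 ^ (k + 1) ≤ x ∧
    x < x / 2 ^ (k + 1) * 2 ^ (k + 1) + 2 ^ (k + 1) := by
  have h1 := Nat.div_add_mod x (2 ^ (k + 1))
  have h3 := Nat.mod_lt x (show 0 < 2 ^ (k + 1) by positivity)
  rw [Nat.mul_comm] at h1
  constructor <;> omega

/-- a dyadic interval of side `2^(k+1)` lies in the left or in the right half of the one of side
`2^(i+1)`, `i > k`, in one coordinate -/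
theorem nest (k i x : ℕ) (h : k < i) :
    (x / 2 ^ (i + 1) * 2 ^ (i + 1) ≤ x / 2 ^ (k + 1) * 2 ^ (k + 1) ∧
      x / 2 ^ (k + 1) * 2 ^ (k + 1) + 2 ^ (k + 1) ≤ x / 2 ^ (i + 1) * 2 ^ (i + 1) + 2 ^ i) ∨
    (x / 2 ^ (i + 1) * 2 ^ (i + 1) + 2 ^ i ≤ x / 2 ^ (k + 1) * 2 ^ (k + 1) ∧
      x / 2 ^ (k + 1) * 2 ^ (k + 1) + 2 ^ (k + 1) ≤
        x / 2 ^ (i + 1) * 2 ^ (i + 1) + 2 ^ (i + 1)) := by
  obtain ⟨m, hm⟩ : ∃ m, i = k + 1 + m := ⟨i - (k + 1), by omega⟩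
  have e1 : 2 ^ i = 2 ^ m * 2 ^ (k + 1) := by rw [hm, Nat.add_comm, pow_add]
  have e2 : 2 ^ (i + 1) = 2 * 2 ^ m * 2 ^ (k + 1) := by rw [pow_succ, e1]; ring
  obtain ⟨a, ha⟩ : ∃ a, a = x / 2 ^ (k + 1) := ⟨_, rfl⟩
  have e3 : x / 2 ^ (i + 1) = a / (2 * 2 ^ m) := by
    rw [ha, Nat.div_div_eq_div_mul, e2]
    congr 1
    ring
  obtain ⟨c, hc⟩ : ∃ c, c = a / (2 * 2 ^ m) := ⟨_, rfl⟩
  have hM : 0 < 2 ^ m := by positivity
  have hs : 0 < 2 ^ (k + 1) := by positivity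
  have h1 := Nat.div_add_mod a (2 * 2 ^ m)
  have h2 := Nat.mod_lt a (show 0 < 2 * 2 ^ m by positivity)
  rw [← hc] at h1
  rw [e3, ← ha, ← hc, e1, e2]
  obtain ⟨M, hMd⟩ : ∃ M, M = 2 ^ m := ⟨_, rfl⟩
  obtain ⟨s, hsd⟩ : ∃ s, s = 2 ^ (k + 1) := ⟨_, rfl⟩
  rw [← hMd] at h1 h2 hM ⊢
  rw [← hsd] at hs ⊢
  obtain ⟨r, hr⟩ : ∃ r, r = a % (2 * M) := ⟨_, rfl⟩
  rw [← hr] at h1 h2
  by_cases h3 : r < M
  · left
    constructor
    · have : c * (2 * M) ≤ a := by nlinarith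
      nlinarith [Nat.mul_le_mul_right s this]
    · have : a + 1 ≤ c * (2 * M) + M := by nlinarith
      nlinarith [Nat.mul_le_mul_right s this]
  · right
    constructor
    · have : c * (2 * M) + M ≤ a := by nlinarith
      nlinarith [Nat.mul_le_mul_right s this]
    · have : a + 1 ≤ c * (2 * M) + 2 * M := by nlinarith
      nlinarith [Nat.mul_le_mul_right s this]

theorem mem_Lh {k : ℕ} {z b : ℕ × ℕ} : b ∈ Lh k z ↔
    (z.1 / 2 ^ (k + 1) * 2 ^ (k + 1) ≤ b.1 ∧ b.1 < z.1 / 2 ^ (k + 1) * 2 ^ (k + 1) + 2 ^ k) ∧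
    (z.2 / 2 ^ (k + 1) * 2 ^ (k + 1) ≤ b.2 ∧
      b.2 < z.2 / 2 ^ (k + 1) * 2 ^ (k + 1) + 2 ^ (k + 1)) := by
  unfold Lh cor
  simp only [Finset.mem_product, Finset.mem_Ico]

theorem mem_Rh {k : ℕ} {z b : ℕ × ℕ} : b ∈ Rh k z ↔
    (z.1 / 2 ^ (k + 1) * 2 ^ (k + 1) + 2 ^ k ≤ b.1 ∧
      b.1 < z.1 / 2 ^ (k + 1) * 2 ^ (k + 1) + 2 ^ (k + 1)) ∧
    (z.2 / 2 ^ (k + 1) * 2 ^ (k + 1) ≤ b.2 ∧
      b.2 < z.2 / 2 ^ (k + 1) * 2 ^ (k + 1) + 2 ^ (k + 1)) := by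
  unfold Rh cor
  simp only [Finset.mem_product, Finset.mem_Ico]

theorem mem_cell {k : ℕ} {z b : ℕ × ℕ} : b ∈ Lh k z ∪ Rh k z ↔
    (z.1 / 2 ^ (k + 1) * 2 ^ (k + 1) ≤ b.1 ∧
      b.1 < z.1 / 2 ^ (k + 1) * 2 ^ (k + 1) + 2 ^ (k + 1)) ∧
    (z.2 / 2 ^ (k + 1) * 2 ^ (k + 1) ≤ b.2 ∧
      b.2 < z.2 / 2 ^ (k + 1) * 2 ^ (k + 1) + 2 ^ (k + 1)) := by
  rw [Finset.mem_union, mem_Lh, mem_Rh]
  have := pow_succ_eq k
  constructor
  · rintro (h | h)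
    · omega
    · omega
  · intro h
    by_cases h1 : b.1 < z.1 / 2 ^ (k + 1) * 2 ^ (k + 1) + 2 ^ k
    · left
      omega
    · right
      omega

theorem cell_nest {k i : ℕ} (z : ℕ × ℕ) (h : k < i) :
    (Lh k z ∪ Rh k z ⊆ Lh i z ∧ Disjoint (Lh k z ∪ Rh k z) (Rh i z)) ∨
    (Lh k z ∪ Rh k z ⊆ Rh i z ∧ Disjoint (Lh k z ∪ Rh k z) (Lh i z)) := by
  have h2 := nest k i z.2 h
  have h3 := pow_succ_eq i
  rcases nest k i z.1 h with h1 | h1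
  · left
    constructor
    · intro b hb
      rw [mem_cell] at hb
      rw [mem_Lh]
      omega
    · rw [Finset.disjoint_left]
      intro b hb
      rw [mem_cell] at hb
      rw [mem_Rh]
      omega
  · right
    constructor
    · intro b hb
      rw [mem_cell] at hb
      rw [mem_Rh]
      omega
    · rw [Finset.disjoint_left]
      intro b hb
      rw [mem_cell] at hb
      rw [mem_Lh]
      omega

theorem halves_disj (k : ℕ) (z : ℕ × ℕ) : Disjoint (Lh k z) (Rh k z) := by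
  rw [Finset.disjoint_left]
  intro b hb
  rw [mem_Lh] at hb
  rw [mem_Rh]
  omega

theorem Zk_inv {k i : ℕ} {z : ℕ × ℕ} (h : k < i) {π : Equiv.Perm (ℕ × ℕ)}
    (hπ : ∀ b, b ∉ Lh k z ∪ Rh k z → π b = b) (y : ℕ × ℕ → ℝ) : Zk i z (y ∘ π) = Zk i z y := by
  unfold Zk
  rcases cell_nest z h with h1 | h1
  · rw [sum_perm hπ (Or.inl h1.1), sum_perm hπ (Or.inr h1.2)]
  · rw [sum_perm hπ (Or.inr h1.2), sum_perm hπ (Or.inl h1.1)]

theorem ep_inv {k i : ℕ} {z : ℕ × ℕ} (h : k < i) {π : Equiv.Perm (ℕ × ℕ)}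
    (hπ : ∀ b, b ∉ Lh k z ∪ Rh k z → π b = b) (y : ℕ × ℕ → ℝ) : ep i z (y ∘ π) = ep i z y := by
  unfold ep
  rw [Zk_inv h hπ]

theorem Ok_inv {k j K : ℕ} {t : ℝ} {z : ℕ × ℕ} (h : k ≤ j) {π : Equiv.Perm (ℕ × ℕ)}
    (hπ : ∀ b, b ∉ Lh k z ∪ Rh k z → π b = b) (y : ℕ × ℕ → ℝ) :
    Ok K t j z (y ∘ π) ↔ Ok K t j z y := by
  unfold Ok
  have h1 : ∀ g : ℕ → ℝ, ∑ i ∈ Finset.Ico (j + 1) K, ep i z (y ∘ π) * g i =
      ∑ i ∈ Finset.Ico (j + 1) K, ep i z y * g i := by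
    intro g
    refine Finset.sum_congr rfl fun i hi => ?_
    rw [Finset.mem_Ico] at hi
    rw [ep_inv (by omega) hπ]
  rw [h1, h1]

theorem Al_inv {k i K : ℕ} {t : ℝ} {z : ℕ × ℕ} (h : k ≤ i) {π : Equiv.Perm (ℕ × ℕ)}
    (hπ : ∀ b, b ∉ Lh k z ∪ Rh k z → π b = b) (y : ℕ × ℕ → ℝ) :
    Al K t i z (y ∘ π) ↔ Al K t i z y := by
  unfold Al
  refine forall_congr' fun j => forall_congr' fun hj => ?_
  rw [Finset.mem_Ico] at hj
  exact Ok_inv (by omega) hπ y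

theorem w_inv {k i K : ℕ} {t : ℝ} {z : ℕ × ℕ} (h : k < i) {π : Equiv.Perm (ℕ × ℕ)}
    (hπ : ∀ b, b ∉ Lh k z ∪ Rh k z → π b = b) (y : ℕ × ℕ → ℝ) :
    w K t i z (y ∘ π) = w K t i z y := by
  unfold w
  rw [ep_inv h hπ]
  by_cases h1 : Al K t i z y
  · rw [if_pos h1, if_pos ((Al_inv h.le hπ y).2 h1)]
  · rw [if_neg h1, if_neg fun h2 => h1 ((Al_inv h.le hπ y).1 h2)]

/-- the exchange of the two halves -/
def swp (k : ℕ) (z b : ℕ × ℕ) : ℕ × ℕ :=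
  if b ∈ Lh k z then (b.1 + 2 ^ k, b.2) else if b ∈ Rh k z then (b.1 - 2 ^ k, b.2) else b

theorem swp_L {k : ℕ} {z b : ℕ × ℕ} (h : b ∈ Lh k z) : swp k z b = (b.1 + 2 ^ k, b.2) := by
  unfold swp
  rw [if_pos h]

theorem swp_R {k : ℕ} {z b : ℕ × ℕ} (h : b ∈ Rh k z) : swp k z b = (b.1 - 2 ^ k, b.2) := by
  have : b ∉ Lh k z := fun h' => (Finset.disjoint_left.1 (halves_disj k z)) h' h
  unfold swp
  rw [if_neg this, if_pos h]

theorem swp_N {k : ℕ} {z b : ℕ × ℕ} (h : b ∉ Lh k z ∪ Rh k z) : swp k z b = b := by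
  rw [Finset.mem_union] at h
  push Not at h
  unfold swp
  rw [if_neg h.1, if_neg h.2]

theorem swp_LR {k : ℕ} {z b : ℕ × ℕ} (h : b ∈ Lh k z) : swp k z b ∈ Rh k z := by
  rw [swp_L h]
  rw [mem_Lh] at h
  rw [mem_Rh]
  have := pow_succ_eq k
  simp only
  omega

theorem swp_RL {k : ℕ} {z b : ℕ × ℕ} (h : b ∈ Rh k z) : swp k z b ∈ Lh k z := by
  rw [swp_R h]
  rw [mem_Rh] at h
  rw [mem_Lh]
  have := pow_succ_eq k
  simp only
  omega

theorem swp_swp (k : ℕ) (z b : ℕ × ℕ) : swp k z (swp k z b) = b := by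
  by_cases h : b ∈ Lh k z ∪ Rh k z
  · rcases Finset.mem_union.1 h with h1 | h1
    · rw [swp_R (swp_LR h1), swp_L h1]
      simp
    · rw [swp_L (swp_RL h1), swp_R h1]
      rw [mem_Rh] at h1
      have : 2 ^ k ≤ b.1 := by omega
      simp only
      rw [Nat.sub_add_cancel this]
  · rw [swp_N h, swp_N h]

/-- as a permutation -/
def swe (k : ℕ) (z : ℕ × ℕ) : Equiv.Perm (ℕ × ℕ) := ⟨swp k z, swp k z, swp_swp k z, swp_swp k z⟩

theorem swe_sum_L (k : ℕ) (z : ℕ × ℕ) (y : ℕ × ℕ → ℝ) :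
    ∑ b ∈ Lh k z, (y ∘ swe k z) b = ∑ b ∈ Rh k z, y b := by
  refine Finset.sum_bij (fun b _ => swp k z b) ?_ ?_ ?_ ?_
  · intro b hb
    exact swp_LR hb
  · intro b _ b' _ h
    exact (swe k z).injective h
  · intro b hb
    exact ⟨swp k z b, swp_RL hb, swp_swp k z b⟩
  · intro b _
    rfl

theorem swe_sum_R (k : ℕ) (z : ℕ × ℕ) (y : ℕ × ℕ → ℝ) :
    ∑ b ∈ Rh k z, (y ∘ swe k z) b = ∑ b ∈ Lh k z, y b := by
  refine Finset.sum_bij (fun b _ => swp k z b) ?_ ?_ ?_ ?_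
  · intro b hb
    exact swp_RL hb
  · intro b _ b' _ h
    exact (swe k z).injective h
  · intro b hb
    exact ⟨swp k z b, swp_LR hb, swp_swp k z b⟩
  · intro b _
    rfl

theorem t_F : S_F := by
  intro K t k z
  refine ⟨?_, ?_, ?_, ?_⟩
  · intro π hπ y
    exact ⟨fun i hi => w_inv hi hπ y, Al_inv le_rfl hπ y⟩
  · intro π hπ y
    have hπ' : ∀ b, b ∉ Lh k z ∪ Rh k z → π b = b := by
      intro b hb
      rw [Finset.mem_union] at hb
      push Not at hb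
      rcases hπ with h | h
      · exact h b hb.1
      · exact h b hb.2
    have hZ : Zk k z (y ∘ π) = Zk k z y := by
      unfold Zk
      rcases hπ with h | h
      · rw [sum_perm h (Or.inl (Finset.Subset.refl _)), sum_perm h (Or.inr (halves_disj k z))]
      · rw [sum_perm h (Or.inr (halves_disj k z).symm), sum_perm h (Or.inl (Finset.Subset.refl _))]
    unfold w ep
    rw [hZ]
    by_cases h1 : Al K t k z y
    · rw [if_pos h1, if_pos ((Al_inv le_rfl hπ' y).2 h1)]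
    · rw [if_neg h1, if_neg fun h2 => h1 ((Al_inv le_rfl hπ' y).1 h2)]
  · have hfix : ∀ b, b ∉ Lh k z ∪ Rh k z → swe k z b = b := fun b hb => swp_N hb
    refine ⟨swe k z, hfix, ?_⟩
    intro y
    have hZ : Zk k z (y ∘ swe k z) = - Zk k z y := by
      unfold Zk
      rw [swe_sum_L, swe_sum_R]
      ring
    refine ⟨hZ, ?_, swe_sum_L k z y⟩
    unfold w ep
    rw [hZ, Real.sign_neg]
    by_cases h1 : Al K t k z y
    · rw [if_pos h1, if_pos ((Al_inv le_rfl hfix y).2 h1)]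
    · rw [if_neg h1, if_neg fun h2 => h1 ((Al_inv le_rfl hfix y).1 h2), neg_zero]
  · intro hz hk b hb
    rw [mem_cell] at hb
    unfold box at hz ⊢
    simp only [Finset.mem_product, Finset.mem_range] at hz ⊢
    obtain ⟨m, hm⟩ : ∃ m, K = k + 1 + m := ⟨K - (k + 1), by omega⟩
    have e1 : 2 ^ K = 2 ^ m * 2 ^ (k + 1) := by rw [hm, Nat.add_comm, pow_add]
    have key : ∀ x, x < 2 ^ K → x / 2 ^ (k + 1) * 2 ^ (k + 1) + 2 ^ (k + 1) ≤ 2 ^ K := by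
      intro x hx
      rw [e1] at hx ⊢
      have : x / 2 ^ (k + 1) < 2 ^ m := (Nat.div_lt_iff_lt_mul (by positivity)).2 hx
      calc x / 2 ^ (k + 1) * 2 ^ (k + 1) + 2 ^ (k + 1) = (x / 2 ^ (k + 1) + 1) * 2 ^ (k + 1) := by
            ring
        _ ≤ 2 ^ m * 2 ^ (k + 1) := Nat.mul_le_mul_right _ this
    have k1 := key z.1 hz.1
    have k2 := key z.2 hz.2
    omega

end Q294.Pm
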