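import Pool.Agent.Q294.Pm.A
import Pool.Agent.Q294.Pm.F

/-!
Project PM: job B.
-/

set_option autoImplicit false

namespace Q294.Pm

theorem sum_R1 (s : ℝ) (m : ℕ) : ∑ y ∈ Finset.range m, (y : ℝ) * (s - y) =
    s * (m * (m - 1) / 2) - (m - 1) * m * (2 * m - 1) / 6 := by
  induction m with
  | zero => simp
  | succ n ih =>
    rw [Finset.sum_range_succ, ih]
    push_cast
    ring

theorem sum_P1 (h : ℝ) (m : ℕ) : ∑ x ∈ Finset.range m, (x : ℝ) * (2 * h - x) * (2 * h - 2 * x) =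
    4 * h ^ 2 * (m * (m - 1) / 2) - 6 * h * ((m - 1) * m * (2 * m - 1) / 6) +
      2 * ((m - 1) * m / 2) ^ 2 := by
  induction m with
  | zero => simp
  | succ n ih =>
    rw [Finset.sum_range_succ, ih]
    push_cast
    ring

theorem sum_P2 (h : ℝ) (m : ℕ) : ∑ u ∈ Finset.range m, 2 * (u : ℝ) * (h ^ 2 - u ^ 2) =
    2 * h ^ 2 * (m * (m - 1) / 2) - 2 * ((m - 1) * m / 2) ^ 2 := by
  induction m with
  | zero => simp
  | succ n ih =>
    rw [Finset.sum_range_succ, ih]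
    push_cast
    ring

/-- sum of the absolute cubic over one period -/
theorem sum_absP (h : ℕ) : ∑ x ∈ Finset.range (2 * h), |PP (2 * h) x| =
    (h : ℝ) ^ 2 * (h ^ 2 - 1) := by
  have e : 2 * h = h + h := by ring
  rw [e, Finset.sum_range_add]
  have h1 : ∑ x ∈ Finset.range h, |PP (2 * h) x| =
      ∑ x ∈ Finset.range h, (x : ℝ) * (2 * h - x) * (2 * h - 2 * x) := by
    refine Finset.sum_congr rfl fun x hx => ?_
    have hx' : (x : ℝ) ≤ h := by exact_mod_cast (Finset.mem_range.1 hx).le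
    unfold PP
    rw [abs_of_nonneg]
    have : (0 : ℝ) ≤ x := by positivity
    have : (0 : ℝ) ≤ 2 * h - x := by linarith
    have : (0 : ℝ) ≤ 2 * h - 2 * x := by linarith
    positivity
  have h2 : ∑ x ∈ Finset.range h, |PP (2 * h) ((h + x : ℕ) : ℝ)| =
      ∑ u ∈ Finset.range h, 2 * (u : ℝ) * ((h : ℝ) ^ 2 - u ^ 2) := by
    refine Finset.sum_congr rfl fun u hu => ?_
    have hx' : (u : ℝ) ≤ h := by exact_mod_cast (Finset.mem_range.1 hu).le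
    unfold PP
    push_cast
    have e1 : ((h : ℝ) + u) * (2 * h - (h + u)) * (2 * h - 2 * (h + u)) =
        -(2 * (u : ℝ) * ((h : ℝ) ^ 2 - u ^ 2)) := by ring
    rw [e1, abs_neg, abs_of_nonneg]
    have : (0 : ℝ) ≤ u := by positivity
    have : (0 : ℝ) ≤ (h : ℝ) ^ 2 - u ^ 2 := by nlinarith
    positivity
  rw [h1, h2, sum_P1, sum_P2]
  ring

theorem sum_period (F : ℕ → ℝ) (s c : ℕ) :
    ∑ x ∈ Finset.range (c * s), F (x % s) = c * ∑ x ∈ Finset.range s, F x := by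
  induction c with
  | zero => simp
  | succ n ih =>
    rw [Nat.succ_mul, Finset.sum_range_add, ih]
    have : ∑ x ∈ Finset.range s, F ((n * s + x) % s) = ∑ x ∈ Finset.range s, F x := by
      refine Finset.sum_congr rfl fun x hx => ?_
      rw [Nat.mul_add_mod_self_right, Nat.mod_eq_of_lt (Finset.mem_range.1 hx)]
    rw [this]
    push_cast
    ring

theorem Psi_eq (k : ℕ) (z : ℕ × ℕ) : Psi k z = PP (2 ^ (k + 1)) ((z.1 % 2 ^ (k + 1) : ℕ) : ℝ) *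
    (((z.2 % 2 ^ (k + 1) : ℕ) : ℝ) * (2 ^ (k + 1) - ((z.2 % 2 ^ (k + 1) : ℕ) : ℝ))) /
      (2 ^ (k + 1)) ^ 4 := by
  unfold Psi psi PP
  ring

theorem half_iff (k : ℕ) (z : ℕ × ℕ) : z ∈ Lh k z ↔ z.1 % 2 ^ (k + 1) < 2 ^ k := by
  rw [mem_Lh]
  have h1 := Nat.div_add_mod z.1 (2 ^ (k + 1))
  have h2 := Nat.div_add_mod z.2 (2 ^ (k + 1))
  have h3 := Nat.mod_lt z.1 (show 0 < 2 ^ (k + 1) by positivity)
  have h4 := Nat.mod_lt z.2 (show 0 < 2 ^ (k + 1) by positivity)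
  rw [Nat.mul_comm] at h1 h2
  constructor
  · intro h
    omega
  · intro h
    omega

theorem t_B : S_B := by
  have hsgn : ∀ k (z : ℕ × ℕ), 0 ≤ ((z.1 % 2 ^ (k + 1) : ℕ) : ℝ) *
      (2 ^ (k + 1) - ((z.1 % 2 ^ (k + 1) : ℕ) : ℝ)) * (((z.2 % 2 ^ (k + 1) : ℕ) : ℝ) *
        (2 ^ (k + 1) - ((z.2 % 2 ^ (k + 1) : ℕ) : ℝ))) / (2 ^ (k + 1)) ^ 4 := by
    intro k z
    have h1 := (mod_facts k z.1).2
    have h2 := (mod_facts k z.2).2
    have h3 : (0 : ℝ) ≤ 2 ^ (k + 1) - ((z.1 % 2 ^ (k + 1) : ℕ) : ℝ) := by linarith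
    have h4 : (0 : ℝ) ≤ 2 ^ (k + 1) - ((z.2 % 2 ^ (k + 1) : ℕ) : ℝ) := by linarith
    positivity
  have hform : ∀ k (z : ℕ × ℕ), Psi k z = ((z.1 % 2 ^ (k + 1) : ℕ) : ℝ) *
      (2 ^ (k + 1) - ((z.1 % 2 ^ (k + 1) : ℕ) : ℝ)) * (((z.2 % 2 ^ (k + 1) : ℕ) : ℝ) *
        (2 ^ (k + 1) - ((z.2 % 2 ^ (k + 1) : ℕ) : ℝ))) / (2 ^ (k + 1)) ^ 4 *
        (2 ^ (k + 1) - 2 * ((z.1 % 2 ^ (k + 1) : ℕ) : ℝ)) := by
    intro k z
    unfold Psi psi
    ring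
  refine ⟨?_, ?_, ?_⟩
  · intro k z hz
    rw [half_iff] at hz
    rw [hform]
    refine mul_nonneg (hsgn k z) ?_
    have : ((z.1 % 2 ^ (k + 1) : ℕ) : ℝ) < 2 ^ k := by exact_mod_cast hz
    rw [pow_succ]
    linarith
  · intro k z hz
    rw [half_iff, not_lt] at hz
    rw [hform]
    refine mul_nonpos_of_nonneg_of_nonpos (hsgn k z) ?_
    have : (2 : ℝ) ^ k ≤ ((z.1 % 2 ^ (k + 1) : ℕ) : ℝ) := by exact_mod_cast hz
    rw [pow_succ]
    linarith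
  · intro K k hk1 hkK
    obtain ⟨m, hm⟩ : ∃ m, K = m + (k + 1) := ⟨K - (k + 1), by omega⟩
    obtain ⟨h, hh⟩ : ∃ h, h = 2 ^ k := ⟨_, rfl⟩
    obtain ⟨c, hc⟩ : ∃ c, c = 2 ^ m := ⟨_, rfl⟩
    have hs : 2 ^ (k + 1) = 2 * h := by rw [hh]; ring
    have hN : 2 ^ K = c * (2 * h) := by rw [hm, pow_add, hs, hc]
    have hh2 : 2 ≤ h := by
      rw [hh]
      calc 2 = 2 ^ 1 := by norm_num
        _ ≤ 2 ^ k := Nat.pow_le_pow_right (by norm_num) hk1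
    have hsR : (2 : ℝ) ^ (k + 1) = 2 * h := by
      have : ((2 ^ (k + 1) : ℕ) : ℝ) = ((2 * h : ℕ) : ℝ) := by rw [hs]
      push_cast at this
      exact this
    have habs : ∀ b ∈ box (2 ^ K), |Psi k b| =
        |PP (2 * h) ((b.1 % (2 * h) : ℕ) : ℝ)| *
          ((((b.2 % (2 * h) : ℕ) : ℝ) * (2 * h - ((b.2 % (2 * h) : ℕ) : ℝ))) / (2 * h) ^ 4) := by
      intro b _
      rw [Psi_eq, hsR, hs, abs_div, abs_mul]
      have h2 := (mod_facts k b.2).2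
      rw [hs, hsR] at h2
      have h4 : (0 : ℝ) ≤ 2 * h - ((b.2 % (2 * h) : ℕ) : ℝ) := by linarith
      rw [abs_of_nonneg (mul_nonneg (Nat.cast_nonneg _) h4),
        abs_of_nonneg (by positivity : (0 : ℝ) ≤ (2 * h) ^ 4)]
      ring
    rw [Finset.sum_congr rfl habs]
    unfold box
    rw [Finset.sum_product]
    simp only
    rw [← Finset.sum_mul_sum]
    rw [hN, sum_period (fun x => |PP (2 * h) (x : ℝ)|) (2 * h) c]
    rw [sum_period (fun y => ((y : ℝ) * (2 * h - (y : ℝ))) / (2 * h) ^ 4) (2 * h) c]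
    rw [sum_absP, ← Finset.sum_div, sum_R1]
    have hR : (2 : ℝ) ≤ h := by exact_mod_cast hh2
    have hc0 : (0 : ℝ) < c := by
      rw [hc]
      positivity
    have h4K : (4 : ℝ) ^ K = (c * (2 * h)) ^ 2 := by
      have : ((2 ^ K : ℕ) : ℝ) = ((c * (2 * h) : ℕ) : ℝ) := by rw [hN]
      push_cast at this
      rw [← this, ← pow_mul, mul_comm, pow_mul]
      norm_num
    have hk2 : (2 : ℝ) ^ k = h := by rw [hh]; push_cast; rfl
    rw [h4K, hk2]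
    push_cast
    have e1 : (c : ℝ) * (↑h ^ 2 * (↑h ^ 2 - 1)) *
        (c * ((2 * h * (2 * h * (2 * h - 1) / 2) - (2 * h - 1) * (2 * h) * (2 * (2 * h) - 1) / 6) /
          (2 * h) ^ 4)) = c ^ 2 * ((h ^ 2 - 1) * (4 * h ^ 2 - 1) / (48 * h)) := by
      field_simp
      ring
    rw [e1]
    have e2 : (h : ℝ) * (c * (2 * h)) ^ 2 / 100 = c ^ 2 * (4 * h ^ 3 / 100) := by ring
    rw [e2]
    refine mul_le_mul_of_nonneg_left ?_ (by positivity)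
    rw [div_le_div_iff₀ (by norm_num) (by positivity)]
    have i1 : 3 / 4 * (h : ℝ) ^ 2 ≤ h ^ 2 - 1 := by nlinarith
    have i2 : 15 / 4 * (h : ℝ) ^ 2 ≤ 4 * h ^ 2 - 1 := by nlinarith
    have i3 : (3 / 4 * (h : ℝ) ^ 2) * (15 / 4 * (h : ℝ) ^ 2) ≤ (h ^ 2 - 1) * (4 * h ^ 2 - 1) :=
      mul_le_mul i1 i2 (by positivity) (by nlinarith)
    nlinarith [pow_pos (by linarith : (0 : ℝ) < h) 4]

end Q294.Pm
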