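import Pool.Agent.Q294.Pm.Sch

/-!
Project PM (helper294), MP_47e84d_pr: translation-invariant matching schemes of critical planar
multicolour Poisson processes. Auxiliary definitions.
-/

set_option autoImplicit false

open MeasureTheory ProbabilityTheory
open scoped ENNReal NNReal

namespace Q294.Pm

/-! ### Dyadic potentials on the grid -/

/-- The bump `s p(x/s) r(y/s)` with `p(t) = t(1-t)(1-2t)`, `r(t) = t(1-t)`. -/
noncomputable def psi (s x y : ℝ) : ℝ := x * (s - x) * (s - 2 * x) * (y * (s - y)) / s ^ 4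

/-- Lower left corner of the cell of level `k` (side `2^(k+1)`) which contains `z`. -/
def cor (k : ℕ) (z : ℕ × ℕ) : ℕ × ℕ :=
  (z.1 / 2 ^ (k + 1) * 2 ^ (k + 1), z.2 / 2 ^ (k + 1) * 2 ^ (k + 1))

/-- Value at `z` of the bump of its cell of level `k`. -/
noncomputable def Psi (k : ℕ) (z : ℕ × ℕ) : ℝ :=
  psi (2 ^ (k + 1)) ((z.1 % 2 ^ (k + 1) : ℕ) : ℝ) ((z.2 % 2 ^ (k + 1) : ℕ) : ℝ)

/-- Increment of the bump of level `k` from `z` to `z + (1,0)`, in the cell of `z`. -/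
noncomputable def dx (k : ℕ) (z : ℕ × ℕ) : ℝ :=
  psi (2 ^ (k + 1)) (((z.1 % 2 ^ (k + 1) : ℕ) : ℝ) + 1) ((z.2 % 2 ^ (k + 1) : ℕ) : ℝ) - Psi k z

/-- Increment of the bump of level `k` from `z` to `z + (0,1)`, in the cell of `z`. -/
noncomputable def dy (k : ℕ) (z : ℕ × ℕ) : ℝ :=
  psi (2 ^ (k + 1)) ((z.1 % 2 ^ (k + 1) : ℕ) : ℝ) (((z.2 % 2 ^ (k + 1) : ℕ) : ℝ) + 1) - Psi k z

/-- Left half of the cell of level `k` of `z`. -/
def Lh (k : ℕ) (z : ℕ × ℕ) : Finset (ℕ × ℕ) :=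
  Finset.Ico (cor k z).1 ((cor k z).1 + 2 ^ k) ×ˢ
    Finset.Ico (cor k z).2 ((cor k z).2 + 2 ^ (k + 1))

/-- Right half of the cell of level `k` of `z`. -/
def Rh (k : ℕ) (z : ℕ × ℕ) : Finset (ℕ × ℕ) :=
  Finset.Ico ((cor k z).1 + 2 ^ k) ((cor k z).1 + 2 ^ (k + 1)) ×ˢ
    Finset.Ico (cor k z).2 ((cor k z).2 + 2 ^ (k + 1))

/-- Charge of the left half minus charge of the right half. -/
def Zk (k : ℕ) (z : ℕ × ℕ) (y : ℕ × ℕ → ℝ) : ℝ := ∑ b ∈ Lh k z, y b - ∑ b ∈ Rh k z, y b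

/-- The sign of the cell. -/
noncomputable def ep (k : ℕ) (z : ℕ × ℕ) (y : ℕ × ℕ → ℝ) : ℝ := Real.sign (Zk k z y)

/-- The gradient accumulated above level `j` is at most `t` at the corner of the cell of level
`j`. -/
def Ok (K : ℕ) (t : ℝ) (j : ℕ) (z : ℕ × ℕ) (y : ℕ × ℕ → ℝ) : Prop :=
  |∑ i ∈ Finset.Ico (j + 1) K, ep i z y * dx i (cor j z)| ≤ t ∧
    |∑ i ∈ Finset.Ico (j + 1) K, ep i z y * dy i (cor j z)| ≤ t

/-- The cell of level `k` of `z` is still alive. -/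
def Al (K : ℕ) (t : ℝ) (k : ℕ) (z : ℕ × ℕ) (y : ℕ × ℕ → ℝ) : Prop :=
  ∀ j ∈ Finset.Ico k K, Ok K t j z y

open scoped Classical in
/-- The coefficient of the cell. -/
noncomputable def w (K : ℕ) (t : ℝ) (k : ℕ) (z : ℕ × ℕ) (y : ℕ × ℕ → ℝ) : ℝ :=
  if Al K t k z y then ep k z y else 0

/-- The grid box of side `N`. -/
def box (N : ℕ) : Finset (ℕ × ℕ) := Finset.range N ×ˢ Finset.range N

/-- The potential. -/
noncomputable def phi (K : ℕ) (t : ℝ) (y : ℕ × ℕ → ℝ) (z : ℕ × ℕ) : ℝ :=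
  if z ∈ box (2 ^ K) then ∑ k ∈ Finset.range K, w K t k z y * Psi k z else 0

/-- Exchangeability in the box. -/
def Exch {Ω : Type*} [MeasurableSpace Ω] (P : Measure Ω) (Y : ℕ × ℕ → Ω → ℝ) (N : ℕ) : Prop :=
  ∀ π : Equiv.Perm (ℕ × ℕ), (∀ b, b ∉ box N → π b = b) →
    IdentDistrib (fun ω b => Y (π b) ω) (fun ω b => Y b ω) P P

/-- Independent Poisson counts of the colours in the boxes of `S`. -/
def Ind {q : ℕ} {Ω : Type*} [MeasurableSpace Ω] (P : Measure Ω) (lam : Fin q → ℝ)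
    (S : Finset (ℕ × ℕ)) (n : Fin q → ℕ × ℕ → Ω → ℕ) : Prop :=
  (∀ i, ∀ b ∈ S, Measurable (n i b)) ∧
    iIndepFun (fun (p : Fin q × S) ω => n p.1 p.2.1 ω) P ∧
    ∀ i, ∀ b ∈ S, P.map (n i b) = poissonMeasure (lam i).toNNReal

open scoped Classical in
/-- The charges of the boxes of `S`. -/
noncomputable def Yb {q : ℕ} {Ω : Type*} (f : Fin q → ℝ) (S : Finset (ℕ × ℕ))
    (n : Fin q → ℕ × ℕ → Ω → ℕ) (b : ℕ × ℕ) (ω : Ω) : ℝ :=
  if b ∈ S then ∑ i, f i * n i b ω else 0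

/-- The unit square with lower left corner `b`. -/
def U (b : ℕ × ℕ) : Set ℂ :=
  {z | (b.1 : ℝ) ≤ z.re ∧ z.re < b.1 + 1 ∧ (b.2 : ℝ) ≤ z.im ∧ z.im < b.2 + 1}

end Q294.Pm
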