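import Pool.Agent.Q294.Pm.G

/-!
Project PM: jobs E and D.
-/

set_option autoImplicit false

namespace Q294.Pm

theorem geo (j K : ℕ) (h : j + 1 ≤ K) :
    ∑ i ∈ Finset.Ico (j + 1) K, (2 : ℝ) ^ (j + 1) / 2 ^ (i + 1) = 1 - 2 ^ (j + 1) / 2 ^ K := by
  induction K, h using Nat.le_induction with
  | base => simp
  | succ n hn ih =>
    rw [Finset.sum_Ico_succ_top (by omega), ih]
    rw [pow_succ (2 : ℝ) n]
    field_simp
    ring

theorem abs_ep_le (k : ℕ) (z : ℕ × ℕ) (y : ℕ × ℕ → ℝ) : |ep k z y| ≤ 1 := abs_sign_le _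

theorem tele {g : ℕ → ℕ × ℕ → ℝ}
    (hg : ∀ i j z, j < i → |g i z - g i (cor j z)| ≤ 3 * 2 ^ (j + 1) / 2 ^ (i + 1)) (j K : ℕ)
    (z : ℕ × ℕ) (y : ℕ × ℕ → ℝ) :
    |∑ i ∈ Finset.Ico (j + 1) K, ep i z y * g i z -
      ∑ i ∈ Finset.Ico (j + 1) K, ep i z y * g i (cor j z)| ≤ 3 := by
  rw [← Finset.sum_sub_distrib]
  refine (Finset.abs_sum_le_sum_abs _ _).trans ?_
  have h1 : ∀ i ∈ Finset.Ico (j + 1) K, |ep i z y * g i z - ep i z y * g i (cor j z)| ≤
      3 * (2 ^ (j + 1) / 2 ^ (i + 1)) := by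
    intro i hi
    rw [Finset.mem_Ico] at hi
    rw [← mul_sub, abs_mul]
    have h2 := hg i j z (by omega)
    have h3 := abs_ep_le i z y
    calc |ep i z y| * |g i z - g i (cor j z)| ≤ 1 * (3 * 2 ^ (j + 1) / 2 ^ (i + 1)) :=
          mul_le_mul h3 h2 (abs_nonneg _) zero_le_one
      _ = 3 * (2 ^ (j + 1) / 2 ^ (i + 1)) := by ring
  refine (Finset.sum_le_sum h1).trans ?_
  rw [← Finset.mul_sum]
  by_cases hj : j + 1 ≤ K
  · rw [geo j K hj]
    have : (0 : ℝ) < 2 ^ (j + 1) / 2 ^ K := by positivity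
    linarith
  · rw [Finset.Ico_eq_empty_of_le (by omega)]
    norm_num

/-- the sum of the coefficients if the cells above level `j` are alive and the others are not -/
theorem sum_split {K J : ℕ} {t : ℝ} {z : ℕ × ℕ} {y : ℕ × ℕ → ℝ} (hJ : J ≤ K)
    (h1 : ∀ i, J ≤ i → i < K → Al K t i z y) (h2 : ∀ i, i < J → ¬ Al K t i z y) (g : ℕ → ℝ) :
    ∑ i ∈ Finset.range K, w K t i z y * g i = ∑ i ∈ Finset.Ico J K, ep i z y * g i := by
  rw [Finset.range_eq_Ico, ← Finset.sum_Ico_consecutive _ (Nat.zero_le J) hJ]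
  have e1 : ∑ i ∈ Finset.Ico 0 J, w K t i z y * g i = 0 := by
    refine Finset.sum_eq_zero fun i hi => ?_
    rw [Finset.mem_Ico] at hi
    unfold w
    rw [if_neg (h2 i hi.2), zero_mul]
  rw [e1, zero_add]
  refine Finset.sum_congr rfl fun i hi => ?_
  rw [Finset.mem_Ico] at hi
  unfold w
  rw [if_pos (h1 i hi.1 hi.2)]

theorem t_E (hC : S_C) : S_E := by
  classical
  intro K t k z y hk hAl
  unfold Al at hAl
  push Not at hAl
  obtain ⟨j₀, hj₀, hno⟩ := hAl
  rw [Finset.mem_Ico] at hj₀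
  obtain ⟨T, hT⟩ : ∃ T : Finset ℕ, T = (Finset.range K).filter fun j => ¬ Ok K t j z y := ⟨_, rfl⟩
  have hTn : T.Nonempty := ⟨j₀, by rw [hT]; simp [hj₀.2, hno]⟩
  obtain ⟨j, hj⟩ : ∃ j, j = T.max' hTn := ⟨_, rfl⟩
  have hjT : j ∈ T := by rw [hj]; exact Finset.max'_mem _ _
  have hjm : ∀ i ∈ T, i ≤ j := by
    intro i hi
    rw [hj]
    exact Finset.le_max' _ _ hi
  rw [hT, Finset.mem_filter, Finset.mem_range] at hjT
  have hA1 : ∀ i, j + 1 ≤ i → i < K → Al K t i z y := by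
    intro i hi hiK j' hj'
    rw [Finset.mem_Ico] at hj'
    by_contra hc
    have := hjm j' (by rw [hT]; simp [hj'.2, hc])
    omega
  have hA2 : ∀ i, i < j + 1 → ¬ Al K t i z y := by
    intro i hi hc
    exact hjT.2 (hc j (Finset.mem_Ico.2 ⟨by omega, hjT.1⟩))
  rw [sum_split (by omega) hA1 hA2, sum_split (by omega) hA1 hA2]
  have t1 := tele hC.2.2.1 j K z y
  have t2 := tele hC.2.2.2 j K z y
  have hok := hjT.2
  unfold Ok at hok
  rw [not_and_or, not_le, not_le] at hok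
  rcases hok with h | h
  · left
    have := abs_sub_abs_le_abs_sub (∑ i ∈ Finset.Ico (j + 1) K, ep i z y * dx i (cor j z))
      (∑ i ∈ Finset.Ico (j + 1) K, ep i z y * dx i z)
    rw [abs_sub_comm (∑ i ∈ Finset.Ico (j + 1) K, ep i z y * dx i (cor j z))] at this
    linarith
  · right
    have := abs_sub_abs_le_abs_sub (∑ i ∈ Finset.Ico (j + 1) K, ep i z y * dy i (cor j z))
      (∑ i ∈ Finset.Ico (j + 1) K, ep i z y * dy i z)
    rw [abs_sub_comm (∑ i ∈ Finset.Ico (j + 1) K, ep i z y * dy i (cor j z))] at this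
    linarith

/-- the stopped gradient is bounded -/
theorem grad_le {g : ℕ → ℕ × ℕ → ℝ}
    (hg : ∀ i j z, j < i → |g i z - g i (cor j z)| ≤ 3 * 2 ^ (j + 1) / 2 ^ (i + 1))
    (hg1 : ∀ i z, |g i z| ≤ 1 / 4) {K : ℕ} {t : ℝ} (ht : 0 ≤ t) {z : ℕ × ℕ} {y : ℕ × ℕ → ℝ}
    (hok : ∀ j, Ok K t j z y → |∑ i ∈ Finset.Ico (j + 1) K, ep i z y * g i (cor j z)| ≤ t) :
    |∑ i ∈ Finset.range K, w K t i z y * g i z| ≤ t + 4 := by
  classical
  by_cases hex : ∃ k, k < K ∧ Al K t k z y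
  · obtain ⟨J, hJ⟩ : ∃ J, J = Nat.find hex := ⟨_, rfl⟩
    have hJ1 : J < K ∧ Al K t J z y := by rw [hJ]; exact Nat.find_spec hex
    have hJ2 : ∀ i, i < J → ¬ Al K t i z y := by
      intro i hi hc
      rw [hJ] at hi
      exact Nat.find_min hex hi ⟨by omega, hc⟩
    have hJ3 : ∀ i, J ≤ i → i < K → Al K t i z y := by
      intro i hi hiK j hj
      rw [Finset.mem_Ico] at hj
      exact hJ1.2 j (Finset.mem_Ico.2 ⟨by omega, hj.2⟩)
    rw [sum_split (by omega) hJ3 hJ2 (fun i => g i z)]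
    rw [Finset.sum_eq_sum_Ico_succ_bot hJ1.1]
    have h1 := hok J (hJ1.2 J (Finset.mem_Ico.2 ⟨le_rfl, hJ1.1⟩))
    have h2 := tele hg J K z y
    have h3 : |ep J z y * g J z| ≤ 1 / 4 := by
      rw [abs_mul]
      calc |ep J z y| * |g J z| ≤ 1 * (1 / 4) :=
            mul_le_mul (abs_ep_le _ _ _) (hg1 J z) (abs_nonneg _) zero_le_one
        _ = 1 / 4 := by ring
    have h4 := abs_add_le (ep J z y * g J z) (∑ i ∈ Finset.Ico (J + 1) K, ep i z y * g i z)
    have h5 := abs_sub_abs_le_abs_sub (∑ i ∈ Finset.Ico (J + 1) K, ep i z y * g i z)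
      (∑ i ∈ Finset.Ico (J + 1) K, ep i z y * g i (cor J z))
    linarith
  · push Not at hex
    have : ∑ i ∈ Finset.range K, w K t i z y * g i z = 0 := by
      refine Finset.sum_eq_zero fun i hi => ?_
      unfold w
      rw [if_neg (hex i (Finset.mem_range.1 hi)), zero_mul]
    rw [this, abs_zero]
    linarith

/-- the coefficients depend on the cell only -/
theorem w_congr {K k : ℕ} {t : ℝ} {z z' : ℕ × ℕ} {y : ℕ × ℕ → ℝ}
    (h1 : z'.1 / 2 ^ (k + 1) = z.1 / 2 ^ (k + 1)) (h2 : z'.2 / 2 ^ (k + 1) = z.2 / 2 ^ (k + 1)) :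
    w K t k z' y = w K t k z y := by
  have hup : ∀ i, k ≤ i → ∀ x x' : ℕ, x' / 2 ^ (k + 1) = x / 2 ^ (k + 1) →
      x' / 2 ^ (i + 1) = x / 2 ^ (i + 1) := by
    intro i hi x x' h
    obtain ⟨m, rfl⟩ : ∃ m, i = k + m := ⟨i - k, by omega⟩
    have : 2 ^ (k + m + 1) = 2 ^ (k + 1) * 2 ^ m := by rw [← pow_add]; congr 1; ring
    rw [this, ← Nat.div_div_eq_div_mul, ← Nat.div_div_eq_div_mul, h]
  have hcor : ∀ i, k ≤ i → cor i z' = cor i z := by
    intro i hi
    unfold cor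
    rw [hup i hi _ _ h1, hup i hi _ _ h2]
  have hep : ∀ i, k ≤ i → ep i z' y = ep i z y := by
    intro i hi
    unfold ep Zk Lh Rh
    rw [hcor i hi]
  have hok : ∀ j, k ≤ j → (Ok K t j z' y ↔ Ok K t j z y) := by
    intro j hj
    unfold Ok
    rw [hcor j hj]
    have : ∀ g : ℕ → ℝ, ∑ i ∈ Finset.Ico (j + 1) K, ep i z' y * g i =
        ∑ i ∈ Finset.Ico (j + 1) K, ep i z y * g i := by
      intro g
      refine Finset.sum_congr rfl fun i hi => ?_
      rw [Finset.mem_Ico] at hi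
      rw [hep i (by omega)]
    rw [this, this]
  have hal : Al K t k z' y ↔ Al K t k z y := by
    unfold Al
    refine forall_congr' fun j => forall_congr' fun hj => ?_
    rw [Finset.mem_Ico] at hj
    exact hok j hj.1
  unfold w
  rw [hep k le_rfl]
  by_cases h : Al K t k z y
  · rw [if_pos h, if_pos (hal.2 h)]
  · rw [if_neg h, if_neg fun h' => h (hal.1 h')]

theorem succ_mod {x s : ℕ} (h : x % s + 1 < s) : (x + 1) / s = x / s ∧ (x + 1) % s = x % s + 1 := by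
  have h1 := Nat.div_add_mod x s
  exact (Nat.div_mod_unique (by omega)).2 ⟨by omega, h⟩

theorem succ_mod' {x s : ℕ} (hs : 0 < s) (h : ¬ x % s + 1 < s) : (x + 1) % s = 0 ∧ x % s + 1 = s := by
  have h2 := Nat.mod_lt x hs
  have h3 : x % s + 1 = s := by omega
  refine ⟨?_, h3⟩
  have h1 := Nat.div_add_mod x s
  have : x + 1 = s * (x / s + 1) := by rw [mul_add, mul_one]; omega
  rw [this, Nat.mul_mod_right]

theorem psi_zero_x (s y : ℝ) : psi s 0 y = 0 := by unfold psi; simp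
theorem psi_zero_y (s x : ℝ) : psi s x 0 = 0 := by unfold psi; simp
theorem psi_top_x (s y : ℝ) : psi s s y = 0 := by unfold psi; simp
theorem psi_top_y (s x : ℝ) : psi s x s = 0 := by unfold psi; simp

theorem term_x {K k : ℕ} {t : ℝ} {z : ℕ × ℕ} {y : ℕ × ℕ → ℝ} :
    w K t k (z.1 + 1, z.2) y * Psi k (z.1 + 1, z.2) - w K t k z y * Psi k z =
      w K t k z y * dx k z := by
  by_cases h : z.1 % 2 ^ (k + 1) + 1 < 2 ^ (k + 1)
  · obtain ⟨h1, h2⟩ := succ_mod h
    rw [w_congr (z := z) (z' := (z.1 + 1, z.2)) h1 rfl]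
    unfold dx
    have : Psi k (z.1 + 1, z.2) = psi (2 ^ (k + 1)) (((z.1 % 2 ^ (k + 1) : ℕ) : ℝ) + 1)
        ((z.2 % 2 ^ (k + 1) : ℕ) : ℝ) := by
      unfold Psi
      simp only
      rw [h2]
      push_cast
      rfl
    rw [this]
    ring
  · obtain ⟨h1, h2⟩ := succ_mod' (by positivity) h
    have e1 : Psi k (z.1 + 1, z.2) = 0 := by
      unfold Psi
      simp only
      rw [h1, Nat.cast_zero, psi_zero_x]
    have e2 : dx k z = - Psi k z := by
      unfold dx
      have : ((z.1 % 2 ^ (k + 1) : ℕ) : ℝ) + 1 = 2 ^ (k + 1) := by exact_mod_cast h2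
      rw [this, psi_top_x]
      ring
    rw [e1, e2]
    ring

theorem term_y {K k : ℕ} {t : ℝ} {z : ℕ × ℕ} {y : ℕ × ℕ → ℝ} :
    w K t k (z.1, z.2 + 1) y * Psi k (z.1, z.2 + 1) - w K t k z y * Psi k z =
      w K t k z y * dy k z := by
  by_cases h : z.2 % 2 ^ (k + 1) + 1 < 2 ^ (k + 1)
  · obtain ⟨h1, h2⟩ := succ_mod h
    rw [w_congr (z := z) (z' := (z.1, z.2 + 1)) rfl h1]
    unfold dy
    have : Psi k (z.1, z.2 + 1) = psi (2 ^ (k + 1)) ((z.1 % 2 ^ (k + 1) : ℕ) : ℝ)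
        (((z.2 % 2 ^ (k + 1) : ℕ) : ℝ) + 1) := by
      unfold Psi
      simp only
      rw [h2]
      push_cast
      rfl
    rw [this]
    ring
  · obtain ⟨h1, h2⟩ := succ_mod' (by positivity) h
    have e1 : Psi k (z.1, z.2 + 1) = 0 := by
      unfold Psi
      simp only
      rw [h1, Nat.cast_zero, psi_zero_y]
    have e2 : dy k z = - Psi k z := by
      unfold dy
      have : ((z.2 % 2 ^ (k + 1) : ℕ) : ℝ) + 1 = 2 ^ (k + 1) := by exact_mod_cast h2
      rw [this, psi_top_y]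
      ring
    rw [e1, e2]
    ring

/-- at the last line of the box all local coordinates are maximal -/
theorem last_line {x K k : ℕ} (hx : x < 2 ^ K) (hx' : ¬ x + 1 < 2 ^ K) (hk : k < K) :
    x % 2 ^ (k + 1) + 1 = 2 ^ (k + 1) := by
  have h1 : x + 1 = 2 ^ K := by omega
  obtain ⟨m, hm⟩ : ∃ m, K = k + 1 + m := ⟨K - (k + 1), by omega⟩
  by_contra h
  have h2 := Nat.mod_lt x (show 0 < 2 ^ (k + 1) by positivity)
  have h3 : x % 2 ^ (k + 1) + 1 < 2 ^ (k + 1) := by omega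
  have h4 := (succ_mod h3).2
  have h5 : 2 ^ K = 2 ^ (k + 1) * 2 ^ m := by rw [← pow_add, hm]
  rw [h1, h5, Nat.mul_mod_right] at h4
  omega

theorem phi_dx {K : ℕ} {t : ℝ} {z : ℕ × ℕ} {y : ℕ × ℕ → ℝ} (hz : z ∈ box (2 ^ K)) :
    phi K t y (z.1 + 1, z.2) - phi K t y z = ∑ k ∈ Finset.range K, w K t k z y * dx k z := by
  by_cases hz' : (z.1 + 1, z.2) ∈ box (2 ^ K)
  · unfold phi
    rw [if_pos hz, if_pos hz', ← Finset.sum_sub_distrib]
    exact Finset.sum_congr rfl fun k _ => term_x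
  · unfold phi
    rw [if_pos hz, if_neg hz', zero_sub, ← Finset.sum_neg_distrib]
    refine Finset.sum_congr rfl fun k hk => ?_
    unfold box at hz hz'
    simp only [Finset.mem_product, Finset.mem_range] at hz hz'
    have h1 := last_line hz.1 (fun h => hz' ⟨h, hz.2⟩) (Finset.mem_range.1 hk)
    have e2 : dx k z = - Psi k z := by
      unfold dx
      have : ((z.1 % 2 ^ (k + 1) : ℕ) : ℝ) + 1 = 2 ^ (k + 1) := by exact_mod_cast h1
      rw [this, psi_top_x]
      ring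
    rw [e2]
    ring

theorem phi_dy {K : ℕ} {t : ℝ} {z : ℕ × ℕ} {y : ℕ × ℕ → ℝ} (hz : z ∈ box (2 ^ K)) :
    phi K t y (z.1, z.2 + 1) - phi K t y z = ∑ k ∈ Finset.range K, w K t k z y * dy k z := by
  by_cases hz' : (z.1, z.2 + 1) ∈ box (2 ^ K)
  · unfold phi
    rw [if_pos hz, if_pos hz', ← Finset.sum_sub_distrib]
    exact Finset.sum_congr rfl fun k _ => term_y
  · unfold phi
    rw [if_pos hz, if_neg hz', zero_sub, ← Finset.sum_neg_distrib]
    refine Finset.sum_congr rfl fun k hk => ?_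
    unfold box at hz hz'
    simp only [Finset.mem_product, Finset.mem_range] at hz hz'
    have h1 := last_line hz.2 (fun h => hz' ⟨hz.1, h⟩) (Finset.mem_range.1 hk)
    have e2 : dy k z = - Psi k z := by
      unfold dy
      have : ((z.2 % 2 ^ (k + 1) : ℕ) : ℝ) + 1 = 2 ^ (k + 1) := by exact_mod_cast h1
      rw [this, psi_top_y]
      ring
    rw [e2]
    ring

theorem t_D (hC : S_C) : S_D := by
  intro K t y ht
  refine ⟨?_, ?_, ?_⟩
  · intro z
    by_cases hz : z ∈ box (2 ^ K)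
    · rw [phi_dx hz]
      exact grad_le hC.2.2.1 hC.1 ht fun j hj => hj.1
    · have hz' : (z.1 + 1, z.2) ∉ box (2 ^ K) := by
        unfold box at hz ⊢
        simp only [Finset.mem_product, Finset.mem_range] at hz ⊢
        omega
      unfold phi
      rw [if_neg hz, if_neg hz', sub_zero, abs_zero]
      linarith
  · intro z
    by_cases hz : z ∈ box (2 ^ K)
    · rw [phi_dy hz]
      exact grad_le hC.2.2.2 hC.2.1 ht fun j hj => hj.2
    · have hz' : (z.1, z.2 + 1) ∉ box (2 ^ K) := by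
        unfold box at hz ⊢
        simp only [Finset.mem_product, Finset.mem_range] at hz ⊢
        omega
      unfold phi
      rw [if_neg hz, if_neg hz', sub_zero, abs_zero]
      linarith
  · intro z hz
    unfold phi
    split_ifs
    · refine Finset.sum_eq_zero fun k _ => ?_
      have : Psi k z = 0 := by
        unfold Psi
        rcases hz with h | h
        · rw [h, Nat.zero_mod, Nat.cast_zero, psi_zero_x]
        · rw [h, Nat.zero_mod, Nat.cast_zero, psi_zero_y]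
      rw [this, mul_zero]
    · rfl

end Q294.Pm
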