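import Pool.Agent.Q294.Pm.Stm

/-!
Project PM: job G.
-/

set_option autoImplicit false

open MeasureTheory ProbabilityTheory
open scoped ENNReal NNReal

namespace Q294.Pm

universe u

theorem meas_sign : Measurable Real.sign := by
  unfold Real.sign
  refine Measurable.ite measurableSet_Iio measurable_const ?_
  exact Measurable.ite measurableSet_Ioi measurable_const measurable_const

theorem meas_Zk (k : ℕ) (z : ℕ × ℕ) : Measurable (Zk k z) := by
  unfold Zk
  refine Measurable.sub ?_ ?_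
  · exact Finset.measurable_sum _ fun b _ => measurable_pi_apply b
  · exact Finset.measurable_sum _ fun b _ => measurable_pi_apply b

theorem meas_ep (k : ℕ) (z : ℕ × ℕ) : Measurable (ep k z) := meas_sign.comp (meas_Zk k z)

theorem meas_Ok (K : ℕ) (t : ℝ) (j : ℕ) (z : ℕ × ℕ) : MeasurableSet {y | Ok K t j z y} := by
  unfold Ok
  have h1 : Measurable fun y : ℕ × ℕ → ℝ =>
      |∑ i ∈ Finset.Ico (j + 1) K, ep i z y * dx i (cor j z)| := by
    refine continuous_abs.measurable.comp ?_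
    exact Finset.measurable_sum _ fun i _ => (meas_ep i z).mul_const _
  have h2 : Measurable fun y : ℕ × ℕ → ℝ =>
      |∑ i ∈ Finset.Ico (j + 1) K, ep i z y * dy i (cor j z)| := by
    refine continuous_abs.measurable.comp ?_
    exact Finset.measurable_sum _ fun i _ => (meas_ep i z).mul_const _
  exact (measurableSet_le h1 measurable_const).inter (measurableSet_le h2 measurable_const)

theorem meas_Al (K : ℕ) (t : ℝ) (k : ℕ) (z : ℕ × ℕ) : MeasurableSet {y | Al K t k z y} := by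
  have : {y | Al K t k z y} = ⋂ j ∈ Finset.Ico k K, {y | Ok K t j z y} := by
    ext y
    simp only [Set.mem_iInter]
    exact Iff.rfl
  rw [this]
  exact Finset.measurableSet_biInter _ fun j _ => meas_Ok K t j z

theorem meas_w (K : ℕ) (t : ℝ) (k : ℕ) (z : ℕ × ℕ) : Measurable (w K t k z) := by
  unfold w
  exact Measurable.ite (meas_Al K t k z) (meas_ep k z) measurable_const

theorem abs_sign_le (r : ℝ) : |Real.sign r| ≤ 1 := by
  unfold Real.sign
  split_ifs <;> norm_num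

theorem abs_w_le (K : ℕ) (t : ℝ) (k : ℕ) (z : ℕ × ℕ) (y : ℕ × ℕ → ℝ) : |w K t k z y| ≤ 1 := by
  unfold w
  split_ifs
  · exact abs_sign_le _
  · norm_num

open scoped Classical in
theorem w_mul_Zk (K : ℕ) (t : ℝ) (k : ℕ) (z : ℕ × ℕ) (y : ℕ × ℕ → ℝ) :
    w K t k z y * Zk k z y = if Al K t k z y then |Zk k z y| else 0 := by
  unfold w ep
  split_ifs with h
  · rcases lt_trichotomy (Zk k z y) 0 with h0 | h0 | h0
    · rw [Real.sign_of_neg h0, abs_of_neg h0]
      ring
    · rw [h0]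
      simp
    · rw [Real.sign_of_pos h0, abs_of_pos h0]
      ring
  · ring

section

variable {Ω : Type u} [MeasurableSpace Ω] {P : Measure Ω} [IsProbabilityMeasure P]
  {Y : ℕ × ℕ → Ω → ℝ} {c σ : ℝ} {K : ℕ}

theorem meas_Y (hG : Good P Y c σ K) : Measurable fun ω => fun b => Y b ω :=
  measurable_pi_lambda _ hG.meas

theorem exch_int (hG : Good P Y c σ K) {π : Equiv.Perm (ℕ × ℕ)}
    (hπ : ∀ b, b ∉ box (2 ^ K) → π b = b) {H : (ℕ × ℕ → ℝ) → ℝ} (hH : Measurable H) :
    ∫ ω, H ((fun b => Y b ω) ∘ π) ∂P = ∫ ω, H (fun b => Y b ω) ∂P :=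
  ((hG.exch π hπ).comp hH).integral_eq

theorem int_w (hG : Good P Y c σ K) (t : ℝ) (k : ℕ) (z : ℕ × ℕ) :
    AEStronglyMeasurable (fun ω => w K t k z fun b => Y b ω) P :=
  ((meas_w K t k z).comp (meas_Y hG)).aestronglyMeasurable

theorem int_wY (hG : Good P Y c σ K) (t : ℝ) (k : ℕ) (z b : ℕ × ℕ) :
    Integrable (fun ω => w K t k z (fun b => Y b ω) * Y b ω) P := by
  refine ((hG.memLp b).integrable (by norm_num)).bdd_mul (c := 1) (int_w hG t k z) ?_
  exact Filter.Eventually.of_forall fun ω => abs_w_le _ _ _ _ _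

theorem int_ww (hG : Good P Y c σ K) (t : ℝ) (k i : ℕ) (z : ℕ × ℕ) :
    Integrable (fun ω => w K t k z (fun b => Y b ω) * w K t i z (fun b => Y b ω)) P := by
  have h1 : Integrable (fun ω => w K t i z (fun b => Y b ω)) P := by
    refine Integrable.mono' (integrable_const (1 : ℝ)) (int_w hG t i z) ?_
    exact Filter.Eventually.of_forall fun ω => abs_w_le _ _ _ _ _
  refine h1.bdd_mul (c := 1) (int_w hG t k z) ?_
  exact Filter.Eventually.of_forall fun ω => abs_w_le _ _ _ _ _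

theorem orth (hF : S_F) (hG : Good P Y c σ K) (t : ℝ) {z : ℕ × ℕ} (hz : z ∈ box (2 ^ K)) {k i : ℕ}
    (hki : k < i) (hi : i < K) :
    ∫ ω, w K t i z (fun b => Y b ω) * w K t k z (fun b => Y b ω) ∂P = 0 := by
  obtain ⟨f1, f2, ⟨π, p1, p2⟩, f4⟩ := hF K t k z
  have hsub := f4 hz (by omega)
  have hπ : ∀ b, b ∉ box (2 ^ K) → π b = b := fun b hb => p1 b fun h => hb (hsub h)
  have h := exch_int hG hπ (H := fun y => w K t i z y * w K t k z y)
    ((meas_w K t i z).mul (meas_w K t k z))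
  have h2 : ∀ ω, w K t i z ((fun b => Y b ω) ∘ π) * w K t k z ((fun b => Y b ω) ∘ π) =
      - (w K t i z (fun b => Y b ω) * w K t k z (fun b => Y b ω)) := by
    intro ω
    rw [(f1 π p1 _).1 i hki, (p2 _).2.1]
    ring
  simp only [h2] at h
  rw [integral_neg] at h
  linarith

theorem cross (hF : S_F) (hG : Good P Y c σ K) (t : ℝ) {z : ℕ × ℕ} (hz : z ∈ box (2 ^ K)) {k i : ℕ}
    (hk : k < K) (hi : i < K) (hne : i ≠ k) :
    ∫ ω, w K t i z (fun b => Y b ω) * w K t k z (fun b => Y b ω) ∂P = 0 := by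
  rcases lt_or_gt_of_ne hne with h | h
  · rw [← orth hF hG t hz h hk]
    refine integral_congr_ae (Filter.Eventually.of_forall fun ω => ?_)
    simp only
    ring
  · exact orth hF hG t hz h hi

theorem square (hF : S_F) (hG : Good P Y c σ K) (t : ℝ) {z : ℕ × ℕ} (hz : z ∈ box (2 ^ K))
    (a : ℕ → ℝ) :
    ∫ ω, (∑ i ∈ Finset.range K, w K t i z (fun b => Y b ω) * a i) ^ 2 ∂P ≤
      ∑ i ∈ Finset.range K, a i ^ 2 := by
  have h1 : ∀ ω, (∑ i ∈ Finset.range K, w K t i z (fun b => Y b ω) * a i) ^ 2 =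
      ∑ i ∈ Finset.range K, ∑ j ∈ Finset.range K, a i * a j *
        (w K t i z (fun b => Y b ω) * w K t j z (fun b => Y b ω)) := by
    intro ω
    rw [pow_two, Finset.sum_mul_sum]
    refine Finset.sum_congr rfl fun i _ => Finset.sum_congr rfl fun j _ => ?_
    ring
  simp only [h1]
  have hint : ∀ i j, Integrable (fun ω => a i * a j *
      (w K t i z (fun b => Y b ω) * w K t j z (fun b => Y b ω))) P :=
    fun i j => (int_ww hG t i j z).const_mul _
  rw [integral_finsetSum _ fun i _ => integrable_finsetSum _ fun j _ => hint i j]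
  refine Finset.sum_le_sum fun i hi => ?_
  rw [integral_finsetSum _ fun j _ => hint i j]
  rw [Finset.sum_eq_single i]
  · rw [integral_const_mul]
    have h2 : ∫ ω, w K t i z (fun b => Y b ω) * w K t i z (fun b => Y b ω) ∂P ≤ 1 := by
      have : ∫ ω, w K t i z (fun b => Y b ω) * w K t i z (fun b => Y b ω) ∂P ≤ ∫ _, (1 : ℝ) ∂P := by
        refine integral_mono (int_ww hG t i i z) (integrable_const _) fun ω => ?_
        have := abs_w_le K t i z (fun b => Y b ω)
        have h3 := abs_mul_abs_self (w K t i z (fun b => Y b ω))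
        simp only
        rw [← h3]
        nlinarith [abs_nonneg (w K t i z (fun b => Y b ω))]
      simpa using this
    nlinarith [mul_self_nonneg (a i)]
  · intro j hj hne
    rw [integral_const_mul, cross hF hG t hz (Finset.mem_range.1 hj) (Finset.mem_range.1 hi)
      (Ne.symm hne), mul_zero]
  · intro h
    exact absurd hi h

theorem card_Lh (k : ℕ) (z : ℕ × ℕ) : (Lh k z).card = 2 ^ k * 2 ^ (k + 1) := by
  unfold Lh
  rw [Finset.card_product, Nat.card_Ico, Nat.card_Ico, Nat.add_sub_cancel_left,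
    Nat.add_sub_cancel_left]

theorem card_Rh (k : ℕ) (z : ℕ × ℕ) : (Rh k z).card = 2 ^ k * 2 ^ (k + 1) := by
  unfold Rh
  have h : 2 ^ (k + 1) = 2 ^ k + 2 ^ k := by ring
  rw [Finset.card_product, Nat.card_Ico, Nat.card_Ico, Nat.add_sub_cancel_left,
    Nat.add_sub_add_left, h, Nat.add_sub_cancel_left]

theorem mem_halves (k : ℕ) (z : ℕ × ℕ) : z ∈ Lh k z ∨ z ∈ Rh k z := by
  unfold Lh Rh cor
  simp only [Finset.mem_product, Finset.mem_Ico]
  have h1 := Nat.div_add_mod z.1 (2 ^ (k + 1))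
  have h2 := Nat.div_add_mod z.2 (2 ^ (k + 1))
  have h3 := Nat.mod_lt z.1 (show 0 < 2 ^ (k + 1) by positivity)
  have h4 := Nat.mod_lt z.2 (show 0 < 2 ^ (k + 1) by positivity)
  rw [Nat.mul_comm] at h1 h2
  have h5 : 2 ^ (k + 1) = 2 ^ k + 2 ^ k := by ring
  by_cases h : z.1 % 2 ^ (k + 1) < 2 ^ k
  · left
    refine ⟨⟨?_, ?_⟩, ?_, ?_⟩ <;> omega
  · right
    refine ⟨⟨?_, ?_⟩, ?_, ?_⟩ <;> omega

/-- equal expectations in one half -/
theorem half_eq (hF : S_F) (hG : Good P Y c σ K) (t : ℝ) {z : ℕ × ℕ} (hz : z ∈ box (2 ^ K)) {k : ℕ}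
    (hk : k < K) {S : Finset (ℕ × ℕ)} (hS : S = Lh k z ∨ S = Rh k z) (hzS : z ∈ S) :
    ∫ ω, w K t k z (fun b => Y b ω) * ∑ b ∈ S, Y b ω ∂P =
      (2 ^ k * 2 ^ (k + 1)) * ∫ ω, w K t k z (fun b => Y b ω) * Y z ω ∂P := by
  classical
  obtain ⟨f1, f2, _, f4⟩ := hF K t k z
  have hsub := f4 hz hk
  have hS' : S ⊆ box (2 ^ K) := by
    rcases hS with h | h
    · rw [h]
      exact Finset.subset_union_left.trans hsub
    · rw [h]
      exact Finset.subset_union_right.trans hsub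
  have h1 : ∀ b ∈ S, ∫ ω, w K t k z (fun b => Y b ω) * Y b ω ∂P =
      ∫ ω, w K t k z (fun b => Y b ω) * Y z ω ∂P := by
    intro b hb
    have hfix : ∀ x, x ∉ S → Equiv.swap z b x = x := by
      intro x hx
      refine Equiv.swap_apply_of_ne_of_ne ?_ ?_
      · rintro rfl
        exact hx hzS
      · rintro rfl
        exact hx hb
    have h2 := f2 (Equiv.swap z b) (by
      rcases hS with h | h
      · left
        rw [← h]
        exact hfix
      · right
        rw [← h]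
        exact hfix)
    have h3 := exch_int hG (π := Equiv.swap z b) (fun x hx => hfix x fun h => hx (hS' h))
      (H := fun y => w K t k z y * y z) ((meas_w K t k z).mul (measurable_pi_apply z))
    rw [← h3]
    refine integral_congr_ae (Filter.Eventually.of_forall fun ω => ?_)
    simp only
    rw [h2]
    simp
  have h4 : ∀ ω, w K t k z (fun b => Y b ω) * ∑ b ∈ S, Y b ω =
      ∑ b ∈ S, w K t k z (fun b => Y b ω) * Y b ω := fun ω => Finset.mul_sum _ _ _
  simp only [h4]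
  rw [integral_finsetSum _ fun b _ => int_wY hG t k z b, Finset.sum_congr rfl h1, Finset.sum_const,
    nsmul_eq_mul]
  have h5 : S.card = 2 ^ k * 2 ^ (k + 1) := by
    rcases hS with h | h
    · rw [h, card_Lh]
    · rw [h, card_Rh]
  rw [h5]
  push_cast
  ring

theorem gain (hF : S_F) (hG : Good P Y c σ K) (t : ℝ) {z : ℕ × ℕ} (hz : z ∈ box (2 ^ K)) {k : ℕ}
    (hk : k < K) : ∫ ω, w K t k z (fun b => Y b ω) * Y z ω ∂P =
    (if z ∈ Lh k z then 1 else -1) / 4 ^ (k + 1) *
      ∫ ω, Set.indicator {ω | Al K t k z fun b => Y b ω} (fun ω => |Zk k z fun b => Y b ω|) ω ∂P := by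
  obtain ⟨f1, f2, ⟨π, p1, p2⟩, f4⟩ := hF K t k z
  have hsub := f4 hz hk
  have hint : ∀ S : Finset (ℕ × ℕ), Integrable (fun ω => w K t k z (fun b => Y b ω) *
      ∑ b ∈ S, Y b ω) P := by
    intro S
    have h4 : ∀ ω, w K t k z (fun b => Y b ω) * ∑ b ∈ S, Y b ω =
      ∑ b ∈ S, w K t k z (fun b => Y b ω) * Y b ω := fun ω => Finset.mul_sum _ _ _
    simp only [h4]
    exact integrable_finsetSum _ fun b _ => int_wY hG t k z b
  -- the two halves
  have hLR : ∫ ω, w K t k z (fun b => Y b ω) * ∑ b ∈ Lh k z, Y b ω ∂P =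
      - ∫ ω, w K t k z (fun b => Y b ω) * ∑ b ∈ Rh k z, Y b ω ∂P := by
    have h3 := exch_int hG (π := π) (fun x hx => p1 x fun h => hx (hsub h))
      (H := fun y => w K t k z y * ∑ b ∈ Lh k z, y b)
      ((meas_w K t k z).mul (Finset.measurable_sum _ fun b _ => measurable_pi_apply b))
    rw [← h3, ← integral_neg]
    refine integral_congr_ae (Filter.Eventually.of_forall fun ω => ?_)
    simp only
    obtain ⟨_, q2, q3⟩ := p2 fun b => Y b ω
    rw [q2, q3]
    ring
  have hZ : ∫ ω, Set.indicator {ω | Al K t k z fun b => Y b ω}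
      (fun ω => |Zk k z fun b => Y b ω|) ω ∂P =
      ∫ ω, w K t k z (fun b => Y b ω) * ∑ b ∈ Lh k z, Y b ω ∂P -
        ∫ ω, w K t k z (fun b => Y b ω) * ∑ b ∈ Rh k z, Y b ω ∂P := by
    rw [← integral_sub (hint _) (hint _)]
    refine integral_congr_ae (Filter.Eventually.of_forall fun ω => ?_)
    simp only
    rw [← mul_sub]
    have h5 := w_mul_Zk K t k z fun b => Y b ω
    unfold Zk at h5 ⊢
    rw [h5]
    by_cases h6 : Al K t k z fun b => Y b ω
    · rw [if_pos h6, Set.indicator_of_mem (by exact h6)]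
    · rw [if_neg h6, Set.indicator_of_notMem (by exact h6)]
  have h4 : (4 : ℝ) ^ (k + 1) = 2 * (2 ^ k * 2 ^ (k + 1)) := by
    have : (4 : ℝ) = 2 ^ 2 := by norm_num
    rw [this, ← pow_mul]
    ring
  have h0 : (0 : ℝ) < 2 ^ k * 2 ^ (k + 1) := by positivity
  rw [h4]
  by_cases hzL : z ∈ Lh k z
  · rw [if_pos hzL]
    have h5 := half_eq hF hG t hz hk (S := Lh k z) (Or.inl rfl) hzL
    rw [hZ]
    obtain ⟨a, ha⟩ : ∃ a, a = ∫ ω, w K t k z (fun b => Y b ω) * ∑ b ∈ Lh k z, Y b ω ∂P := ⟨_, rfl⟩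
    obtain ⟨b, hb⟩ : ∃ b, b = ∫ ω, w K t k z (fun b => Y b ω) * ∑ b ∈ Rh k z, Y b ω ∂P := ⟨_, rfl⟩
    rw [← ha, ← hb] at hLR ⊢
    rw [← ha] at h5
    have h6 : b = -a := by linarith
    rw [h6, h5]
    field_simp
    ring
  · rw [if_neg hzL]
    have hzR : z ∈ Rh k z := (mem_halves k z).resolve_left hzL
    have h5 := half_eq hF hG t hz hk (S := Rh k z) (Or.inr rfl) hzR
    rw [hZ]
    obtain ⟨a, ha⟩ : ∃ a, a = ∫ ω, w K t k z (fun b => Y b ω) * ∑ b ∈ Lh k z, Y b ω ∂P := ⟨_, rfl⟩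
    obtain ⟨b, hb⟩ : ∃ b, b = ∫ ω, w K t k z (fun b => Y b ω) * ∑ b ∈ Rh k z, Y b ω ∂P := ⟨_, rfl⟩
    rw [← ha, ← hb] at hLR ⊢
    rw [← hb] at h5
    rw [hLR, h5]
    field_simp
    ring

end

theorem t_G (hF : S_F) : S_G.{u} := by
  intro Ω _ P _ Y c σ K hG t z hz
  refine ⟨fun k => (meas_w K t k z).comp (meas_Y hG), fun k => ?_, fun a => square hF hG t hz a,
    fun k hk => gain hF hG t hz hk⟩
  exact (meas_Al K t k z).preimage (meas_Y hG)

end Q294.Pm
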