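import Pool.Agent.Q294.Pm.G

/-!
Project PM: job H.
-/

set_option autoImplicit false

open MeasureTheory ProbabilityTheory
open scoped ENNReal NNReal

namespace Q294.Pm

universe u

section

variable {Ω : Type u} [MeasurableSpace Ω] {P : Measure Ω} [IsProbabilityMeasure P]
  {Y : ℕ × ℕ → Ω → ℝ} {c σ : ℝ} {K : ℕ}

theorem int_Z (hG : Good P Y c σ K) (k : ℕ) (z : ℕ × ℕ) :
    MemLp (fun ω => Zk k z fun b => Y b ω) 2 P := by
  unfold Zk
  exact (memLp_finsetSum _ fun b _ => hG.memLp b).sub (memLp_finsetSum _ fun b _ => hG.memLp b)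

theorem int_sq (hG : Good P Y c σ K) (t : ℝ) (z : ℕ × ℕ) (a : ℕ → ℝ) :
    Integrable (fun ω => (∑ i ∈ Finset.range K, w K t i z (fun b => Y b ω) * a i) ^ 2) P := by
  have h1 : ∀ ω, (∑ i ∈ Finset.range K, w K t i z (fun b => Y b ω) * a i) ^ 2 =
      ∑ i ∈ Finset.range K, ∑ j ∈ Finset.range K, a i * a j *
        (w K t i z (fun b => Y b ω) * w K t j z (fun b => Y b ω)) := by
    intro ω
    rw [pow_two, Finset.sum_mul_sum]
    refine Finset.sum_congr rfl fun i _ => Finset.sum_congr rfl fun j _ => ?_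
    ring
  simp only [h1]
  exact integrable_finsetSum _ fun i _ => integrable_finsetSum _ fun j _ =>
    (int_ww hG t i j z).const_mul _

theorem alive_low (hC : S_C) (hE : S_E) (hGG : S_G.{u}) (hc : 0 < c) (hσ : 0 < σ) (hK : 2 ≤ K)
    (hG : Good P Y c σ K) {z : ℕ × ℕ} (hz : z ∈ box (2 ^ K)) {k : ℕ} (hk : k < K) :
    c / 2 * 2 ^ (k + 1) ≤ ∫ ω, Set.indicator {ω | Al K (σ / c * √K + 3) k z fun b => Y b ω}
      (fun ω => |Zk k z fun b => Y b ω|) ω ∂P := by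
  obtain ⟨t, ht⟩ : ∃ t, t = σ / c * √(K : ℝ) + 3 := ⟨_, rfl⟩
  rw [← ht]
  obtain ⟨g1, g2, g3, g4⟩ := hGG Ω P Y c σ K hG t z hz
  obtain ⟨s, hs⟩ : ∃ s : ℝ, s = 2 ^ (k + 1) := ⟨_, rfl⟩
  have hs0 : 0 < s := by rw [hs]; positivity
  have hK0 : (0 : ℝ) < K := by exact_mod_cast (by omega : 0 < K)
  obtain ⟨θ, hθ⟩ : ∃ θ, θ = c / (2 * σ ^ 2 * s) := ⟨_, rfl⟩
  have hθ0 : 0 < θ := by rw [hθ]; positivity
  obtain ⟨A, hA⟩ : ∃ A, A = σ / c := ⟨_, rfl⟩
  have hA0 : 0 < A := by rw [hA]; positivity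
  obtain ⟨Wx, hWx⟩ : ∃ Wx : Ω → ℝ, Wx = fun ω =>
      ∑ i ∈ Finset.range K, w K t i z (fun b => Y b ω) * dx i z := ⟨_, rfl⟩
  obtain ⟨Wy, hWy⟩ : ∃ Wy : Ω → ℝ, Wy = fun ω =>
      ∑ i ∈ Finset.range K, w K t i z (fun b => Y b ω) * dy i z := ⟨_, rfl⟩
  have hx2 : ∫ ω, Wx ω ^ 2 ∂P ≤ K / 16 := by
    rw [hWx]
    refine (g3 fun i => dx i z).trans ?_
    have : ∀ i ∈ Finset.range K, dx i z ^ 2 ≤ 1 / 16 := by
      intro i _
      have h1 := hC.1 i z
      have h2 := abs_le.1 h1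
      nlinarith [h2.1, h2.2]
    refine (Finset.sum_le_sum this).trans ?_
    rw [Finset.sum_const, Finset.card_range, nsmul_eq_mul]
    linarith
  have hy2 : ∫ ω, Wy ω ^ 2 ∂P ≤ K / 16 := by
    rw [hWy]
    refine (g3 fun i => dy i z).trans ?_
    have : ∀ i ∈ Finset.range K, dy i z ^ 2 ≤ 1 / 16 := by
      intro i _
      have h1 := hC.2.1 i z
      have h2 := abs_le.1 h1
      nlinarith [h2.1, h2.2]
    refine (Finset.sum_le_sum this).trans ?_
    rw [Finset.sum_const, Finset.card_range, nsmul_eq_mul]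
    linarith
  have hxi : Integrable (fun ω => Wx ω ^ 2) P := by rw [hWx]; exact int_sq hG t z _
  have hyi : Integrable (fun ω => Wy ω ^ 2) P := by rw [hWy]; exact int_sq hG t z _
  have hZ := int_Z hG k z
  have hZ1 : Integrable (fun ω => |Zk k z fun b => Y b ω|) P := (hZ.integrable (by norm_num)).abs
  have hZ2 : Integrable (fun ω => (Zk k z fun b => Y b ω) ^ 2) P := hZ.integrable_sq
  have hpt : ∀ ω, |Zk k z fun b => Y b ω| - (θ / 2 * (Zk k z fun b => Y b ω) ^ 2 +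
      1 / (2 * θ * (A ^ 2 * K)) * (Wx ω ^ 2 + Wy ω ^ 2)) ≤
      Set.indicator {ω | Al K t k z fun b => Y b ω} (fun ω => |Zk k z fun b => Y b ω|) ω := by
    intro ω
    by_cases h : Al K t k z fun b => Y b ω
    · rw [Set.indicator_of_mem (by exact h)]
      have : 0 ≤ θ / 2 * (Zk k z fun b => Y b ω) ^ 2 +
        1 / (2 * θ * (A ^ 2 * K)) * (Wx ω ^ 2 + Wy ω ^ 2) := by positivity
      linarith
    · rw [Set.indicator_of_notMem (by exact h)]
      have h1 := hE K t k z (fun b => Y b ω) hk h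
      have h2 : A ^ 2 * K ≤ Wx ω ^ 2 + Wy ω ^ 2 := by
        have e1 : t - 3 = A * √(K : ℝ) := by rw [ht, hA]; ring
        have e2 : (A * √(K : ℝ)) ^ 2 = A ^ 2 * K := by
          rw [mul_pow, Real.sq_sqrt hK0.le]
        have e3 : 0 ≤ A * √(K : ℝ) := by positivity
        rw [e1] at h1
        rcases h1 with h1 | h1
        · have e4 : (A * √(K : ℝ)) ^ 2 ≤ |Wx ω| ^ 2 := by
            rw [hWx]
            exact pow_le_pow_left₀ e3 h1 2
          rw [sq_abs] at e4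
          nlinarith [sq_nonneg (Wy ω)]
        · have e4 : (A * √(K : ℝ)) ^ 2 ≤ |Wy ω| ^ 2 := by
            rw [hWy]
            exact pow_le_pow_left₀ e3 h1 2
          rw [sq_abs] at e4
          nlinarith [sq_nonneg (Wx ω)]
      have h3 : 1 / (2 * θ) ≤ 1 / (2 * θ * (A ^ 2 * K)) * (Wx ω ^ 2 + Wy ω ^ 2) := by
        have e5 : 0 < A ^ 2 * K := by positivity
        rw [div_mul_eq_mul_div, one_mul, div_le_div_iff₀ (by positivity) (by positivity)]
        nlinarith [mul_le_mul_of_nonneg_left h2 (by positivity : (0 : ℝ) ≤ 2 * θ)]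
      have h4 : |Zk k z fun b => Y b ω| ≤ θ / 2 * (Zk k z fun b => Y b ω) ^ 2 + 1 / (2 * θ) := by
        obtain ⟨r, hr⟩ : ∃ r, r = |Zk k z fun b => Y b ω| := ⟨_, rfl⟩
        rw [← sq_abs (Zk k z fun b => Y b ω), ← hr]
        have e6 : θ / 2 * r ^ 2 + 1 / (2 * θ) - r = (θ * r - 1) ^ 2 / (2 * θ) := by
          field_simp
          ring
        have e7 : 0 ≤ (θ * r - 1) ^ 2 / (2 * θ) := by positivity
        linarith
      linarith
  have hIi : Integrable (Set.indicator {ω | Al K t k z fun b => Y b ω}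
      (fun ω => |Zk k z fun b => Y b ω|)) P := hZ1.indicator (g2 k)
  have hle : ∫ ω, (|Zk k z fun b => Y b ω| - (θ / 2 * (Zk k z fun b => Y b ω) ^ 2 +
      1 / (2 * θ * (A ^ 2 * K)) * (Wx ω ^ 2 + Wy ω ^ 2))) ∂P ≤
      ∫ ω, Set.indicator {ω | Al K t k z fun b => Y b ω} (fun ω => |Zk k z fun b => Y b ω|) ω ∂P := by
    refine integral_mono (hZ1.sub ((hZ2.const_mul _).add ((hxi.add hyi).const_mul _))) hIi hpt
  have i1 : Integrable (fun ω => θ / 2 * (Zk k z fun b => Y b ω) ^ 2) P := hZ2.const_mul _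
  have i2 : Integrable (fun ω => 1 / (2 * θ * (A ^ 2 * K)) * (Wx ω ^ 2 + Wy ω ^ 2)) P :=
    (hxi.add hyi).const_mul _
  have i3 : Integrable (fun ω => θ / 2 * (Zk k z fun b => Y b ω) ^ 2 +
      1 / (2 * θ * (A ^ 2 * K)) * (Wx ω ^ 2 + Wy ω ^ 2)) P := i1.add i2
  rw [integral_sub hZ1 i3, integral_add i1 i2, integral_const_mul,
    integral_const_mul, integral_add hxi hyi] at hle
  refine le_trans ?_ hle
  have h5 := hG.low z hz k hk
  have h6 := hG.upp z hz k hk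
  rw [← hs] at h5 h6 ⊢
  have h7 : θ / 2 * ∫ ω, (Zk k z fun b => Y b ω) ^ 2 ∂P ≤ c * s / 4 := by
    have : θ / 2 * ∫ ω, (Zk k z fun b => Y b ω) ^ 2 ∂P ≤ θ / 2 * (σ ^ 2 * s ^ 2) :=
      mul_le_mul_of_nonneg_left h6 (by positivity)
    refine this.trans (le_of_eq ?_)
    rw [hθ]
    field_simp
    ring
  have h8 : 1 / (2 * θ * (A ^ 2 * K)) * (∫ ω, Wx ω ^ 2 ∂P + ∫ ω, Wy ω ^ 2 ∂P) ≤ c * s / 8 := by
    have : 1 / (2 * θ * (A ^ 2 * K)) * (∫ ω, Wx ω ^ 2 ∂P + ∫ ω, Wy ω ^ 2 ∂P) ≤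
        1 / (2 * θ * (A ^ 2 * K)) * (K / 8) :=
      mul_le_mul_of_nonneg_left (by linarith) (by positivity)
    refine this.trans (le_of_eq ?_)
    rw [hθ, hA]
    field_simp
  nlinarith [mul_pos hc hs0]

end

theorem t_H (hB : S_B) (hC : S_C) (hE : S_E) (hGG : S_G.{u}) : S_H.{u} := by
  intro c σ hc hσ
  refine ⟨σ / c, c / 800, by positivity, by positivity, ?_⟩
  intro Ω _ P _ Y K hK hG
  obtain ⟨t, ht⟩ : ∃ t, t = σ / c * √(K : ℝ) + 3 := ⟨_, rfl⟩
  rw [← ht]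
  obtain ⟨b1, b2, b3⟩ := hB
  -- expand
  have h1 : ∀ ω, ∑ b ∈ box (2 ^ K), Y b ω * phi K t (fun b' => Y b' ω) b =
      ∑ b ∈ box (2 ^ K), ∑ k ∈ Finset.range K,
        Psi k b * (w K t k b (fun b' => Y b' ω) * Y b ω) := by
    intro ω
    refine Finset.sum_congr rfl fun b hb => ?_
    unfold phi
    rw [if_pos hb, Finset.mul_sum]
    refine Finset.sum_congr rfl fun k _ => ?_
    ring
  simp only [h1]
  have hint : ∀ b k, Integrable (fun ω => Psi k b * (w K t k b (fun b' => Y b' ω) * Y b ω)) P :=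
    fun b k => (int_wY hG t k b b).const_mul _
  rw [integral_finsetSum _ fun b _ => integrable_finsetSum _ fun k _ => hint b k]
  have h2 : ∀ b ∈ box (2 ^ K), ∑ k ∈ Finset.range K, |Psi k b| * (c / 2 / 2 ^ (k + 1)) ≤
      ∫ ω, ∑ k ∈ Finset.range K, Psi k b * (w K t k b (fun b' => Y b' ω) * Y b ω) ∂P := by
    intro b hb
    rw [integral_finsetSum _ fun k _ => hint b k]
    refine Finset.sum_le_sum fun k hk => ?_
    have hk' := Finset.mem_range.1 hk
    obtain ⟨g1, g2, g3, g4⟩ := hGG Ω P Y c σ K hG t b hb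
    rw [integral_const_mul, g4 k hk']
    have h3 := alive_low hC hE hGG hc hσ hK hG hb hk'
    rw [← ht] at h3
    obtain ⟨I, hI⟩ : ∃ I, I = ∫ ω, Set.indicator {ω | Al K t k b fun b => Y b ω}
      (fun ω => |Zk k b fun b => Y b ω|) ω ∂P := ⟨_, rfl⟩
    rw [← hI] at h3 ⊢
    have h4 : Psi k b * ((if b ∈ Lh k b then 1 else -1) / 4 ^ (k + 1) * I) =
        |Psi k b| * (I / 4 ^ (k + 1)) := by
      by_cases h5 : b ∈ Lh k b
      · rw [if_pos h5, abs_of_nonneg (b1 k b h5)]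
        ring
      · rw [if_neg h5, abs_of_nonpos (b2 k b h5)]
        ring
    rw [h4]
    refine mul_le_mul_of_nonneg_left ?_ (abs_nonneg _)
    have h6 : (4 : ℝ) ^ (k + 1) = 2 ^ (k + 1) * 2 ^ (k + 1) := by
      rw [← mul_pow]
      norm_num
    rw [h6, div_le_div_iff₀ (by positivity) (by positivity)]
    have h7 : (0 : ℝ) < 2 ^ (k + 1) := by positivity
    nlinarith [mul_le_mul_of_nonneg_right h3 h7.le]
  refine le_trans ?_ (Finset.sum_le_sum h2)
  rw [Finset.sum_comm]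
  have h5 : ∀ k ∈ Finset.range K, (if k = 0 then 0 else c * 4 ^ K / 400) ≤
      ∑ b ∈ box (2 ^ K), |Psi k b| * (c / 2 / 2 ^ (k + 1)) := by
    intro k hk
    rw [← Finset.sum_mul]
    by_cases hk0 : k = 0
    · rw [if_pos hk0]
      exact mul_nonneg (Finset.sum_nonneg fun _ _ => abs_nonneg _) (by positivity)
    · rw [if_neg hk0]
      have h6 := b3 K k (Nat.one_le_iff_ne_zero.2 hk0) (Finset.mem_range.1 hk)
      have h7 : c * 4 ^ K / 400 = 2 ^ k * 4 ^ K / 100 * (c / 2 / 2 ^ (k + 1)) := by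
        rw [pow_succ]
        field_simp
        ring
      rw [h7]
      exact mul_le_mul_of_nonneg_right h6 (by positivity)
  refine le_trans ?_ (Finset.sum_le_sum h5)
  have h8 : ∑ k ∈ Finset.range K, (if k = 0 then 0 else c * 4 ^ K / 400) =
      (K - 1) * (c * 4 ^ K / 400) := by
    obtain ⟨m, rfl⟩ : ∃ m, K = m + 1 := ⟨K - 1, by omega⟩
    rw [Finset.sum_range_succ']
    simp
  rw [h8]
  have h9 : (2 : ℝ) ≤ K := by exact_mod_cast hK
  have h10 : 0 < c * 4 ^ K := by positivity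
  nlinarith
end Q294.Pm
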