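import Pool.Agent.Q294.Pm.T
import Pool.Agent.Q294.Pm.F

/-!
Project PM: jobs I, J, K, L.
-/

set_option autoImplicit false

open MeasureTheory ProbabilityTheory
open scoped ENNReal NNReal

namespace Q294.Pm

universe u

/-! ### Job I -/

theorem U_disj {b b' : ℕ × ℕ} (h : b ≠ b') : Disjoint (U b) (U b') := by
  rw [Set.disjoint_left]
  rintro x ⟨h1, h2, h3, h4⟩ ⟨h1', h2', h3', h4'⟩
  apply h
  have e1 : b.1 = b'.1 := by
    have i1 : (b.1 : ℝ) < b'.1 + 1 := by linarith
    have i2 : (b'.1 : ℝ) < b.1 + 1 := by linarith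
    have i3 : b.1 < b'.1 + 1 := by exact_mod_cast i1
    have i4 : b'.1 < b.1 + 1 := by exact_mod_cast i2
    omega
  have e2 : b.2 = b'.2 := by
    have i1 : (b.2 : ℝ) < b'.2 + 1 := by linarith
    have i2 : (b'.2 : ℝ) < b.2 + 1 := by linarith
    have i3 : b.2 < b'.2 + 1 := by exact_mod_cast i1
    have i4 : b'.2 < b.2 + 1 := by exact_mod_cast i2
    omega
  exact Prod.ext e1 e2

theorem t_I : S_I.{u} := by
  intro q Ω _ P _ lam X hX S
  obtain ⟨a1, a2, a3⟩ := hX S (fun j => U j.1) (fun j => (vol_U j.1).1) (fun j => (vol_U j.1).2.2)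
    (fun x y h => U_disj fun h' => h (Subtype.ext h'))
  have hlaw : ∀ i, ∀ b ∈ S, P.map (fun ω => (X i ω ∩ U b).encard) =
      (poissonMeasure (lam i).toNNReal).map (Nat.cast : ℕ → ℕ∞) := by
    intro i b hb
    have := a3 i ⟨b, hb⟩
    simp only [(vol_U b).2.1, ENNReal.toReal_one, mul_one] at this
    exact this
  refine ⟨⟨?_, ?_, ?_⟩, ?_⟩
  · intro i b hb
    exact (measurable_from_top (f := ENat.toNat)).comp (a1 i ⟨b, hb⟩)
  · exact a2.comp (fun _ => ENat.toNat) fun _ => measurable_from_top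
  · intro i b hb
    have h1 : P.map (fun ω => (X i ω ∩ U b).ncard) =
        (P.map (fun ω => (X i ω ∩ U b).encard)).map ENat.toNat := by
      rw [Measure.map_map measurable_from_top (a1 i ⟨b, hb⟩)]
      rfl
    rw [h1, hlaw i b hb, Measure.map_map measurable_from_top measurable_from_top]
    have : ENat.toNat ∘ (Nat.cast : ℕ → ℕ∞) = id := by
      funext n
      simp
    rw [this, Measure.map_id]
  · rw [ae_all_iff]
    intro i
    rw [Finset.eventually_all]
    intro b hb
    have h1 : P ((fun ω => (X i ω ∩ U b).encard) ⁻¹' {⊤}) = 0 := by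
      rw [← Measure.map_apply (a1 i ⟨b, hb⟩) (measurableSet_singleton _), hlaw i b hb,
        Measure.map_apply measurable_from_top (measurableSet_singleton _)]
      have : (Nat.cast : ℕ → ℕ∞) ⁻¹' {⊤} = ∅ := by
        ext n
        simp
      rw [this, measure_empty]
    rw [ae_iff]
    refine measure_mono_null ?_ h1
    intro ω hω
    have hω' : ¬ (X i ω ∩ U b).Finite := hω
    show (X i ω ∩ U b).encard = ⊤
    exact Set.encard_eq_top_iff.2 hω'

/-! ### Job J -/

theorem t_J : S_J.{u} := by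
  classical
  intro q Ω _ P _ lam f n N hInd π hπ
  obtain ⟨h1, h2, h3⟩ := hInd
  have hbox : ∀ b, b ∈ box N → π b ∈ box N := by
    intro b hb
    by_contra hc
    have e1 := hπ (π b) hc
    have e2 := π.injective e1
    rw [e2] at hc
    exact hc hb
  obtain ⟨e, he⟩ : ∃ e : box N → box N, e = fun b => ⟨π b.1, hbox b.1 b.2⟩ := ⟨_, rfl⟩
  have hinj : Function.Injective e := by
    intro a b hab
    rw [he] at hab
    exact Subtype.ext (π.injective (congrArg Subtype.val hab))
  obtain ⟨v, hv⟩ : ∃ v : Ω → (Fin q × box N) → ℕ, v = fun ω p => n p.1 p.2.1 ω := ⟨_, rfl⟩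
  obtain ⟨v', hv'⟩ : ∃ v' : Ω → (Fin q × box N) → ℕ, v' = fun ω p => n p.1 (e p.2).1 ω := ⟨_, rfl⟩
  have hmv : Measurable v := by
    rw [hv]
    exact measurable_pi_lambda _ fun p => h1 p.1 p.2.1 p.2.2
  have hmv' : Measurable v' := by
    rw [hv']
    exact measurable_pi_lambda _ fun p => h1 p.1 (e p.2).1 (e p.2).2
  have hind' : iIndepFun (fun (p : Fin q × box N) ω => n p.1 (e p.2).1 ω) P := by
    have := h2.precomp (g := fun p : Fin q × box N => (p.1, e p.2))
      (fun a b hab => Prod.ext (Prod.ext_iff.1 hab).1 (hinj (Prod.ext_iff.1 hab).2))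
    exact this
  have hl : P.map v = Measure.pi fun p : Fin q × box N => poissonMeasure (lam p.1).toNNReal := by
    have := h2.map_fun_eq_pi_map fun (p : Fin q × box N) => (h1 p.1 p.2.1 p.2.2).aemeasurable
    rw [hv]
    refine this.trans ?_
    congr 1
    funext p
    exact h3 p.1 p.2.1 p.2.2
  have hl' : P.map v' = Measure.pi fun p : Fin q × box N => poissonMeasure (lam p.1).toNNReal := by
    have := hind'.map_fun_eq_pi_map fun (p : Fin q × box N) =>
      (h1 p.1 (e p.2).1 (e p.2).2).aemeasurable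
    rw [hv']
    refine this.trans ?_
    congr 1
    funext p
    exact h3 p.1 (e p.2).1 (e p.2).2
  obtain ⟨H, hH⟩ : ∃ H : ((Fin q × box N) → ℕ) → (ℕ × ℕ → ℝ), H = fun u b =>
      if h : b ∈ box N then ∑ i, f i * (u (i, ⟨b, h⟩) : ℝ) else 0 := ⟨_, rfl⟩
  have hHm : Measurable H := by
    rw [hH]
    refine measurable_pi_lambda _ fun b => ?_
    by_cases h : b ∈ box N
    · simp only [h, dif_pos]
      refine Finset.measurable_sum _ fun i _ => Measurable.const_mul ?_ _
      exact (measurable_from_top (f := fun m : ℕ => (m : ℝ))).comp (measurable_pi_apply _)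
    · simp only [h, dif_neg, not_false_eq_true]
      exact measurable_const
  have e1 : (fun ω b => Yb f (box N) n b ω) = H ∘ v := by
    funext ω b
    rw [hH, hv]
    unfold Yb
    by_cases h : b ∈ box N
    · rw [if_pos h]
      simp only [Function.comp, dif_pos h]
    · rw [if_neg h]
      simp only [Function.comp, dif_neg h]
  have e2 : (fun ω b => Yb f (box N) n (π b) ω) = H ∘ v' := by
    funext ω b
    rw [hH, hv', he]
    unfold Yb
    by_cases h : b ∈ box N
    · rw [if_pos (hbox b h)]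
      simp only [Function.comp, dif_pos h]
    · rw [hπ b h, if_neg h]
      simp only [Function.comp, dif_neg h]
  rw [e1, e2]
  exact ⟨(hHm.comp hmv').aemeasurable, (hHm.comp hmv).aemeasurable, by
    rw [← Measure.map_map hHm hmv', ← Measure.map_map hHm hmv, hl, hl']⟩

/-! ### Job K -/

theorem hasSum_one (r : ℝ≥0) :
    HasSum (fun n : ℕ => Real.exp (-r) * (r : ℝ) ^ n / n.factorial * n) r := by
  rw [← hasSum_nat_add_iff' 1]
  simp only [Finset.sum_range_one, Nat.cast_zero, mul_zero, sub_zero]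
  have h := (hasSum_one_poissonMeasure r).mul_left (r : ℝ)
  rw [mul_one] at h
  have e2 : ∀ n : ℕ, Real.exp (-r) * (r : ℝ) ^ (n + 1) / (n + 1).factorial * ((n + 1 : ℕ) : ℝ) =
      r * (Real.exp (-r) * (r : ℝ) ^ n / n.factorial) := by
    intro n
    rw [Nat.factorial_succ]
    push_cast
    field_simp
    ring
  simp only [e2]
  exact h

theorem hasSum_two (r : ℝ≥0) :
    HasSum (fun n : ℕ => Real.exp (-r) * (r : ℝ) ^ n / n.factorial * (n : ℝ) ^ 2)
      ((r : ℝ) ^ 2 + r) := by
  rw [← hasSum_nat_add_iff' 1]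
  have h := ((hasSum_one r).add (hasSum_one_poissonMeasure r)).mul_left (r : ℝ)
  have e : (r : ℝ) * (r + 1) = r ^ 2 + r - ∑ i ∈ Finset.range 1,
      Real.exp (-r) * (r : ℝ) ^ i / i.factorial * (i : ℝ) ^ 2 := by
    simp only [Finset.sum_range_one, Nat.cast_zero]
    ring
  rw [← e]
  have e2 : ∀ n : ℕ, Real.exp (-r) * (r : ℝ) ^ (n + 1) / (n + 1).factorial *
      ((n + 1 : ℕ) : ℝ) ^ 2 =
      r * (Real.exp (-r) * (r : ℝ) ^ n / n.factorial * n +
        Real.exp (-r) * (r : ℝ) ^ n / n.factorial) := by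
    intro n
    rw [Nat.factorial_succ]
    push_cast
    field_simp
    ring
  simp only [e2]
  exact h

/-- moments of a random variable with a Poisson law -/
theorem moments {Ω : Type u} [MeasurableSpace Ω] {P : Measure Ω} [IsProbabilityMeasure P]
    {X : Ω → ℕ} (hX : Measurable X) {r : ℝ≥0} (hl : P.map X = poissonMeasure r) :
    MemLp (fun ω => (X ω : ℝ)) 2 P ∧ ∫ ω, (X ω : ℝ) ∂P = r ∧ ∫ ω, (X ω : ℝ) ^ 2 ∂P = r ^ 2 + r := by
  have hm : Measurable fun n : ℕ => (n : ℝ) := measurable_from_top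
  have hi2 : Integrable (fun n : ℕ => (n : ℝ) ^ 2) (poissonMeasure r) := by
    rw [integrable_poissonMeasure_iff]
    have : ∀ n : ℕ, Real.exp (-r) * (r : ℝ) ^ n / n.factorial * ‖(n : ℝ) ^ 2‖ =
        Real.exp (-r) * (r : ℝ) ^ n / n.factorial * (n : ℝ) ^ 2 := by
      intro n
      rw [Real.norm_of_nonneg (by positivity)]
    simp only [this]
    exact (hasSum_two r).summable
  have hi1 : Integrable (fun n : ℕ => (n : ℝ)) (poissonMeasure r) := by
    rw [integrable_poissonMeasure_iff]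
    have : ∀ n : ℕ, Real.exp (-r) * (r : ℝ) ^ n / n.factorial * ‖(n : ℝ)‖ =
        Real.exp (-r) * (r : ℝ) ^ n / n.factorial * (n : ℝ) := by
      intro n
      rw [Real.norm_of_nonneg (by positivity)]
    simp only [this]
    exact (hasSum_one r).summable
  refine ⟨?_, ?_, ?_⟩
  · have hs : AEStronglyMeasurable (fun ω => (X ω : ℝ)) P := (hm.comp hX).aestronglyMeasurable
    rw [memLp_two_iff_integrable_sq hs]
    have := (hl ▸ hi2 : Integrable (fun n : ℕ => (n : ℝ) ^ 2) (P.map X))
    exact this.comp_measurable hX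
  · have := integral_map (μ := P) hX.aemeasurable (f := fun n : ℕ => (n : ℝ))
      (by rw [hl]; exact hi1.aestronglyMeasurable)
    rw [← this, hl, integral_poissonMeasure' hi1]
    simp only [smul_eq_mul]
    exact (hasSum_one r).tsum_eq
  · have := integral_map (μ := P) hX.aemeasurable (f := fun n : ℕ => (n : ℝ) ^ 2)
      (by rw [hl]; exact hi2.aestronglyMeasurable)
    rw [← this, hl, integral_poissonMeasure' hi2]
    simp only [smul_eq_mul]
    exact (hasSum_two r).tsum_eq

open scoped Classical in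
/-- sign of a box in the difference of the two halves -/
noncomputable def eps (k : ℕ) (z b : ℕ × ℕ) : ℝ :=
  if b ∈ Lh k z then 1 else if b ∈ Rh k z then -1 else 0

section

variable {q : ℕ} {Ω : Type u} [MeasurableSpace Ω] {P : Measure Ω} [IsProbabilityMeasure P]
  {lam f : Fin q → ℝ} {n : Fin q → ℕ × ℕ → Ω → ℕ} {K : ℕ}

/-- the difference of the halves as one sum -/
theorem Zk_sum {z : ℕ × ℕ} (hz : z ∈ box (2 ^ K)) {k : ℕ} (hk : k < K) (ω : Ω) :
    (Zk k z fun b => Yb f (box (2 ^ K)) n b ω) =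
      ∑ p : Fin q × box (2 ^ K), eps k z p.2.1 * f p.1 * (n p.1 p.2.1 ω : ℝ) := by
  classical
  have hsub := (t_F K 0 k z).2.2.2 hz hk
  have e1 : ∑ p : Fin q × box (2 ^ K), eps k z p.2.1 * f p.1 * (n p.1 p.2.1 ω : ℝ) =
      ∑ b ∈ box (2 ^ K), eps k z b * Yb f (box (2 ^ K)) n b ω := by
    rw [Fintype.sum_prod_type_right]
    rw [← Finset.sum_coe_sort (box (2 ^ K)) fun b => eps k z b * Yb f (box (2 ^ K)) n b ω]
    refine Finset.sum_congr rfl fun b _ => ?_
    unfold Yb
    rw [if_pos b.2, Finset.mul_sum]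
    exact Finset.sum_congr rfl fun i _ => by ring
  rw [e1]
  have e2 : ∑ b ∈ box (2 ^ K), eps k z b * Yb f (box (2 ^ K)) n b ω =
      ∑ b ∈ Lh k z ∪ Rh k z, eps k z b * Yb f (box (2 ^ K)) n b ω := by
    symm
    refine Finset.sum_subset hsub fun b _ hb => ?_
    rw [Finset.mem_union, not_or] at hb
    unfold eps
    rw [if_neg hb.1, if_neg hb.2, zero_mul]
  rw [e2, Finset.sum_union (halves_disj k z)]
  unfold Zk
  rw [sub_eq_add_neg, ← Finset.sum_neg_distrib]
  congr 1
  · refine Finset.sum_congr rfl fun b hb => ?_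
    unfold eps
    rw [if_pos hb, one_mul]
  · refine Finset.sum_congr rfl fun b hb => ?_
    have : b ∉ Lh k z := fun h => (Finset.disjoint_left.1 (halves_disj k z)) h hb
    unfold eps
    rw [if_neg this, if_pos hb]
    ring

theorem sum_eps_sq {z : ℕ × ℕ} (hz : z ∈ box (2 ^ K)) {k : ℕ} (hk : k < K) (a : Fin q → ℝ) :
    ∑ p : Fin q × box (2 ^ K), eps k z p.2.1 ^ 2 * a p.1 = (2 ^ (k + 1)) ^ 2 * ∑ i, a i := by
  classical
  have hsub := (t_F K 0 k z).2.2.2 hz hk
  rw [Fintype.sum_prod_type_right]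
  have e1 : ∀ b : box (2 ^ K), ∑ i, eps k z b.1 ^ 2 * a i = eps k z b.1 ^ 2 * ∑ i, a i :=
    fun b => (Finset.mul_sum _ _ _).symm
  rw [Finset.sum_congr rfl fun b _ => e1 b, ← Finset.sum_mul]
  congr 1
  rw [Finset.sum_coe_sort (box (2 ^ K)) fun b => eps k z b ^ 2]
  have e2 : ∑ b ∈ box (2 ^ K), eps k z b ^ 2 = ∑ b ∈ Lh k z ∪ Rh k z, eps k z b ^ 2 := by
    symm
    refine Finset.sum_subset hsub fun b _ hb => ?_
    rw [Finset.mem_union, not_or] at hb
    unfold eps
    rw [if_neg hb.1, if_neg hb.2]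
    norm_num
  have e3 : ∀ b ∈ Lh k z ∪ Rh k z, eps k z b ^ 2 = 1 := by
    intro b hb
    unfold eps
    by_cases h : b ∈ Lh k z
    · rw [if_pos h]
      norm_num
    · rw [if_neg h, if_pos ((Finset.mem_union.1 hb).resolve_left h)]
      norm_num
  rw [e2, Finset.sum_congr rfl e3, Finset.sum_const, Finset.card_union_of_disjoint (halves_disj k z),
    card_Lh, card_Rh, nsmul_eq_mul, mul_one]
  push_cast
  ring

theorem ind_terms (hI : Ind P lam (box (2 ^ K)) n) (c : Fin q × box (2 ^ K) → ℝ) :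
    iIndepFun (fun (p : Fin q × box (2 ^ K)) ω => c p * (n p.1 p.2.1 ω : ℝ)) P :=
  hI.2.1.comp (fun p m => c p * (m : ℝ)) fun _ => measurable_from_top

theorem t_K_aux (hI : Ind P lam (box (2 ^ K)) n) (hlam : ∀ i, 0 < lam i) (i : Fin q) {b : ℕ × ℕ}
    (hb : b ∈ box (2 ^ K)) :
    MemLp (fun ω => (n i b ω : ℝ)) 2 P ∧ ∫ ω, (n i b ω : ℝ) ∂P = lam i ∧
      ∫ ω, (n i b ω : ℝ) ^ 2 ∂P = lam i ^ 2 + lam i := by
  have := moments (hI.1 i b hb) (hI.2.2 i b hb)
  rw [Real.coe_toNNReal _ (hlam i).le] at this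
  exact this

end

theorem t_K : S_K.{u} := by
  classical
  intro q Ω _ P _ lam f n K hlam hf hI
  have hmeas : ∀ b, Measurable (Yb f (box (2 ^ K)) n b) := by
    intro b
    unfold Yb
    by_cases h : b ∈ box (2 ^ K)
    · simp only [h, if_true]
      refine Finset.measurable_sum _ fun i _ => Measurable.const_mul ?_ _
      exact (measurable_from_top (f := fun m : ℕ => (m : ℝ))).comp (hI.1 i b h)
    · simp only [h, if_false]
      exact measurable_const
  refine ⟨hmeas, ?_, ?_, ?_⟩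
  · intro b
    unfold Yb
    by_cases h : b ∈ box (2 ^ K)
    · simp only [h, if_true]
      exact memLp_finsetSum _ fun i _ => (t_K_aux hI hlam i h).1.const_mul _
    · simp only [h, if_false]
      exact memLp_const 0
  · intro i b hb
    have := t_K_aux hI hlam i hb
    exact ⟨this.2.1, this.1.integrable (by norm_num)⟩
  · intro z hz k hk
    obtain ⟨W, hW⟩ : ∃ W : Fin q × box (2 ^ K) → Ω → ℝ, W = fun p ω =>
        eps k z p.2.1 * f p.1 * (n p.1 p.2.1 ω : ℝ) := ⟨_, rfl⟩
    have hWm : ∀ p, MemLp (W p) 2 P := by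
      intro p
      rw [hW]
      exact (t_K_aux hI hlam p.1 p.2.2).1.const_mul _
    have hZW : ∀ ω, (Zk k z fun b => Yb f (box (2 ^ K)) n b ω) = (∑ p, W p) ω := by
      intro ω
      rw [Zk_sum hz hk, Finset.sum_apply, hW]
    have hWi : iIndepFun W P := by
      rw [hW]
      exact ind_terms hI _
    have hvar : variance (∑ p, W p) P = ∑ p, variance (W p) P :=
      IndepFun.variance_sum (fun p _ => hWm p) fun p _ p' _ h => hWi.indepFun h
    have hvp : ∀ p, variance (W p) P = eps k z p.2.1 ^ 2 * (f p.1 ^ 2 * lam p.1) := by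
      intro p
      obtain ⟨m1, m2, m3⟩ := t_K_aux hI hlam p.1 p.2.2
      rw [hW]
      have e1 : variance (fun ω => eps k z p.2.1 * f p.1 * (n p.1 p.2.1 ω : ℝ)) P =
          (eps k z p.2.1 * f p.1) ^ 2 * variance (fun ω => (n p.1 p.2.1 ω : ℝ)) P :=
        variance_const_mul _ _ _
      rw [e1, variance_eq_sub m1]
      have e2 : ∫ ω, ((fun ω => (n p.1 p.2.1 ω : ℝ)) ^ 2) ω ∂P = lam p.1 ^ 2 + lam p.1 := m3
      rw [e2, m2]
      ring
    have hmean : ∫ ω, (∑ p, W p) ω ∂P = 0 := by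
      simp only [Finset.sum_apply]
      rw [integral_finsetSum _ fun p _ => (hWm p).integrable (by norm_num)]
      have e1 : ∀ p, ∫ ω, W p ω ∂P = eps k z p.2.1 * (f p.1 * lam p.1) := by
        intro p
        rw [hW]
        simp only
        rw [integral_const_mul, (t_K_aux hI hlam p.1 p.2.2).2.1]
        ring
      rw [Finset.sum_congr rfl fun p _ => e1 p, Fintype.sum_prod_type_right]
      refine Finset.sum_eq_zero fun b _ => ?_
      simp only
      rw [← Finset.mul_sum, hf, mul_zero]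
    have hm2 : MemLp (∑ p, W p) 2 P := memLp_finsetSum' _ fun p _ => hWm p
    have hfin : ∫ ω, (Zk k z fun b => Yb f (box (2 ^ K)) n b ω) ^ 2 ∂P = variance (∑ p, W p) P := by
      rw [variance_eq_sub hm2, hmean]
      simp only [hZW]
      rw [zero_pow (by norm_num), sub_zero]
      rfl
    rw [hfin, hvar, Finset.sum_congr rfl fun p _ => hvp p,
      sum_eps_sq hz hk fun i => f i ^ 2 * lam i]
    exact le_of_eq (mul_comm _ _)

/-! ### Job L -/

theorem norm_charFun (r : ℝ≥0) (t : ℝ) :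
    ‖charFun ((poissonMeasure r).map (Nat.cast : ℕ → ℝ)) t‖ = Real.exp (-(r * (1 - Real.cos t))) := by
  rw [charFun_map_cast_poissonMeasure, Complex.norm_exp]
  congr 1
  simp only [Complex.mul_re, Complex.sub_re, Complex.one_re, Complex.exp_ofReal_mul_I_re]
  simp
  ring

theorem t_L : S_L.{u} := by
  classical
  intro q lam f hlam hf
  obtain ⟨i₀, hi₀⟩ : ∃ i, f i ≠ 0 := by
    by_contra h
    push Not at h
    exact hf (funext h)
  obtain ⟨M, hM⟩ : ∃ M, M = ∑ i, |f i| := ⟨_, rfl⟩
  have hMi : ∀ i, |f i| ≤ M := by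
    intro i
    rw [hM]
    exact Finset.single_le_sum (f := fun i => |f i|) (fun j _ => abs_nonneg _) (Finset.mem_univ i)
  have hM0 : 0 < M := lt_of_lt_of_le (abs_pos.2 hi₀) (hMi i₀)
  obtain ⟨a, ha⟩ : ∃ a, a = ∑ i, lam i * (2 / Real.pi ^ 2 * (f i / M) ^ 2) := ⟨_, rfl⟩
  have ha0 : 0 < a := by
    rw [ha]
    refine Finset.sum_pos' (fun i _ => ?_) ⟨i₀, Finset.mem_univ _, ?_⟩
    · have := hlam i
      positivity
    · have := hlam i₀
      positivity
  refine ⟨M * (1 - Real.exp (-a)), ?_, ?_⟩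
  · have : Real.exp (-a) < 1 := by
      rw [Real.exp_lt_one_iff]
      linarith
    exact mul_pos hM0 (by linarith)
  intro Ω _ P _ n K hI z hz k hk
  obtain ⟨s, hs⟩ : ∃ s : ℝ, s = 2 ^ (k + 1) := ⟨_, rfl⟩
  have hs1 : 1 ≤ s := by rw [hs]; exact one_le_pow₀ (by norm_num)
  have hs0 : 0 < s := by linarith
  rw [← hs]
  obtain ⟨t, ht⟩ : ∃ t, t = 1 / (M * s) := ⟨_, rfl⟩
  have ht0 : 0 < t := by rw [ht]; positivity
  obtain ⟨W, hW⟩ : ∃ W : Fin q × box (2 ^ K) → Ω → ℝ, W = fun p ω =>
      eps k z p.2.1 * f p.1 * (n p.1 p.2.1 ω : ℝ) := ⟨_, rfl⟩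
  obtain ⟨Z, hZ⟩ : ∃ Z : Ω → ℝ, Z = fun ω => Zk k z fun b => Yb f (box (2 ^ K)) n b ω := ⟨_, rfl⟩
  have hZW : Z = fun ω => ∑ p, W p ω := by
    rw [hZ, hW]
    funext ω
    exact Zk_sum hz hk ω
  have hnm : ∀ p : Fin q × box (2 ^ K), Measurable fun ω => (n p.1 p.2.1 ω : ℝ) := fun p =>
    (measurable_from_top (f := fun m : ℕ => (m : ℝ))).comp (hI.1 p.1 p.2.1 p.2.2)
  have hWm : ∀ p, Measurable (W p) := by
    intro p
    rw [hW]
    exact (hnm p).const_mul _
  have hZm : Measurable Z := by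
    rw [hZW]
    exact Finset.measurable_sum _ fun p _ => hWm p
  have hWi : iIndepFun W P := by
    rw [hW]
    exact ind_terms hI _
  have hcf := iIndepFun.charFun_map_fun_sum_eq_prod (fun p => (hWm p).aemeasurable) hWi
  rw [← hZW] at hcf
  have hp : ∀ p : Fin q × box (2 ^ K), ‖charFun (P.map (W p)) t‖ =
      Real.exp (-(lam p.1 * (1 - Real.cos (eps k z p.2.1 * f p.1 * t)))) := by
    intro p
    have e1 : P.map (W p) = (((poissonMeasure (lam p.1).toNNReal).map (Nat.cast : ℕ → ℝ))).map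
        (fun x => eps k z p.2.1 * f p.1 * x) := by
      have e0 : Measurable (Nat.cast ∘ n p.1 p.2.1 : Ω → ℝ) := hnm p
      rw [← hI.2.2 p.1 p.2.1 p.2.2, Measure.map_map measurable_from_top (hI.1 p.1 p.2.1 p.2.2),
        Measure.map_map (measurable_const_mul _) e0, hW]
      rfl
    rw [e1, charFun_map_mul, norm_charFun, Real.coe_toNNReal _ (hlam _).le]
  have hprod : ‖charFun (P.map Z) t‖ ≤ Real.exp (-a) := by
    rw [hcf, Finset.prod_apply, norm_prod, Finset.prod_congr rfl fun p _ => hp p,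
      ← Real.exp_sum, Finset.sum_neg_distrib]
    refine Real.exp_le_exp.2 (neg_le_neg ?_)
    have e1 : ∀ p : Fin q × box (2 ^ K), eps k z p.2.1 ^ 2 *
        (lam p.1 * (2 / Real.pi ^ 2 * (f p.1 * t) ^ 2)) ≤
        lam p.1 * (1 - Real.cos (eps k z p.2.1 * f p.1 * t)) := by
      intro p
      have h1 : |eps k z p.2.1| ≤ 1 := by
        unfold eps
        split_ifs <;> norm_num
      have h2 : |eps k z p.2.1 * f p.1 * t| ≤ Real.pi := by
        rw [abs_mul, abs_mul, abs_of_pos ht0]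
        have h3 : |eps k z p.2.1| * |f p.1| ≤ 1 * M :=
          mul_le_mul h1 (hMi _) (abs_nonneg _) zero_le_one
        have h4 : |eps k z p.2.1| * |f p.1| * t ≤ 1 * M * t :=
          mul_le_mul_of_nonneg_right h3 ht0.le
        have h5 : 1 * M * t = 1 / s := by
          rw [ht]
          field_simp
        have h6 : 1 / s ≤ 1 := by
          rw [div_le_one hs0]
          exact hs1
        have h7 := Real.pi_gt_three
        linarith
      have h3 := Real.cos_le_one_sub_mul_cos_sq h2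
      have h4 : 2 / Real.pi ^ 2 * (eps k z p.2.1 * f p.1 * t) ^ 2 ≤
          1 - Real.cos (eps k z p.2.1 * f p.1 * t) := by linarith
      calc eps k z p.2.1 ^ 2 * (lam p.1 * (2 / Real.pi ^ 2 * (f p.1 * t) ^ 2)) =
            lam p.1 * (2 / Real.pi ^ 2 * (eps k z p.2.1 * f p.1 * t) ^ 2) := by ring
        _ ≤ lam p.1 * (1 - Real.cos (eps k z p.2.1 * f p.1 * t)) :=
            mul_le_mul_of_nonneg_left h4 (hlam _).le
    refine le_trans (le_of_eq ?_) (Finset.sum_le_sum fun p _ => e1 p)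
    rw [sum_eps_sq hz hk fun i => lam i * (2 / Real.pi ^ 2 * (f i * t) ^ 2), ha, ← hs,
      Finset.mul_sum]
    refine Finset.sum_congr rfl fun i _ => ?_
    rw [ht]
    field_simp
  -- the expectation
  have hbound : ∀ ω, 1 - (Complex.exp (t * Z ω * Complex.I)).re ≤ t * |Z ω| := by
    intro ω
    have e1 : (Complex.exp (t * Z ω * Complex.I)).re = Real.cos (t * Z ω) := by
      rw [← Complex.ofReal_mul, Complex.exp_ofReal_mul_I_re]
    rw [e1]
    obtain ⟨v, hv⟩ : ∃ v, v = |t * Z ω| := ⟨_, rfl⟩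
    have e2 : t * |Z ω| = v := by rw [hv, abs_mul, abs_of_pos ht0]
    rw [← Real.cos_abs, ← hv, e2]
    have hv0 : 0 ≤ v := by rw [hv]; exact abs_nonneg _
    rcases le_total v 2 with h | h
    · have := Real.one_sub_sq_div_two_le_cos (x := v)
      nlinarith
    · have := Real.neg_one_le_cos v
      linarith
  have hZi : Integrable (fun ω => |Z ω|) P := by
    have : Integrable Z P := by
      rw [hZW]
      refine integrable_finsetSum _ fun p _ => ?_
      rw [hW]
      exact ((t_K_aux hI hlam p.1 p.2.2).1.integrable (by norm_num)).const_mul _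
    exact this.abs
  have hEi : Integrable (fun ω => Complex.exp (t * Z ω * Complex.I)) P := by
    refine Integrable.mono' (integrable_const (1 : ℝ)) ?_ ?_
    · have : Measurable fun ω => Complex.exp (t * Z ω * Complex.I) := by
        have h1 : Measurable fun ω => ((Z ω : ℝ) : ℂ) := Complex.measurable_ofReal.comp hZm
        exact Complex.measurable_exp.comp ((h1.const_mul _).mul_const _)
      exact this.aestronglyMeasurable
    · refine Filter.Eventually.of_forall fun ω => ?_
      rw [← Complex.ofReal_mul, Complex.norm_exp_ofReal_mul_I]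
  have hEr : Integrable (fun ω => (Complex.exp (t * Z ω * Complex.I)).re) P := hEi.re
  have h1 : ∫ ω, (1 - (Complex.exp (t * Z ω * Complex.I)).re) ∂P ≤ ∫ ω, t * |Z ω| ∂P := by
    refine integral_mono ((integrable_const _).sub hEr) (hZi.const_mul _) hbound
  rw [integral_sub (integrable_const _) hEr, integral_const_mul] at h1
  have h2 : ∫ ω, (Complex.exp (t * Z ω * Complex.I)).re ∂P ≤ Real.exp (-a) := by
    have e1 : ∫ ω, (Complex.exp (t * Z ω * Complex.I)).re ∂P =
        (∫ ω, Complex.exp (t * Z ω * Complex.I) ∂P).re := by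
      have := integral_re hEi
      exact this
    rw [e1]
    have e2 : ∫ ω, Complex.exp (t * Z ω * Complex.I) ∂P = charFun (P.map Z) t := by
      rw [charFun_apply_real, integral_map hZm.aemeasurable]
      have : Measurable fun x : ℝ => Complex.exp (t * x * Complex.I) :=
        Complex.measurable_exp.comp ((Complex.measurable_ofReal.const_mul _).mul_const _)
      exact this.aestronglyMeasurable
    rw [e2]
    exact (Complex.re_le_norm _).trans hprod
  have h3 : ∫ _ : Ω, (1 : ℝ) ∂P = 1 := by simp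
  rw [h3] at h1
  have h4 : 1 - Real.exp (-a) ≤ t * ∫ ω, |Z ω| ∂P := by
    linarith
  have h5 : M * s * (1 - Real.exp (-a)) ≤ M * s * (t * ∫ ω, |Z ω| ∂P) :=
    mul_le_mul_of_nonneg_left h4 (by positivity)
  have h6 : M * s * (t * ∫ ω, |Z ω| ∂P) = ∫ ω, |Z ω| ∂P := by
    rw [ht]
    field_simp
  rw [h6] at h5
  rw [hZ] at h5
  calc M * (1 - Real.exp (-a)) * s = M * s * (1 - Real.exp (-a)) := by ring
    _ ≤ _ := h5

end Q294.Pm
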