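import Pool.Agent.Q294.Pm.Stm

/-!
Project PM: jobs M, N, O.
-/

set_option autoImplicit false

open MeasureTheory ProbabilityTheory
open scoped ENNReal NNReal

namespace Q294.Pm

universe u

/-! ### Job O -/

theorem encard_iUnion_tsum {α ι : Type*} (A : ι → Set α) (h : Pairwise (Function.onFun Disjoint A)) :
    ((⋃ i, A i).encard : ℝ≥0∞) = ∑' i, ((A i).encard : ℝ≥0∞) := by
  rw [← ENNReal.tsum_set_one]
  have h1 := (Set.unionEqSigmaOfDisjoint h).tsum_eq (fun _ => (1 : ℝ≥0∞))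
  rw [h1, ENNReal.tsum_sigma']
  refine tsum_congr fun i => ?_
  rw [← ENNReal.tsum_set_one]

theorem nb_encard {q : ℕ} (B : Set (ℂ × Fin q)) (F : Family q) :
    (({p | p ∈ F.pts ∧ p ∈ B} : Set (ℂ × Fin q)).encard : ℝ≥0∞) = nb B F := by
  have hfin : ({p | p ∈ F.pts ∧ p ∈ B} : Set (ℂ × Fin q)).Finite :=
    F.pts.finite_toSet.subset fun p hp => hp.1
  unfold nb
  rw [← hfin.cast_ncard_eq]
  rfl

theorem t_O : S_O := by
  intro q M hM
  constructor
  · intro i B
    have h1 : (points M i ∩ B).encard =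
        (⋃ F : M, ({p | p ∈ F.1.pts ∧ p ∈ B ×ˢ {i}} : Set (ℂ × Fin q))).encard := by
      have hinj : Function.Injective fun x : ℂ => (x, i) := fun a b h => (Prod.ext_iff.1 h).1
      rw [← hinj.encard_image]
      congr 1
      ext p
      simp only [Set.mem_image, Set.mem_inter_iff, Set.mem_iUnion, points]
      constructor
      · rintro ⟨x, ⟨⟨F, hF, hx⟩, hxB⟩, rfl⟩
        exact ⟨⟨F, hF⟩, hx, hxB, rfl⟩
      · rintro ⟨⟨F, hF⟩, hp, hpB, hpi⟩
        have hpi' : p.2 = i := hpi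
        refine ⟨p.1, ⟨⟨F, hF, ?_⟩, hpB⟩, ?_⟩
        · rw [← hpi']
          exact hp
        · rw [← hpi']
    rw [h1, encard_iUnion_tsum]
    · exact tsum_congr fun F => nb_encard _ _
    · intro F G hFG
      rw [Function.onFun, Set.disjoint_left]
      intro p hp hp'
      exact (Finset.disjoint_left.1 (hM F.1 F.2 G.1 G.2 fun h => hFG (Subtype.ext h))) hp.1 hp'.1
  · intro B r
    have h1 : far M B r =
        ⋃ F : M, ({p | p ∈ F.1.pts ∧ p ∈ B ×ˢ Set.univ ∧ r < diam F.1} : Set (ℂ × Fin q)) := by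
      ext p
      simp only [far, Set.mem_iUnion]
      constructor
      · rintro ⟨hB, F, hF, hp, hr⟩
        exact ⟨⟨F, hF⟩, hp, ⟨hB, trivial⟩, hr⟩
      · rintro ⟨⟨F, hF⟩, hp, ⟨hB, _⟩, hr⟩
        exact ⟨hB, F, hF, hp, hr⟩
    rw [h1, encard_iUnion_tsum]
    · refine tsum_congr fun F => ?_
      by_cases hr : r < diam F.1
      · rw [if_pos hr, ← nb_encard]
        congr 2
        ext p
        exact ⟨fun h => ⟨h.1, h.2.1⟩, fun h => ⟨h.1, h.2, hr⟩⟩
      · rw [if_neg hr]
        have : ({p | p ∈ F.1.pts ∧ p ∈ B ×ˢ Set.univ ∧ r < diam F.1} : Set (ℂ × Fin q)) = ∅ := by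
          ext p
          simp only [Set.mem_empty_iff_false, iff_false]
          exact fun h => hr h.2.2
        rw [this]
        simp
    · intro F G hFG
      rw [Function.onFun, Set.disjoint_left]
      intro p hp hp'
      exact (Finset.disjoint_left.1 (hM F.1 F.2 G.1 G.2 fun h => hFG (Subtype.ext h))) hp.1 hp'.1

/-! ### Job N -/

theorem meas_nb {q : ℕ} {B : Set (ℂ × Fin q)} (hB : MeasurableSet B) :
    Measurable (nb B : Family q → ℕ) := by
  rw [measurable_iff_comap_le]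
  exact le_iSup (fun B : {B : Set (ℂ × Fin q) // MeasurableSet B} =>
    MeasurableSpace.comap (fun F : Family q => {p | p ∈ F.pts ∧ p ∈ B.1}.ncard) ⊤) ⟨B, hB⟩

theorem nb_pos {q : ℕ} {B : Set (ℂ × Fin q)} {F : Family q} :
    1 ≤ nb B F ↔ ∃ p ∈ F.pts, p ∈ B := by
  have hfin : ({p | p ∈ F.pts ∧ p ∈ B} : Set (ℂ × Fin q)).Finite :=
    F.pts.finite_toSet.subset fun p hp => hp.1
  unfold nb
  rw [Nat.one_le_iff_ne_zero, Ne, Set.ncard_eq_zero hfin, ← Ne, ← Set.nonempty_iff_ne_empty]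
  exact ⟨fun ⟨p, h1, h2⟩ => ⟨p, h1, h2⟩, fun ⟨p, h1, h2⟩ => ⟨p, h1, h2⟩⟩

theorem diam_bdd {q : ℕ} (F : Family q) : Bornology.IsBounded {x : ℂ | ∃ i, (x, i) ∈ F.pts} := by
  have : {x : ℂ | ∃ i, (x, i) ∈ F.pts} = Prod.fst '' (F.pts : Set (ℂ × Fin q)) := by
    ext x
    constructor
    · rintro ⟨i, h⟩
      exact ⟨(x, i), h, rfl⟩
    · rintro ⟨p, h, rfl⟩
      exact ⟨p.2, h⟩
  rw [this]
  exact (F.pts.finite_toSet.image _).isBounded

theorem diam_iff {q : ℕ} {r : ℝ} (hr : 0 ≤ r) (F : Family q) :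
    r < diam F ↔ ∃ p ∈ F.pts, ∃ p' ∈ F.pts, r < dist p.1 p'.1 := by
  constructor
  · intro h
    by_contra hc
    push Not at hc
    refine absurd (Metric.diam_le_of_forall_dist_le hr ?_) (not_le.2 h)
    rintro x ⟨i, hx⟩ y ⟨j, hy⟩
    exact hc _ hx _ hy
  · rintro ⟨p, hp, p', hp', h⟩
    refine h.trans_le ?_
    exact Metric.dist_le_diam_of_mem (diam_bdd F) ⟨p.2, hp⟩ ⟨p'.2, hp'⟩

theorem meas_diam {q : ℕ} {r : ℝ} (hr : 0 ≤ r) : MeasurableSet {F : Family q | r < diam F} := by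
  have h1 : {F : Family q | r < diam F} = ⋃ (m : ℕ) (n : ℕ) (ρ : ℚ)
      (_ : r + 2 * (ρ : ℝ) < dist (TopologicalSpace.denseSeq ℂ m) (TopologicalSpace.denseSeq ℂ n)),
      {F : Family q | 1 ≤ nb (Metric.ball (TopologicalSpace.denseSeq ℂ m) ρ ×ˢ Set.univ) F ∧
        1 ≤ nb (Metric.ball (TopologicalSpace.denseSeq ℂ n) ρ ×ˢ Set.univ) F} := by
    ext F
    simp only [Set.mem_iUnion]
    constructor
    · intro h
      obtain ⟨p, hp, p', hp', hd⟩ := (diam_iff hr F).1 h
      obtain ⟨ρ, hρ0, hρ⟩ := exists_rat_btwn (show (0 : ℝ) < (dist p.1 p'.1 - r) / 4 by linarith)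
      have hb1 := (TopologicalSpace.denseRange_denseSeq ℂ).exists_dist_lt p.1 hρ0
      have hb2 := (TopologicalSpace.denseRange_denseSeq ℂ).exists_dist_lt p'.1 hρ0
      obtain ⟨m, hm⟩ := hb1
      obtain ⟨n, hn⟩ := hb2
      refine ⟨m, n, ρ, ?_, ?_⟩
      · have t1 := dist_triangle p.1 (TopologicalSpace.denseSeq ℂ m) p'.1
        have t2 := dist_triangle (TopologicalSpace.denseSeq ℂ m) (TopologicalSpace.denseSeq ℂ n) p'.1
        rw [dist_comm] at hn
        linarith
      · show 1 ≤ nb _ F ∧ 1 ≤ nb _ F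
        rw [nb_pos, nb_pos]
        exact ⟨⟨p, hp, hm, trivial⟩, ⟨p', hp', hn, trivial⟩⟩
    · rintro ⟨m, n, ρ, hd, h⟩
      have h' : 1 ≤ nb _ F ∧ 1 ≤ nb _ F := h
      rw [nb_pos, nb_pos] at h'
      obtain ⟨⟨p, hp, hm, _⟩, ⟨p', hp', hn, _⟩⟩ := h'
      refine (diam_iff hr F).2 ⟨p, hp, p', hp', ?_⟩
      have hm' : dist p.1 (TopologicalSpace.denseSeq ℂ m) < ρ := hm
      have hn' : dist p'.1 (TopologicalSpace.denseSeq ℂ n) < ρ := hn
      have t1 := dist_triangle (TopologicalSpace.denseSeq ℂ m) p.1 (TopologicalSpace.denseSeq ℂ n)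
      have t2 := dist_triangle p.1 p'.1 (TopologicalSpace.denseSeq ℂ n)
      rw [dist_comm] at hm'
      linarith
  rw [h1]
  refine MeasurableSet.iUnion fun m => MeasurableSet.iUnion fun n => MeasurableSet.iUnion fun ρ =>
    MeasurableSet.iUnion fun _ => ?_
  have hm : ∀ k : ℕ, MeasurableSet (Metric.ball (TopologicalSpace.denseSeq ℂ k) (ρ : ℝ) ×ˢ
      (Set.univ : Set (Fin q))) := fun k => Metric.isOpen_ball.measurableSet.prod MeasurableSet.univ
  exact (measurableSet_le measurable_const (meas_nb (hm m))).inter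
    (measurableSet_le measurable_const (meas_nb (hm n)))

theorem shift_pts {q : ℕ} (t : ℂ) (F : Family q) (p : ℂ × Fin q) :
    (p.1 + t, p.2) ∈ (shift t F).pts ↔ p ∈ F.pts := by
  unfold shift
  simp only [Finset.mem_image]
  constructor
  · rintro ⟨p', h, e⟩
    have e1 := (Prod.ext_iff.1 e).1
    have e2 := (Prod.ext_iff.1 e).2
    simp only at e1 e2
    have : p' = p := Prod.ext (add_right_cancel e1) e2
    rw [← this]
    exact h
  · intro h
    exact ⟨p, h, rfl⟩

theorem mem_shift {q : ℕ} (t : ℂ) (F : Family q) (p : ℂ × Fin q) :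
    p ∈ (shift t F).pts ↔ (p.1 - t, p.2) ∈ F.pts := by
  rw [← shift_pts t F (p.1 - t, p.2)]
  simp

theorem diam_shift {q : ℕ} (t : ℂ) (F : Family q) : diam (shift t F) = diam F := by
  unfold diam
  have : {x : ℂ | ∃ i, (x, i) ∈ (shift t F).pts} =
      (IsometryEquiv.addRight t) '' {x : ℂ | ∃ i, (x, i) ∈ F.pts} := by
    ext x
    simp only [Set.mem_image]
    constructor
    · rintro ⟨i, h⟩
      have h' := (mem_shift t F (x, i)).1 h
      exact ⟨x - t, ⟨i, h'⟩, by simp⟩
    · rintro ⟨y, ⟨i, h⟩, rfl⟩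
      exact ⟨i, (shift_pts t F (y, i)).2 h⟩
  rw [this, (IsometryEquiv.addRight t).isometry.diam_image]

theorem nb_shift {q : ℕ} (t : ℂ) (F : Family q) (B : Set (ℂ × Fin q)) :
    nb B (shift t F) = nb {p | (p.1 + t, p.2) ∈ B} F := by
  unfold nb
  have hinj : Function.Injective fun p : ℂ × Fin q => (p.1 + t, p.2) := by
    intro a b h
    have e1 := (Prod.ext_iff.1 h).1
    have e2 := (Prod.ext_iff.1 h).2
    simp only at e1 e2
    exact Prod.ext (add_right_cancel e1) e2
  rw [← Set.ncard_image_of_injective {p : ℂ × Fin q | p ∈ F.pts ∧ p ∈ {p | (p.1 + t, p.2) ∈ B}} hinj]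
  congr 1
  ext p
  simp only [Set.mem_image]
  constructor
  · rintro ⟨h1, h2⟩
    refine ⟨(p.1 - t, p.2), ⟨(mem_shift t F p).1 h1, ?_⟩, by simp⟩
    show (p.1 - t + t, p.2) ∈ B
    rw [sub_add_cancel]
    exact h2
  · rintro ⟨p', ⟨h1, h2⟩, rfl⟩
    exact ⟨(shift_pts t F p').2 h1, h2⟩

theorem t_N : S_N := fun q =>
  ⟨fun _ hB => meas_nb hB, fun _ hr => meas_diam hr, diam_shift, fun t F B => nb_shift t F B⟩

/-! ### Job M -/

theorem shift_inj {q : ℕ} (t : ℂ) : Function.Injective (shift t : Family q → Family q) := by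
  intro F G h
  ext p
  rw [← shift_pts t F p, ← shift_pts t G p, h]

theorem meas_shift {q : ℕ} (t : ℂ) : Measurable (shift t : Family q → Family q) := by
  rw [measurable_iff_comap_le]
  have h0 : (inferInstance : MeasurableSpace (Family q)) =
      ⨆ B : {B : Set (ℂ × Fin q) // MeasurableSet B},
        MeasurableSpace.comap (fun F : Family q => {p | p ∈ F.pts ∧ p ∈ B.1}.ncard) ⊤ := rfl
  have h1 : MeasurableSpace.comap (shift t : Family q → Family q) inferInstance =
      ⨆ B : {B : Set (ℂ × Fin q) // MeasurableSet B},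
        MeasurableSpace.comap (fun F : Family q => nb B.1 (shift t F)) ⊤ := by
    rw [h0, MeasurableSpace.comap_iSup]
    refine iSup_congr fun B => ?_
    rw [MeasurableSpace.comap_comp]
    rfl
  refine le_trans (le_of_eq h1) (iSup_le fun B => ?_)
  have h2 : (fun F : Family q => nb B.1 (shift t F)) = nb {p | (p.1 + t, p.2) ∈ B.1} := by
    funext F
    exact nb_shift t F B.1
  rw [h2, ← measurable_iff_comap_le]
  refine meas_nb ?_
  have : Measurable fun p : ℂ × Fin q => (p.1 + t, p.2) :=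
    (measurable_fst.add_const t).prodMk measurable_snd
  exact this B.2

theorem t_M : S_M.{u} := by
  intro q Ω _ P _ M hmeas hinv g hg
  obtain ⟨κ, hκ⟩ : ∃ κ : Ω → Measure (Family q),
      κ = fun ω => Measure.sum fun F : M ω => Measure.dirac F.1 := ⟨_, rfl⟩
  have hκA : ∀ ω A, MeasurableSet A → κ ω A = ((M ω ∩ A).encard : ℝ≥0∞) := by
    intro ω A hA
    rw [hκ]
    simp only
    rw [Measure.sum_apply _ hA, ← ENNReal.tsum_set_one]
    have e1 : ∀ F : M ω, Measure.dirac F.1 A = A.indicator (1 : Family q → ℝ≥0∞) F.1 :=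
      fun F => Measure.dirac_apply' _ hA
    simp only [e1]
    rw [tsum_subtype (M ω) (A.indicator (1 : Family q → ℝ≥0∞)), Set.indicator_indicator,
      tsum_subtype (M ω ∩ A) (fun _ => (1 : ℝ≥0∞))]
    rfl
  have hκm : Measurable κ := by
    refine Measure.measurable_of_measurable_coe _ fun A hA => ?_
    have : (fun ω => κ ω A) = fun ω => ((M ω ∩ A).encard : ℝ≥0∞) := by
      funext ω
      exact hκA ω A hA
    rw [this]
    exact (measurable_from_top (f := fun n : ℕ∞ => (n : ℝ≥0∞))).comp (hmeas A hA)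
  have hκg : ∀ (h : Family q → ℝ≥0∞), Measurable h → ∀ ω, ∫⁻ F, h F ∂(κ ω) = ∑' F : M ω, h F.1 := by
    intro h hh ω
    rw [hκ]
    simp only
    rw [lintegral_sum_measure]
    exact tsum_congr fun F => lintegral_dirac' _ hh
  have hbind : ∀ (h : Family q → ℝ≥0∞), Measurable h →
      ∫⁻ F, h F ∂(P.bind κ) = ∫⁻ ω, ∑' F : M ω, h F.1 ∂P := by
    intro h hh
    rw [Measure.lintegral_bind hκm.aemeasurable hh.aemeasurable]
    exact lintegral_congr fun ω => hκg h hh ω
  constructor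
  · have : (fun ω => ∑' F : M ω, g F.1) = fun ω => ∫⁻ F, g F ∂(κ ω) := by
      funext ω
      exact (hκg g hg ω).symm
    rw [this]
    exact (Measure.measurable_lintegral hg).comp hκm
  · intro t
    have hmap : (P.bind κ).map (shift t) = P.bind κ := by
      ext A hA
      rw [Measure.map_apply (meas_shift t) hA, Measure.bind_apply (meas_shift t hA) hκm.aemeasurable,
        Measure.bind_apply hA hκm.aemeasurable]
      have e1 : ∀ ω, κ ω (shift t ⁻¹' A) = ((shift t '' M ω ∩ A).encard : ℝ≥0∞) := by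
        intro ω
        rw [hκA ω _ (meas_shift t hA)]
        rw [← (shift_inj t).encard_image (M ω ∩ shift t ⁻¹' A), Set.image_inter_preimage]
      simp only [e1]
      have e2 : ∀ ω, κ ω A = ((M ω ∩ A).encard : ℝ≥0∞) := fun ω => hκA ω A hA
      simp only [e2]
      have hlaw := hinv t Unit (fun _ => A) (fun _ => hA)
      have hm1 : Measurable fun ω => (fun _ : Unit => (shift t '' M ω ∩ A).encard) := by
        refine measurable_pi_lambda _ fun _ => ?_
        have : (fun ω => (shift t '' M ω ∩ A).encard) = fun ω => (M ω ∩ shift t ⁻¹' A).encard := by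
          funext ω
          rw [← (shift_inj t).encard_image (M ω ∩ shift t ⁻¹' A), Set.image_inter_preimage]
        rw [this]
        exact hmeas _ (meas_shift t hA)
      have hm2 : Measurable fun ω => (fun _ : Unit => (M ω ∩ A).encard) :=
        measurable_pi_lambda _ fun _ => hmeas A hA
      have hm3 : Measurable fun v : Unit → ℕ∞ => ((v ()) : ℝ≥0∞) :=
        (measurable_from_top (f := fun n : ℕ∞ => (n : ℝ≥0∞))).comp (measurable_pi_apply ())
      have h1 := lintegral_map (μ := P) hm3 hm1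
      have h2 := lintegral_map (μ := P) hm3 hm2
      rw [← h1, ← h2, hlaw]
    rw [← hbind g hg, ← hbind (fun F => g (shift t F)) (hg.comp (meas_shift t))]
    conv_rhs => rw [← hmap]
    rw [lintegral_map hg (meas_shift t)]

end Q294.Pm
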