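import Pool.Agent.Q294.Pm.T

/-!
Project PM: job P (balance by mass transport).
-/

set_option autoImplicit false

open MeasureTheory ProbabilityTheory
open scoped ENNReal NNReal

namespace Q294.Pm

universe u

/-- integer unit squares -/
def cellZ (z : ℤ × ℤ) : Set ℂ := {x | ⌊x.re⌋ = z.1 ∧ ⌊x.im⌋ = z.2}

theorem meas_cellZ (z : ℤ × ℤ) : MeasurableSet (cellZ z) := by
  have h1 : Measurable fun x : ℂ => ⌊x.re⌋ := Int.measurable_floor.comp Complex.measurable_re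
  have h2 : Measurable fun x : ℂ => ⌊x.im⌋ := Int.measurable_floor.comp Complex.measurable_im
  exact (h1 (measurableSet_singleton z.1)).inter (h2 (measurableSet_singleton z.2))

theorem cellZ_zero : cellZ 0 = U (0, 0) := by
  ext x
  simp only [cellZ, U, Prod.fst_zero, Prod.snd_zero, Nat.cast_zero, zero_add,
    Int.floor_eq_zero_iff, Set.mem_Ico]
  exact ⟨fun h => ⟨h.1.1, h.1.2, h.2.1, h.2.2⟩, fun h => ⟨⟨h.1, h.2.1⟩, h.2.2.1, h.2.2.2⟩⟩

/-- the translation -/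
noncomputable def tz (z : ℤ × ℤ) : ℂ := (z.1 : ℂ) + z.2 * Complex.I

theorem nb_cell_shift {q : ℕ} (a z : ℤ × ℤ) (S : Set (Fin q)) (F : Family q) :
    nb (cellZ a ×ˢ S) (shift (tz z) F) = nb (cellZ (a - z) ×ˢ S) F := by
  rw [nb_shift]
  congr 1
  ext p
  simp only [Set.mem_prod, cellZ]
  have e1 : (p.1 + tz z).re = p.1.re + z.1 := by simp [tz]
  have e2 : (p.1 + tz z).im = p.1.im + z.2 := by simp [tz]
  show ((⌊(p.1 + tz z).re⌋ = a.1 ∧ ⌊(p.1 + tz z).im⌋ = a.2) ∧ p.2 ∈ S) ↔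
    ((⌊p.1.re⌋ = (a - z).1 ∧ ⌊p.1.im⌋ = (a - z).2) ∧ p.2 ∈ S)
  rw [e1, e2, Int.floor_add_intCast, Int.floor_add_intCast, Prod.fst_sub, Prod.snd_sub]
  constructor
  · rintro ⟨⟨h1, h2⟩, h3⟩
    exact ⟨⟨by omega, by omega⟩, h3⟩
  · rintro ⟨⟨h1, h2⟩, h3⟩
    exact ⟨⟨by omega, by omega⟩, h3⟩

theorem sum_cells {q : ℕ} (S : Set (Fin q)) (F : Family q) :
    ∑' z : ℤ × ℤ, (nb (cellZ z ×ˢ S) F : ℝ≥0∞) = nb (Set.univ ×ˢ S) F := by
  have h1 : ({p | p ∈ F.pts ∧ p ∈ Set.univ ×ˢ S} : Set (ℂ × Fin q)) =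
      ⋃ z : ℤ × ℤ, ({p | p ∈ F.pts ∧ p ∈ cellZ z ×ˢ S} : Set (ℂ × Fin q)) := by
    ext p
    simp only [Set.mem_iUnion]
    constructor
    · rintro ⟨h1, h2⟩
      exact ⟨(⌊p.1.re⌋, ⌊p.1.im⌋), h1, ⟨rfl, rfl⟩, h2.2⟩
    · rintro ⟨z, h1, h2⟩
      exact ⟨h1, trivial, h2.2⟩
  rw [← nb_encard, h1, encard_iUnion_tsum]
  · exact tsum_congr fun z => (nb_encard _ _).symm
  · intro z z' hzz
    rw [Function.onFun, Set.disjoint_left]
    rintro p ⟨_, ⟨h1, h2⟩, _⟩ ⟨_, ⟨h1', h2'⟩, _⟩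
    exact hzz (Prod.ext (h1.symm.trans h1') (h2.symm.trans h2'))

theorem sum_neg_cells {q : ℕ} (S : Set (Fin q)) (F : Family q) :
    ∑' z : ℤ × ℤ, (nb (cellZ (-z) ×ˢ S) F : ℝ≥0∞) = nb (Set.univ ×ˢ S) F := by
  rw [← sum_cells S F]
  have e := (Equiv.neg (ℤ × ℤ)).tsum_eq (fun z => (nb (cellZ z ×ˢ S) F : ℝ≥0∞))
  simp only [Equiv.neg_apply] at e
  exact e

/-- number of points -/
noncomputable def cc {q : ℕ} (F : Family q) : ℝ≥0∞ := nb (Set.univ ×ˢ Set.univ) F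

/-- proportion of the points in the unit square -/
noncomputable def uu {q : ℕ} (F : Family q) : ℝ≥0∞ := nb (cellZ 0 ×ˢ Set.univ) F / cc F

theorem meas_cc {q : ℕ} : Measurable (cc : Family q → ℝ≥0∞) :=
  meas_cast (MeasurableSet.univ.prod MeasurableSet.univ)

theorem meas_uu {q : ℕ} : Measurable (uu : Family q → ℝ≥0∞) :=
  (meas_cast ((meas_cellZ 0).prod MeasurableSet.univ)).div meas_cc

theorem cc_shift {q : ℕ} (t : ℂ) (F : Family q) : cc (shift t F) = cc F := by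
  unfold cc
  rw [nb_shift]
  congr 2

theorem nbi_shift {q : ℕ} (t : ℂ) (i : Fin q) (F : Family q) :
    nb (Set.univ ×ˢ {i}) (shift t F) = nb (Set.univ ×ˢ {i}) F := by
  rw [nb_shift]
  congr 1

theorem nb_mono {q : ℕ} {B B' : Set (ℂ × Fin q)} (h : B ⊆ B') (F : Family q) : nb B F ≤ nb B' F := by
  have hfin : ({p | p ∈ F.pts ∧ p ∈ B'} : Set (ℂ × Fin q)).Finite :=
    F.pts.finite_toSet.subset fun p hp => hp.1
  exact Set.ncard_le_ncard (fun p hp => ⟨hp.1, h hp.2⟩) hfin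

theorem cc_ne_top {q : ℕ} (F : Family q) : cc F ≠ ∞ := ENNReal.natCast_ne_top _

section

variable {q : ℕ} {Ω : Type u} [MeasurableSpace Ω] {P : Measure Ω} [IsProbabilityMeasure P]
  {lam : Fin q → ℝ} {V : Finset (Fin q → ℕ)} {M : Ω → Set (Family q)}

theorem transport (hM : IsScheme P lam V M) (i : Fin q) :
    ∫⁻ ω, ∑' F : M ω, (nb (Set.univ ×ˢ {i}) F.1 : ℝ≥0∞) * uu F.1 ∂P = ENNReal.ofReal (lam i) := by
  -- the functions
  obtain ⟨G, hG⟩ : ∃ G : ℤ × ℤ → Family q → ℝ≥0∞, G = fun z F =>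
      (nb (cellZ 0 ×ˢ {i}) F : ℝ≥0∞) * (nb (cellZ z ×ˢ Set.univ) F / cc F) := ⟨_, rfl⟩
  have hmi : MeasurableSet (cellZ 0 ×ˢ ({i} : Set (Fin q))) :=
    (meas_cellZ 0).prod (measurableSet_singleton i)
  have hGm : ∀ z, Measurable (G z) := by
    intro z
    rw [hG]
    exact (meas_cast hmi).mul ((meas_cast ((meas_cellZ z).prod MeasurableSet.univ)).div meas_cc)
  have h1 : ∀ F : Family q, ∑' z, G z F = (nb (cellZ 0 ×ˢ {i}) F : ℝ≥0∞) := by
    intro F
    rw [hG]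
    simp only
    rw [ENNReal.tsum_mul_left]
    simp only [div_eq_mul_inv]
    rw [ENNReal.tsum_mul_right, sum_cells]
    by_cases hc : cc F = 0
    · have : nb (cellZ 0 ×ˢ {i}) F = 0 := by
        have h0 : nb (Set.univ ×ˢ Set.univ) F = 0 := by
          unfold cc at hc
          exact_mod_cast hc
        have h2 := nb_mono (B := cellZ 0 ×ˢ {i}) (B' := Set.univ ×ˢ Set.univ)
          (fun p _ => ⟨trivial, trivial⟩) F
        omega
      rw [this]
      simp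
    · have : (nb (Set.univ ×ˢ Set.univ) F : ℝ≥0∞) * (cc F)⁻¹ = 1 :=
        ENNReal.mul_inv_cancel hc (cc_ne_top F)
      rw [this, mul_one]
  have h2 : ∀ z (F : Family q), G z (shift (tz z) F) =
      (nb (cellZ (-z) ×ˢ {i}) F : ℝ≥0∞) * uu F := by
    intro z F
    rw [hG]
    simp only
    rw [nb_cell_shift, nb_cell_shift, cc_shift, zero_sub, sub_self]
    rfl
  have h3 : ∫⁻ ω, ∑' F : M ω, (nb (cellZ 0 ×ˢ {i}) F.1 : ℝ≥0∞) ∂P = ENNReal.ofReal (lam i) := by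
    rw [← (mean_points hM.poisson i (0, 0)).2]
    refine lintegral_congr_ae ?_
    filter_upwards [hM.disjoint] with ω h
    rw [← cellZ_zero]
    exact ((t_O q (M ω) h).1 i (cellZ 0)).symm
  have h4 : ∀ ω, ∑' F : M ω, (nb (cellZ 0 ×ˢ {i}) F.1 : ℝ≥0∞) = ∑' z, ∑' F : M ω, G z F.1 := by
    intro ω
    rw [ENNReal.tsum_comm]
    exact tsum_congr fun F => (h1 F.1).symm
  have h4' : ∫⁻ ω, ∑' F : M ω, (nb (cellZ 0 ×ˢ {i}) F.1 : ℝ≥0∞) ∂P =
      ∑' z, ∫⁻ ω, ∑' F : M ω, G z F.1 ∂P := by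
    rw [lintegral_congr h4]
    exact lintegral_tsum fun z => ((camp hM (hGm z)).1).aemeasurable
  obtain ⟨H, hH⟩ : ∃ H : ℤ × ℤ → Family q → ℝ≥0∞, H = fun z F =>
      (nb (cellZ (-z) ×ˢ {i}) F : ℝ≥0∞) * uu F := ⟨_, rfl⟩
  have hHm : ∀ z, Measurable (H z) := by
    intro z
    rw [hH]
    exact (meas_cast ((meas_cellZ _).prod (measurableSet_singleton i))).mul meas_uu
  have h5 : ∀ z, ∫⁻ ω, ∑' F : M ω, G z F.1 ∂P = ∫⁻ ω, ∑' F : M ω, H z F.1 ∂P := by
    intro z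
    have e1 := (camp hM (hGm z)).2 (tz z)
    rw [← e1]
    refine lintegral_congr fun ω => tsum_congr fun F => ?_
    rw [h2, hH]
  have h6 : ∑' z, ∫⁻ ω, ∑' F : M ω, H z F.1 ∂P = ∫⁻ ω, ∑' z, ∑' F : M ω, H z F.1 ∂P :=
    (lintegral_tsum fun z => ((camp hM (hHm z)).1).aemeasurable).symm
  have h7 : ∀ ω, ∑' z, ∑' F : M ω, H z F.1 =
      ∑' F : M ω, (nb (Set.univ ×ˢ {i}) F.1 : ℝ≥0∞) * uu F.1 := by
    intro ω
    rw [ENNReal.tsum_comm]
    refine tsum_congr fun F => ?_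
    rw [hH]
    simp only
    rw [ENNReal.tsum_mul_right, ← sum_neg_cells {i} F.1]
  rw [← h3, h4', tsum_congr h5, h6, lintegral_congr h7]

/-- weighted number of points -/
noncomputable def wt {q : ℕ} (a : Fin q → ℝ≥0∞) (F : Family q) : ℝ≥0∞ :=
  ∑ i, a i * nb (Set.univ ×ˢ {i}) F

theorem meas_nbi {q : ℕ} (i : Fin q) : Measurable fun F : Family q =>
    (nb (Set.univ ×ˢ {i}) F : ℝ≥0∞) :=
  meas_cast (MeasurableSet.univ.prod (measurableSet_singleton i))

theorem meas_wt {q : ℕ} (a : Fin q → ℝ≥0∞) : Measurable (wt a : Family q → ℝ≥0∞) := by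
  unfold wt
  exact Finset.measurable_sum _ fun i _ => (meas_nbi i).const_mul _

theorem wt_shift {q : ℕ} (a : Fin q → ℝ≥0∞) (t : ℂ) (F : Family q) : wt a (shift t F) = wt a F := by
  unfold wt
  simp only [nbi_shift]

theorem mean_wt (hM : IsScheme P lam V M) (a : Fin q → ℝ≥0∞) :
    ∫⁻ ω, ∑' F : M ω, wt a F.1 * uu F.1 ∂P = ∑ i, a i * ENNReal.ofReal (lam i) := by
  have h1 : ∀ ω, ∑' F : M ω, wt a F.1 * uu F.1 =
      ∑ i, a i * ∑' F : M ω, (nb (Set.univ ×ˢ {i}) F.1 : ℝ≥0∞) * uu F.1 := by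
    intro ω
    have e1 : ∀ F : M ω, wt a F.1 * uu F.1 =
        ∑ i, a i * ((nb (Set.univ ×ˢ {i}) F.1 : ℝ≥0∞) * uu F.1) := by
      intro F
      unfold wt
      rw [Finset.sum_mul]
      exact Finset.sum_congr rfl fun i _ => mul_assoc _ _ _
    simp only [e1]
    rw [Summable.tsum_finsetSum fun i _ => ENNReal.summable]
    exact Finset.sum_congr rfl fun i _ => ENNReal.tsum_mul_left
  simp only [h1]
  have hm : ∀ i, Measurable fun ω => ∑' F : M ω, (nb (Set.univ ×ˢ {i}) F.1 : ℝ≥0∞) * uu F.1 :=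
    fun i => (camp hM ((meas_nbi i).mul meas_uu)).1
  rw [lintegral_finsetSum _ fun i _ => (hm i).const_mul _]
  refine Finset.sum_congr rfl fun i _ => ?_
  rw [lintegral_const_mul _ (hm i), transport hM i]

theorem nb_type {q : ℕ} (i : Fin q) (F : Family q) : nb (Set.univ ×ˢ {i}) F = type F i := by
  unfold nb type
  rw [← Set.ncard_coe_finset]
  congr 1
  ext p
  simp

theorem wt_real {q : ℕ} (a : Fin q → ℝ) (F : Family q) :
    wt (fun i => ENNReal.ofReal (a i)) F = ENNReal.ofReal (∑ i, max (a i) 0 * type F i) := by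
  unfold wt
  rw [ENNReal.ofReal_sum_of_nonneg fun i _ => by positivity]
  refine Finset.sum_congr rfl fun i _ => ?_
  rw [nb_type, ENNReal.ofReal_mul (by positivity), ENNReal.ofReal_natCast]
  congr 1
  show ENNReal.ofReal (a i) = ENNReal.ofReal (max (a i) 0)
  rcases le_total 0 (a i) with h | h
  · rw [max_eq_left h]
  · rw [max_eq_right h, ENNReal.ofReal_of_nonpos h, ENNReal.ofReal_zero]

theorem max_sub (a : ℝ) : max a 0 - max (-a) 0 = a := by
  rcases le_total 0 a with h | h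
  · rw [max_eq_left h, max_eq_right (by linarith), sub_zero]
  · rw [max_eq_right h, max_eq_left (by linarith), zero_sub, neg_neg]

theorem type_sum {q : ℕ} (f : Fin q → ℝ) (F : Family q) :
    ∑ p ∈ F.pts, f p.2 = ∑ i, f i * type F i := by
  classical
  rw [← Finset.sum_fiberwise_of_maps_to (s := F.pts) (t := Finset.univ) (g := fun p => p.2)
    (fun p _ => Finset.mem_univ _)]
  refine Finset.sum_congr rfl fun i _ => ?_
  unfold type
  rw [Finset.sum_congr rfl (g := fun _ => f i), Finset.sum_const, nsmul_eq_mul]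
  · ring
  · intro p hp
    rw [(Finset.mem_filter.1 hp).2]

end

theorem t_P : S_P.{u} := by
  intro q Ω _ P _ lam V M f hlam hM hf hfV
  obtain ⟨α, hα⟩ : ∃ α : Fin q → ℝ≥0∞, α = fun i => ENNReal.ofReal (f i) := ⟨_, rfl⟩
  obtain ⟨β, hβ⟩ : ∃ β : Fin q → ℝ≥0∞, β = fun i => ENNReal.ofReal (-f i) := ⟨_, rfl⟩
  have hαF : ∀ F : Family q, wt α F = ENNReal.ofReal (∑ i, max (f i) 0 * type F i) := by
    intro F
    rw [hα]
    exact wt_real f F
  have hβF : ∀ F : Family q, wt β F = ENNReal.ofReal (∑ i, max (-f i) 0 * type F i) := by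
    intro F
    rw [hβ]
    exact wt_real (fun i => -f i) F
  have hpos : ∀ (a : Fin q → ℝ) (F : Family q), 0 ≤ ∑ i, max (a i) 0 * (type F i : ℝ) := by
    intro a F
    exact Finset.sum_nonneg fun i _ => by positivity
  have hdiff : ∀ F : Family q, ∑ i, max (f i) 0 * (type F i : ℝ) - ∑ i, max (-f i) 0 * (type F i : ℝ) =
      ∑ i, f i * type F i := by
    intro F
    rw [← Finset.sum_sub_distrib]
    refine Finset.sum_congr rfl fun i _ => ?_
    rw [← sub_mul, max_sub]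
  -- equality of the weights means balance
  have hiff : ∀ F : Family q, wt α F = wt β F → ∑ p ∈ F.pts, f p.2 = 0 := by
    intro F h
    rw [hαF, hβF, ENNReal.ofReal_eq_ofReal_iff (hpos _ _) (hpos (fun i => -f i) F)] at h
    rw [type_sum, ← hdiff F, h, sub_self]
  have hmean : ∑ i, α i * ENNReal.ofReal (lam i) = ∑ i, β i * ENNReal.ofReal (lam i) := by
    have e : ∀ a : Fin q → ℝ, ∑ i, ENNReal.ofReal (a i) * ENNReal.ofReal (lam i) =
        ENNReal.ofReal (∑ i, max (a i) 0 * lam i) := by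
      intro a
      rw [ENNReal.ofReal_sum_of_nonneg fun i _ => mul_nonneg (le_max_right _ _) (hlam i).le]
      refine Finset.sum_congr rfl fun i _ => ?_
      rw [ENNReal.ofReal_mul (le_max_right _ _)]
      congr 1
      rcases le_total 0 (a i) with h | h
      · rw [max_eq_left h]
      · rw [max_eq_right h, ENNReal.ofReal_of_nonpos h, ENNReal.ofReal_zero]
    rw [hα, hβ]
    rw [e f, e fun i => -f i]
    congr 1
    have : ∑ i, max (f i) 0 * lam i - ∑ i, max (-f i) 0 * lam i = ∑ i, f i * lam i := by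
      rw [← Finset.sum_sub_distrib]
      refine Finset.sum_congr rfl fun i _ => ?_
      rw [← sub_mul, max_sub]
    linarith
  have hfin : ∑ i, β i * ENNReal.ofReal (lam i) ≠ ∞ := by
    rw [hβ]
    exact (ENNReal.sum_lt_top.2 fun i _ =>
      ENNReal.mul_lt_top ENNReal.ofReal_lt_top ENNReal.ofReal_lt_top).ne
  obtain ⟨Ga, hGa⟩ : ∃ Ga : Ω → ℝ≥0∞, Ga = fun ω => ∑' F : M ω, wt α F.1 * uu F.1 := ⟨_, rfl⟩
  obtain ⟨Gb, hGb⟩ : ∃ Gb : Ω → ℝ≥0∞, Gb = fun ω => ∑' F : M ω, wt β F.1 * uu F.1 := ⟨_, rfl⟩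
  have hGam : Measurable Ga := by
    rw [hGa]
    exact (camp hM ((meas_wt α).mul meas_uu)).1
  have hGbm : Measurable Gb := by
    rw [hGb]
    exact (camp hM ((meas_wt β).mul meas_uu)).1
  have hIa : ∫⁻ ω, Ga ω ∂P = ∑ i, α i * ENNReal.ofReal (lam i) := by
    rw [hGa]
    exact mean_wt hM α
  have hIb : ∫⁻ ω, Gb ω ∂P = ∑ i, β i * ENNReal.ofReal (lam i) := by
    rw [hGb]
    exact mean_wt hM β
  have hle : ∀ᵐ ω ∂P, ∀ F ∈ M ω, wt β F ≤ wt α F := by
    filter_upwards [hM.type_mem] with ω h F hF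
    rw [hαF, hβF]
    refine ENNReal.ofReal_le_ofReal ?_
    have := hfV _ (h F hF)
    have := hdiff F
    linarith
  have hGle : Gb ≤ᵐ[P] Ga := by
    filter_upwards [hle] with ω h
    rw [hGa, hGb]
    exact ENNReal.tsum_le_tsum fun F => by
      have := h F.1 F.2
      gcongr
  have hGeq : Gb =ᵐ[P] Ga := by
    refine ae_eq_of_ae_le_of_lintegral_le hGle ?_ hGam.aemeasurable ?_
    · rw [hIb]
      exact hfin
    · rw [hIa, hIb, hmean]
  have hGfin : ∀ᵐ ω ∂P, Gb ω < ∞ := by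
    refine ae_lt_top hGbm ?_
    rw [hIb]
    exact hfin
  have hbase : ∀ᵐ ω ∂P, ∀ F ∈ M ω, uu F ≠ 0 → wt α F = wt β F := by
    filter_upwards [hle, hGeq, hGfin] with ω h1 h2 h3 F hF hu
    by_contra hne
    have hlt : wt β F < wt α F := lt_of_le_of_ne (h1 F hF) (Ne.symm hne)
    have huu : uu F ≠ ∞ := by
      intro h
      rw [hGb] at h3
      have h4 : wt β F * uu F ≤ ∑' F : M ω, wt β F.1 * uu F.1 :=
        ENNReal.le_tsum (f := fun F : M ω => wt β F.1 * uu F.1) ⟨F, hF⟩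
      -- uu F ≤ 1
      unfold uu at h
      rw [ENNReal.div_eq_top] at h
      rcases h with ⟨h5, h6⟩ | ⟨h5, _⟩
      · apply h5
        have h7 : nb (Set.univ ×ˢ Set.univ) F = 0 := by
          unfold cc at h6
          exact_mod_cast h6
        have h8 := nb_mono (B := cellZ 0 ×ˢ (Set.univ : Set (Fin q))) (B' := Set.univ ×ˢ Set.univ)
          (fun p _ => ⟨trivial, trivial⟩) F
        have h9 : nb (cellZ 0 ×ˢ (Set.univ : Set (Fin q))) F = 0 := by omega
        rw [h9]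
        simp
      · exact ENNReal.natCast_ne_top _ h5
    have hlt2 : wt β F * uu F < wt α F * uu F := ENNReal.mul_lt_mul_left hu huu hlt
    have h5 : ∑' F : M ω, wt β F.1 * uu F.1 < ∑' F : M ω, wt α F.1 * uu F.1 := by
      refine ENNReal.tsum_lt_tsum (i := ⟨F, hF⟩) ?_ ?_ hlt2
      · rw [hGb] at h3
        exact h3.ne
      · intro F'
        have := h1 F'.1 F'.2
        gcongr
    rw [hGa, hGb] at h2
    exact h5.ne h2
  -- all the translates
  obtain ⟨bad, hbad⟩ : ∃ bad : Set (Family q), bad = {F | uu F ≠ 0 ∧ wt α F ≠ wt β F} := ⟨_, rfl⟩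
  have hbm : MeasurableSet bad := by
    rw [hbad]
    exact ((measurableSet_eq_fun meas_uu measurable_const).compl).inter
      ((measurableSet_eq_fun (meas_wt α) (meas_wt β)).compl)
  have hind : Measurable (bad.indicator (1 : Family q → ℝ≥0∞)) := measurable_one.indicator hbm
  have h0 : ∫⁻ ω, ∑' F : M ω, bad.indicator (1 : Family q → ℝ≥0∞) F.1 ∂P = 0 := by
    rw [lintegral_eq_zero_iff (camp hM hind).1]
    filter_upwards [hbase] with ω h
    simp only [Pi.zero_apply, ENNReal.tsum_eq_zero]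
    intro F
    rw [Set.indicator_of_notMem]
    rw [hbad]
    rintro ⟨h1, h2⟩
    exact h2 (h F.1 F.2 h1)
  have hz : ∀ z : ℤ × ℤ, ∀ᵐ ω ∂P, ∀ F ∈ M ω, shift (tz z) F ∉ bad := by
    intro z
    have h1 := (camp hM hind).2 (tz z)
    rw [h0, lintegral_eq_zero_iff] at h1
    · filter_upwards [h1] with ω h F hF hb
      simp only [Pi.zero_apply, ENNReal.tsum_eq_zero] at h
      have := h ⟨F, hF⟩
      simp only at this
      rw [Set.indicator_of_mem hb] at this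
      simp at this
    · exact (camp hM (hind.comp (meas_shift (tz z)))).1
  have hall := ae_all_iff.2 hz
  filter_upwards [hall, hM.nonempty] with ω h1 h2 F hF
  obtain ⟨p, hp⟩ := h2 F hF
  apply hiff
  by_contra hne
  obtain ⟨z, hzd⟩ : ∃ z : ℤ × ℤ, z = -(⌊p.1.re⌋, ⌊p.1.im⌋) := ⟨_, rfl⟩
  apply h1 z F hF
  rw [hbad]
  refine ⟨?_, ?_⟩
  · unfold uu
    rw [cc_shift, nb_cell_shift]
    rw [Ne, ENNReal.div_eq_zero_iff, not_or]
    refine ⟨?_, cc_ne_top F⟩
    have : 1 ≤ nb (cellZ (0 - z) ×ˢ (Set.univ : Set (Fin q))) F := by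
      rw [nb_pos]
      refine ⟨p, hp, ?_, trivial⟩
      rw [hzd]
      constructor <;> simp
    intro h
    have h' : nb (cellZ (0 - z) ×ˢ (Set.univ : Set (Fin q))) F = 0 := by exact_mod_cast h
    omega
  · rw [wt_shift, wt_shift]
    exact hne

end Q294.Pm
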