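import Pool.Agent.Q294.Pm.T

/-!
Project PM: job Q (the matching inequality).
-/

set_option autoImplicit false

namespace Q294.Pm

/-- the potential at a point of the plane -/
noncomputable def Phi (φ : ℕ × ℕ → ℝ) (x : ℂ) : ℝ := φ (⌊x.re⌋₊, ⌊x.im⌋₊)

theorem lip_nat {g : ℕ → ℝ} {ℓ : ℝ} (h : ∀ n, |g (n + 1) - g n| ≤ ℓ) (m n : ℕ) :
    |g m - g n| ≤ ℓ * |(m : ℝ) - n| := by
  have key : ∀ a k : ℕ, |g (a + k) - g a| ≤ ℓ * k := by
    intro a k
    induction k with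
    | zero => simp
    | succ j ih =>
      have e : g (a + (j + 1)) - g a = (g (a + j + 1) - g (a + j)) + (g (a + j) - g a) := by
        rw [← add_assoc]
        ring
      rw [e]
      refine (abs_add_le _ _).trans ?_
      have := h (a + j)
      push_cast
      linarith
  rcases le_total m n with hmn | hmn
  · obtain ⟨k, rfl⟩ := Nat.exists_eq_add_of_le hmn
    have := key m k
    rw [abs_sub_comm] at this
    refine this.trans (le_of_eq ?_)
    congr 1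
    push_cast
    rw [sub_add_cancel_left, abs_neg, Nat.abs_cast]
  · obtain ⟨k, rfl⟩ := Nat.exists_eq_add_of_le hmn
    have := key n k
    refine this.trans (le_of_eq ?_)
    congr 1
    push_cast
    rw [add_sub_cancel_left, Nat.abs_cast]

theorem floor_lip (a b : ℝ) : |((⌊a⌋₊ : ℕ) : ℝ) - (⌊b⌋₊ : ℕ)| ≤ |a - b| + 1 := by
  have key : ∀ a b : ℝ, ((⌊a⌋₊ : ℕ) : ℝ) - (⌊b⌋₊ : ℕ) ≤ |a - b| + 1 := by
    intro a b
    have h2 := Nat.lt_floor_add_one b
    have h3 := le_abs_self (a - b)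
    rcases le_total 0 a with ha | ha
    · have h1 := Nat.floor_le ha
      linarith
    · rw [Nat.floor_of_nonpos ha, Nat.cast_zero]
      have : (0 : ℝ) ≤ (⌊b⌋₊ : ℕ) := Nat.cast_nonneg _
      have := abs_nonneg (a - b)
      linarith
  rw [abs_le]
  constructor
  · have := key b a
    rw [abs_sub_comm] at this
    linarith
  · exact key a b

theorem Phi_lip {φ : ℕ × ℕ → ℝ} {ℓ : ℝ} (hℓ : 0 ≤ ℓ)
    (h1 : ∀ z : ℕ × ℕ, |φ (z.1 + 1, z.2) - φ z| ≤ ℓ)
    (h2 : ∀ z : ℕ × ℕ, |φ (z.1, z.2 + 1) - φ z| ≤ ℓ) (x y : ℂ) :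
    |Phi φ x - Phi φ y| ≤ ℓ * (2 * dist x y + 2) := by
  unfold Phi
  have e : φ (⌊x.re⌋₊, ⌊x.im⌋₊) - φ (⌊y.re⌋₊, ⌊y.im⌋₊) =
      (φ (⌊x.re⌋₊, ⌊x.im⌋₊) - φ (⌊y.re⌋₊, ⌊x.im⌋₊)) +
        (φ (⌊y.re⌋₊, ⌊x.im⌋₊) - φ (⌊y.re⌋₊, ⌊y.im⌋₊)) := by ring
  rw [e]
  refine (abs_add_le _ _).trans ?_
  have i1 := lip_nat (g := fun n => φ (n, ⌊x.im⌋₊)) (fun n => h1 (n, ⌊x.im⌋₊)) ⌊x.re⌋₊ ⌊y.re⌋₊
  have i2 := lip_nat (g := fun n => φ (⌊y.re⌋₊, n)) (fun n => h2 (⌊y.re⌋₊, n)) ⌊x.im⌋₊ ⌊y.im⌋₊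
  have i3 := floor_lip x.re y.re
  have i4 := floor_lip x.im y.im
  have i5 : |x.re - y.re| ≤ dist x y := by
    rw [Complex.dist_eq, ← Complex.sub_re]
    exact Complex.abs_re_le_norm _
  have i6 : |x.im - y.im| ≤ dist x y := by
    rw [Complex.dist_eq, ← Complex.sub_im]
    exact Complex.abs_im_le_norm _
  have i7 := mul_le_mul_of_nonneg_left (i3.trans (add_le_add_left i5 1)) hℓ
  have i8 := mul_le_mul_of_nonneg_left (i4.trans (add_le_add_left i6 1)) hℓ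
  calc _ ≤ ℓ * (dist x y + 1) + ℓ * (dist x y + 1) := add_le_add (i1.trans i7) (i2.trans i8)
    _ = ℓ * (2 * dist x y + 2) := by ring

theorem Phi_out {φ : ℕ × ℕ → ℝ} {N : ℕ} (h0 : ∀ z : ℕ × ℕ, (z.1 = 0 ∨ z.2 = 0) → φ z = 0)
    (h3 : ∀ z, z ∉ box N → φ z = 0) {x : ℂ} (hx : x ∉ sq N) : Phi φ x = 0 := by
  unfold Phi
  by_cases h : (⌊x.re⌋₊, ⌊x.im⌋₊) ∈ box N
  · apply h0
    by_contra hc
    push Not at hc
    apply hx
    unfold box at h
    simp only [Finset.mem_product, Finset.mem_range] at h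
    have e1 : 0 ≤ x.re := by
      by_contra h'
      exact hc.1 (Nat.floor_of_nonpos (by linarith))
    have e2 : 0 ≤ x.im := by
      by_contra h'
      exact hc.2 (Nat.floor_of_nonpos (by linarith))
    exact ⟨e1, (Nat.floor_lt e1).1 h.1, e2, (Nat.floor_lt e2).1 h.2⟩
  · exact h3 _ h

theorem Phi_le {φ : ℕ × ℕ → ℝ} {ℓ : ℝ} {N : ℕ} (hℓ : 0 ≤ ℓ)
    (h1 : ∀ z : ℕ × ℕ, |φ (z.1 + 1, z.2) - φ z| ≤ ℓ)
    (h0 : ∀ z : ℕ × ℕ, (z.1 = 0 ∨ z.2 = 0) → φ z = 0)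
    (h3 : ∀ z, z ∉ box N → φ z = 0) (x : ℂ) : |Phi φ x| ≤ ℓ * N := by
  by_cases hx : (⌊x.re⌋₊, ⌊x.im⌋₊) ∈ box N
  · have i1 := lip_nat (g := fun n => φ (n, ⌊x.im⌋₊)) (fun n => h1 (n, ⌊x.im⌋₊)) ⌊x.re⌋₊ 0
    rw [h0 (0, ⌊x.im⌋₊) (Or.inl rfl), sub_zero, Nat.cast_zero, sub_zero, Nat.abs_cast] at i1
    unfold box at hx
    simp only [Finset.mem_product, Finset.mem_range] at hx
    have : ((⌊x.re⌋₊ : ℕ) : ℝ) ≤ N := by exact_mod_cast hx.1.le
    exact i1.trans (mul_le_mul_of_nonneg_left this hℓ)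
  · unfold Phi
    rw [h3 _ hx, abs_zero]
    positivity

theorem dist_sq_le {N : ℕ} {x y : ℂ} (hx : x ∈ sq N) (hy : y ∈ sq N) : dist x y ≤ 2 * N := by
  obtain ⟨a1, a2, a3, a4⟩ := hx
  obtain ⟨b1, b2, b3, b4⟩ := hy
  rw [Complex.dist_eq]
  refine (Complex.norm_le_abs_re_add_abs_im _).trans ?_
  rw [Complex.sub_re, Complex.sub_im]
  have e1 : |x.re - y.re| ≤ N := by rw [abs_le]; constructor <;> linarith
  have e2 : |x.im - y.im| ≤ N := by rw [abs_le]; constructor <;> linarith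
  linarith

/-- dyadic bound of the minimum -/
theorem min_le (D : ℝ) (K : ℕ) :
    min D (2 ^ K) ≤ 1 + ∑ k ∈ Finset.range K, if (2 : ℝ) ^ k < D then (2 : ℝ) ^ k else 0 := by
  induction K with
  | zero => simp
  | succ n ih =>
    rw [Finset.sum_range_succ]
    by_cases h : (2 : ℝ) ^ n < D
    · rw [if_pos h]
      have h1 : min D (2 ^ n) = 2 ^ n := min_eq_right h.le
      rw [h1] at ih
      have h2 : min D (2 ^ (n + 1)) ≤ 2 ^ (n + 1) := min_le_right _ _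
      rw [pow_succ] at h2 ⊢
      linarith
    · rw [if_neg h, add_zero]
      push Not at h
      have h1 : min D (2 ^ n) = D := min_eq_left h
      rw [h1] at ih
      exact (min_le_left _ _).trans ih

open scoped Classical in
/-- the points of a family in the square -/
noncomputable def inn {q : ℕ} (F : Family q) (N : ℕ) : Finset (ℂ × Fin q) :=
  F.pts.filter fun p => p.1 ∈ sq N

/-- the contribution of one family -/
theorem family_le {q : ℕ} {φ : ℕ × ℕ → ℝ} {ℓ C : ℝ} {N : ℕ} {f : Fin q → ℝ} (hC : ∀ i, |f i| ≤ C)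
    (hℓ : 0 ≤ ℓ) (h1 : ∀ z : ℕ × ℕ, |φ (z.1 + 1, z.2) - φ z| ≤ ℓ)
    (h2 : ∀ z : ℕ × ℕ, |φ (z.1, z.2 + 1) - φ z| ≤ ℓ)
    (h0 : ∀ z : ℕ × ℕ, (z.1 = 0 ∨ z.2 = 0) → φ z = 0) (h3 : ∀ z, z ∉ box N → φ z = 0)
    {F : Family q} (hF : ∑ p ∈ F.pts, f p.2 = 0) :
    |∑ p ∈ inn F N, f p.2 * Phi φ p.1| ≤ ∑ _p ∈ inn F N, C * ℓ * (4 * min (diam F) N + 2) := by
  classical
  have hd : ∀ p ∈ F.pts, ∀ p' ∈ F.pts, dist p.1 p'.1 ≤ diam F := fun p hp p' hp' =>
    Metric.dist_le_diam_of_mem (diam_bdd F) ⟨p.2, hp⟩ ⟨p'.2, hp'⟩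
  have hd0 : 0 ≤ diam F := Metric.diam_nonneg
  have hN0 : (0 : ℝ) ≤ N := Nat.cast_nonneg _
  by_cases hin : ∀ p ∈ F.pts, p.1 ∈ sq N
  · have e1 : inn F N = F.pts := Finset.filter_true_of_mem hin
    rw [e1]
    rcases F.pts.eq_empty_or_nonempty with hemp | ⟨p₀, hp₀⟩
    · rw [hemp]
      simp
    · have e2 : ∑ p ∈ F.pts, f p.2 * Phi φ p.1 =
          ∑ p ∈ F.pts, f p.2 * (Phi φ p.1 - Phi φ p₀.1) := by
        have : ∑ p ∈ F.pts, f p.2 * (Phi φ p.1 - Phi φ p₀.1) =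
            ∑ p ∈ F.pts, f p.2 * Phi φ p.1 - (∑ p ∈ F.pts, f p.2) * Phi φ p₀.1 := by
          rw [Finset.sum_mul, ← Finset.sum_sub_distrib]
          exact Finset.sum_congr rfl fun p _ => by ring
        rw [this, hF]
        ring
      rw [e2]
      refine (Finset.abs_sum_le_sum_abs _ _).trans (Finset.sum_le_sum fun p hp => ?_)
      rw [abs_mul]
      have i1 := Phi_lip hℓ h1 h2 p.1 p₀.1
      have i2 := hd p hp p₀ hp₀
      have hDN : diam F ≤ 2 * N := by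
        unfold diam
        refine Metric.diam_le_of_forall_dist_le (by positivity) ?_
        rintro x ⟨i, hx⟩ y ⟨j, hy⟩
        exact dist_sq_le (hin _ hx) (hin _ hy)
      have i3 : diam F ≤ 2 * min (diam F) N := by
        rcases le_total (diam F) N with h | h
        · rw [min_eq_left h]
          linarith
        · rw [min_eq_right h]
          exact hDN
      have i4 : |Phi φ p.1 - Phi φ p₀.1| ≤ ℓ * (4 * min (diam F) N + 2) :=
        i1.trans (mul_le_mul_of_nonneg_left (by linarith) hℓ)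
      calc |f p.2| * |Phi φ p.1 - Phi φ p₀.1| ≤ C * (ℓ * (4 * min (diam F) N + 2)) :=
            mul_le_mul (hC _) i4 (abs_nonneg _) ((abs_nonneg _).trans (hC p.2))
        _ = C * ℓ * (4 * min (diam F) N + 2) := by ring
  · push Not at hin
    obtain ⟨p₀, hp₀, hout⟩ := hin
    refine (Finset.abs_sum_le_sum_abs _ _).trans (Finset.sum_le_sum fun p hp => ?_)
    have hp' : p ∈ F.pts := (Finset.mem_filter.1 hp).1
    rw [abs_mul]
    have i1 := Phi_lip hℓ h1 h2 p.1 p₀.1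
    rw [Phi_out h0 h3 hout, sub_zero] at i1
    have i2 := hd p hp' p₀ hp₀
    have i3 := Phi_le hℓ h1 h0 h3 p.1
    have i4 : |Phi φ p.1| ≤ ℓ * (4 * min (diam F) N + 2) := by
      rcases le_total (diam F) N with h | h
      · rw [min_eq_left h]
        exact i1.trans (mul_le_mul_of_nonneg_left (by linarith) hℓ)
      · rw [min_eq_right h]
        exact i3.trans (mul_le_mul_of_nonneg_left (by linarith) hℓ)
    calc |f p.2| * |Phi φ p.1| ≤ C * (ℓ * (4 * min (diam F) N + 2)) :=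
          mul_le_mul (hC _) i4 (abs_nonneg _) ((abs_nonneg _).trans (hC p.2))
      _ = C * ℓ * (4 * min (diam F) N + 2) := by ring

theorem mem_U_iff {b : ℕ × ℕ} {x : ℂ} {N : ℕ} (hb : b ∈ box N) :
    x ∈ U b ↔ x ∈ sq N ∧ (⌊x.re⌋₊, ⌊x.im⌋₊) = b := by
  unfold box at hb
  simp only [Finset.mem_product, Finset.mem_range] at hb
  have c1 : (b.1 : ℝ) + 1 ≤ N := by exact_mod_cast hb.1
  have c2 : (b.2 : ℝ) + 1 ≤ N := by exact_mod_cast hb.2
  have c3 : (0 : ℝ) ≤ b.1 := Nat.cast_nonneg _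
  have c4 : (0 : ℝ) ≤ b.2 := Nat.cast_nonneg _
  constructor
  · rintro ⟨h1, h2, h3, h4⟩
    have e1 : 0 ≤ x.re := c3.trans h1
    have e2 : 0 ≤ x.im := c4.trans h3
    refine ⟨⟨e1, by linarith, e2, by linarith⟩, Prod.ext ?_ ?_⟩
    · exact (Nat.floor_eq_iff e1).2 ⟨h1, h2⟩
    · exact (Nat.floor_eq_iff e2).2 ⟨h3, h4⟩
  · rintro ⟨⟨h1, h2, h3, h4⟩, h5⟩
    have f1 := (Nat.floor_eq_iff h1).1 (Prod.ext_iff.1 h5).1
    have f2 := (Nat.floor_eq_iff h3).1 (Prod.ext_iff.1 h5).2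
    exact ⟨f1.1, f1.2, f2.1, f2.2⟩

theorem t_Q : S_Q := by
  classical
  intro q M f C ℓ K φ hdis hbal hC hℓ hfin h1 h2 h0 h3
  obtain ⟨N, hN⟩ : ∃ N : ℕ, N = 2 ^ K := ⟨_, rfl⟩
  have hNR : (2 : ℝ) ^ K = N := by rw [hN]; push_cast; rfl
  rw [← hN] at h3 hfin ⊢
  rw [hNR]
  -- all the points in the square
  obtain ⟨Z, hZ⟩ : ∃ Z : Set (ℂ × Fin q), Z = {p | p.1 ∈ sq N ∧ ∃ F ∈ M, p ∈ F.pts} := ⟨_, rfl⟩
  have hZfin : Z.Finite := by
    have : Z ⊆ ⋃ i : Fin q, ⋃ b ∈ box N, (fun x : ℂ => (x, i)) '' (points M i ∩ U b) := by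
      rw [hZ]
      rintro p ⟨hp, F, hF, hpF⟩
      simp only [Set.mem_iUnion, Set.mem_image]
      have hb : (⌊p.1.re⌋₊, ⌊p.1.im⌋₊) ∈ box N := by
        unfold box
        simp only [Finset.mem_product, Finset.mem_range]
        exact ⟨(Nat.floor_lt hp.1).2 hp.2.1, (Nat.floor_lt hp.2.2.1).2 hp.2.2.2⟩
      exact ⟨p.2, _, hb, p.1, ⟨⟨F, hF, hpF⟩, (mem_U_iff hb).2 ⟨hp, rfl⟩⟩, rfl⟩
    refine Set.Finite.subset ?_ this
    refine Set.finite_iUnion fun i => Set.Finite.biUnion (box N).finite_toSet fun b hb => ?_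
    exact (hfin i b hb).image _
  obtain ⟨X, hX⟩ : ∃ X : Finset (ℂ × Fin q), X = hZfin.toFinset := ⟨_, rfl⟩
  have hXm : ∀ p, p ∈ X ↔ p.1 ∈ sq N ∧ ∃ F ∈ M, p ∈ F.pts := by
    intro p
    rw [hX, Set.Finite.mem_toFinset, hZ]
    rfl
  -- sums over boxes as sums over points
  have hbox : ∀ (g : ℂ × Fin q → ℝ) (i : Fin q) (b : ℕ × ℕ), b ∈ box N →
      (∀ x ∈ U b, g (x, i) = g ((b.1 : ℂ) + b.2 * Complex.I, i)) →
      ((points M i ∩ U b).ncard : ℝ) * g ((b.1 : ℂ) + b.2 * Complex.I, i) =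
        ∑ p ∈ X.filter (fun p => p.2 = i ∧ p.1 ∈ U b), g p := by
    intro g i b hb hg
    have e1 : (points M i ∩ U b).ncard = (X.filter fun p => p.2 = i ∧ p.1 ∈ U b).card := by
      rw [← Set.ncard_coe_finset]
      have hinj : Function.Injective fun x : ℂ => (x, i) := fun a b h => (Prod.ext_iff.1 h).1
      rw [← Set.ncard_image_of_injective _ hinj]
      congr 1
      ext p
      simp only [Set.mem_image, Finset.coe_filter, Set.mem_inter_iff]
      constructor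
      · rintro ⟨x, ⟨⟨F, hF, hx⟩, hxU⟩, rfl⟩
        exact ⟨(hXm _).2 ⟨((mem_U_iff hb).1 hxU).1, F, hF, hx⟩, rfl, hxU⟩
      · rintro ⟨hp, hpi, hpU⟩
        obtain ⟨_, F, hF, hpF⟩ := (hXm p).1 hp
        have hp2 : (p.1, i) = p := by rw [← hpi]
        refine ⟨p.1, ⟨⟨F, hF, ?_⟩, hpU⟩, hp2⟩
        rw [hp2]
        exact hpF
    rw [e1, Finset.sum_congr rfl (g := fun _ => g ((b.1 : ℂ) + b.2 * Complex.I, i)),
      Finset.sum_const, nsmul_eq_mul]
    intro p hp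
    obtain ⟨_, hpi, hpU⟩ := Finset.mem_filter.1 hp
    rw [← hg p.1 hpU]
    congr 1
    rw [← hpi]
  have hcorner : ∀ b ∈ box N, ((b.1 : ℂ) + b.2 * Complex.I) ∈ U b := by
    intro b _
    refine ⟨?_, ?_, ?_, ?_⟩ <;> simp
  have hPhi : ∀ b ∈ box N, ∀ x ∈ U b, Phi φ x = φ b := by
    intro b hb x hx
    unfold Phi
    rw [((mem_U_iff hb).1 hx).2]
  have hsum : ∀ g : ℂ × Fin q → ℝ, ∑ b ∈ box N, ∑ i, ∑ p ∈ X.filter (fun p => p.2 = i ∧ p.1 ∈ U b),
      g p = ∑ p ∈ X, g p := by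
    intro g
    have e1 : ∀ b ∈ box N, ∑ i, ∑ p ∈ X.filter (fun p => p.2 = i ∧ p.1 ∈ U b), g p =
        ∑ p ∈ X.filter (fun p => p.1 ∈ U b), g p := by
      intro b _
      rw [← Finset.sum_fiberwise_of_maps_to (s := X.filter fun p => p.1 ∈ U b)
        (t := Finset.univ) (g := fun p => p.2) (fun p _ => Finset.mem_univ _)]
      refine Finset.sum_congr rfl fun i _ => ?_
      rw [Finset.filter_filter]
      refine Finset.sum_congr ?_ fun _ _ => rfl
      ext p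
      simp only [Finset.mem_filter]
      tauto
    rw [Finset.sum_congr rfl e1]
    rw [← Finset.sum_fiberwise_of_maps_to (s := X) (t := box N)
      (g := fun p => (⌊p.1.re⌋₊, ⌊p.1.im⌋₊))]
    · refine Finset.sum_congr rfl fun b hb => ?_
      refine Finset.sum_congr ?_ fun _ _ => rfl
      ext p
      simp only [Finset.mem_filter]
      constructor
      · rintro ⟨hp, hpU⟩
        exact ⟨hp, ((mem_U_iff hb).1 hpU).2⟩
      · rintro ⟨hp, hpU⟩
        exact ⟨hp, (mem_U_iff hb).2 ⟨((hXm p).1 hp).1, hpU⟩⟩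
    · intro p hp
      have hp1 := ((hXm p).1 hp).1
      unfold box
      simp only [Finset.mem_product, Finset.mem_range]
      exact ⟨(Nat.floor_lt hp1.1).2 hp1.2.1, (Nat.floor_lt hp1.2.2.1).2 hp1.2.2.2⟩
  have hLHS : ∑ b ∈ box N, (∑ i, f i * ((points M i ∩ U b).ncard : ℝ)) * φ b =
      ∑ p ∈ X, f p.2 * Phi φ p.1 := by
    rw [← hsum fun p => f p.2 * Phi φ p.1]
    refine Finset.sum_congr rfl fun b hb => ?_
    rw [Finset.sum_mul]
    refine Finset.sum_congr rfl fun i _ => ?_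
    rw [← hbox (fun p => f p.2 * Phi φ p.1) i b hb]
    · simp only
      rw [hPhi b hb _ (hcorner b hb)]
      ring
    · intro x hx
      simp only
      rw [hPhi b hb x hx, hPhi b hb _ (hcorner b hb)]
  have hcount : ∑ b ∈ box N, ∑ i, ((points M i ∩ U b).ncard : ℝ) = X.card := by
    have e := hsum fun _ => 1
    rw [Finset.sum_const, nsmul_eq_mul, mul_one] at e
    rw [← e]
    refine Finset.sum_congr rfl fun b hb => Finset.sum_congr rfl fun i _ => ?_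
    rw [← hbox (fun _ => 1) i b hb fun _ _ => rfl, mul_one]
  -- the family of a point
  have hfam : ∀ p ∈ X, ∃ F, F ∈ M ∧ p ∈ F.pts := by
    intro p hp
    obtain ⟨_, F, hF, hpF⟩ := (hXm p).1 hp
    exact ⟨F, hF, hpF⟩
  obtain ⟨fam, hfamd⟩ : ∃ fam : ℂ × Fin q → Family q, ∀ p ∈ X, fam p ∈ M ∧ p ∈ (fam p).pts := by
    refine ⟨fun p => if h : ∃ F, F ∈ M ∧ p ∈ F.pts then h.choose else ⟨∅⟩, fun p hp => ?_⟩
    beta_reduce
    rw [dif_pos (hfam p hp)]
    exact (hfam p hp).choose_spec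
  have huniq : ∀ p ∈ X, ∀ F ∈ M, p ∈ F.pts → fam p = F := by
    intro p hp F hF hpF
    by_contra hne
    exact (Finset.disjoint_left.1 (hdis _ (hfamd p hp).1 F hF hne)) (hfamd p hp).2 hpF
  obtain ⟨T, hT⟩ : ∃ T : Finset (Family q), T = X.image fam := ⟨_, rfl⟩
  have hfib : ∀ F ∈ T, X.filter (fun p => fam p = F) = inn F N := by
    intro F hFT
    rw [hT, Finset.mem_image] at hFT
    obtain ⟨p₀, hp₀, rfl⟩ := hFT
    have hFM := (hfamd p₀ hp₀).1
    ext p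
    unfold inn
    simp only [Finset.mem_filter]
    constructor
    · rintro ⟨hp, he⟩
      refine ⟨?_, ((hXm p).1 hp).1⟩
      rw [← he]
      exact (hfamd p hp).2
    · rintro ⟨hpF, hps⟩
      have hpX : p ∈ X := (hXm p).2 ⟨hps, _, hFM, hpF⟩
      exact ⟨hpX, huniq p hpX _ hFM hpF⟩
  have hgroup : ∀ g : ℂ × Fin q → ℝ, ∑ p ∈ X, g p = ∑ F ∈ T, ∑ p ∈ inn F N, g p := by
    intro g
    rw [← Finset.sum_fiberwise_of_maps_to (s := X) (t := T) (g := fam)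
      (fun p hp => by rw [hT]; exact Finset.mem_image_of_mem _ hp)]
    refine Finset.sum_congr rfl fun F hF => ?_
    rw [hfib F hF]
  have hTM : ∀ F ∈ T, F ∈ M := by
    intro F hF
    rw [hT, Finset.mem_image] at hF
    obtain ⟨p, hp, rfl⟩ := hF
    exact (hfamd p hp).1
  -- the main estimate
  have hmain : |∑ p ∈ X, f p.2 * Phi φ p.1| ≤
      ∑ p ∈ X, C * ℓ * (4 * min (diam (fam p)) N + 2) := by
    rw [hgroup fun p => f p.2 * Phi φ p.1, hgroup fun p => C * ℓ * (4 * min (diam (fam p)) N + 2)]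
    refine (Finset.abs_sum_le_sum_abs _ _).trans (Finset.sum_le_sum fun F hF => ?_)
    refine (family_le hC hℓ h1 h2 h0 h3 (hbal F (hTM F hF))).trans (le_of_eq ?_)
    refine Finset.sum_congr rfl fun p hp => ?_
    rw [← hfib F hF, Finset.mem_filter] at hp
    rw [hp.2]
  -- the far points
  have hfar : ∀ r : ℝ, ((far M (sq N) r).ncard : ℝ) = ∑ p ∈ X, if r < diam (fam p) then (1 : ℝ) else 0 := by
    intro r
    have e1 : far M (sq N) r = (X.filter fun p => r < diam (fam p) : Finset (ℂ × Fin q)) := by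
      ext p
      simp only [Finset.coe_filter, far]
      constructor
      · rintro ⟨hp, F, hF, hpF, hr⟩
        have hpX : p ∈ X := (hXm p).2 ⟨hp, F, hF, hpF⟩
        refine ⟨hpX, ?_⟩
        rw [huniq p hpX F hF hpF]
        exact hr
      · rintro ⟨hpX, hr⟩
        exact ⟨((hXm p).1 hpX).1, fam p, (hfamd p hpX).1, (hfamd p hpX).2, hr⟩
    rw [e1, Set.ncard_coe_finset, Finset.card_filter]
    push_cast
    rfl
  rw [hLHS, hcount]
  refine hmain.trans ?_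
  by_cases hXe : X.Nonempty
  · obtain ⟨p₁, _⟩ := hXe
    have hC0 : 0 ≤ C := (abs_nonneg _).trans (hC p₁.2)
    have hCℓ : 0 ≤ C * ℓ := mul_nonneg hC0 hℓ
    have e1 : ∀ p ∈ X, C * ℓ * (4 * min (diam (fam p)) N + 2) ≤
        C * ℓ * (6 + 4 * ∑ k ∈ Finset.range K, 2 ^ k * if (2 : ℝ) ^ k < diam (fam p) then (1 : ℝ) else 0) := by
      intro p _
      refine mul_le_mul_of_nonneg_left ?_ hCℓ
      have := min_le (diam (fam p)) K
      rw [hNR] at this
      have e2 : ∑ k ∈ Finset.range K, (if (2 : ℝ) ^ k < diam (fam p) then (2 : ℝ) ^ k else 0) =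
          ∑ k ∈ Finset.range K, 2 ^ k * if (2 : ℝ) ^ k < diam (fam p) then (1 : ℝ) else 0 := by
        refine Finset.sum_congr rfl fun k _ => ?_
        split_ifs <;> simp
      rw [e2] at this
      linarith
    refine (Finset.sum_le_sum e1).trans (le_of_eq ?_)
    rw [← Finset.mul_sum, Finset.sum_add_distrib, Finset.sum_const, nsmul_eq_mul, ← Finset.mul_sum,
      Finset.sum_comm]
    simp only [hfar]
    congr 2
    · ring
    · congr 1
      refine Finset.sum_congr rfl fun k _ => ?_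
      rw [Finset.mul_sum]
  · rw [Finset.not_nonempty_iff_eq_empty] at hXe
    simp only [hfar, hXe]
    simp

end Q294.Pm
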