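import Pool.Agent.Q294.Pm.Stm

/-!
Project PM: jobs R and V.
-/

set_option autoImplicit false

open MeasureTheory

namespace Q294.Pm

/-! ### Job R -/

theorem cone_convex {q : ℕ} (V : Finset (Fin q → ℕ)) : Convex ℝ (cone V) := by
  rintro x ⟨a, ha, rfl⟩ y ⟨b, hb, rfl⟩ s t hs ht _
  refine ⟨fun v => s * a v + t * b v, fun v => ?_, ?_⟩
  · have := ha v
    have := hb v
    positivity
  · funext i
    simp only [Pi.add_apply, Pi.smul_apply, smul_eq_mul]
    rw [Finset.mul_sum, Finset.mul_sum, ← Finset.sum_add_distrib]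
    exact Finset.sum_congr rfl fun v _ => by ring

theorem cone_smul {q : ℕ} {V : Finset (Fin q → ℕ)} {x : Fin q → ℝ} (hx : x ∈ cone V) {t : ℝ}
    (ht : 0 ≤ t) : t • x ∈ cone V := by
  obtain ⟨a, ha, rfl⟩ := hx
  refine ⟨fun v => t * a v, fun v => mul_nonneg ht (ha v), ?_⟩
  funext i
  simp only [Pi.smul_apply, smul_eq_mul]
  rw [Finset.mul_sum]
  exact Finset.sum_congr rfl fun v _ => by ring

theorem cone_zero {q : ℕ} (V : Finset (Fin q → ℕ)) : (0 : Fin q → ℝ) ∈ cone V :=
  ⟨fun _ => 0, fun _ => le_rfl, by funext i; simp⟩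

theorem cone_vec {q : ℕ} {V : Finset (Fin q → ℕ)} {v : Fin q → ℕ} (hv : v ∈ V) :
    (fun i => (v i : ℝ)) ∈ cone V := by
  classical
  refine ⟨fun u => if u = v then 1 else 0, fun u => by beta_reduce; split_ifs <;> norm_num, ?_⟩
  funext i
  simp [hv]

theorem lin_sum {q : ℕ} (g : (Fin q → ℝ) →ₗ[ℝ] ℝ) (x : Fin q → ℝ) :
    ∑ i, g (fun j => if i = j then 1 else 0) * x i = g x := by
  rw [LinearMap.pi_apply_eq_sum_univ g x]
  exact Finset.sum_congr rfl fun i _ => by rw [smul_eq_mul, mul_comm]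

theorem lin_ne {q : ℕ} {g : (Fin q → ℝ) →ₗ[ℝ] ℝ} (hg : g ≠ 0) :
    (fun i => g (fun j => if i = j then 1 else 0)) ≠ 0 := by
  intro h
  apply hg
  ext x
  have : g (Pi.single x 1) = 0 := by
    have h1 := congrFun h x
    simp only [Pi.zero_apply] at h1
    rw [← h1]
    congr 1
    funext j
    by_cases hj : x = j
    · subst hj
      simp
    · rw [if_neg hj, Pi.single_eq_of_ne (Ne.symm hj)]
  simpa using this

theorem t_R : S_R := by
  intro q lam V hfr
  have hcl : lam ∈ closure (cone V) := frontier_subset_closure hfr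
  have hni : lam ∉ interior (cone V) := fun h => hfr.2 h
  -- it is enough to find a functional
  suffices h : ∃ g : (Fin q → ℝ) →ₗ[ℝ] ℝ, g ≠ 0 ∧ g lam = 0 ∧ ∀ x ∈ cone V, 0 ≤ g x by
    obtain ⟨g, h1, h2, h3⟩ := h
    refine ⟨fun i => g (fun j => if i = j then 1 else 0), lin_ne h1, ?_, fun v hv => ?_⟩
    · rw [lin_sum, h2]
    · rw [lin_sum g fun i => (v i : ℝ)]
      exact h3 _ (cone_vec hv)
  by_cases hint : (interior (cone V)).Nonempty
  · obtain ⟨g, hg⟩ := geometric_hahn_banach_open_point (cone_convex V).interior isOpen_interior hni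
    have hle : ∀ x ∈ closure (cone V), g x ≤ g lam := by
      intro x hx
      rw [← (cone_convex V).closure_interior_eq_closure_of_nonempty_interior hint] at hx
      have hcl2 : IsClosed {x : Fin q → ℝ | g x ≤ g lam} := isClosed_le g.continuous continuous_const
      exact closure_minimal (fun y hy => (hg y hy).le) hcl2 hx
    have h0 : 0 ≤ g lam := by
      have := hle 0 (subset_closure (cone_zero V))
      rwa [map_zero] at this
    have hneg : ∀ x ∈ cone V, g x ≤ 0 := by
      intro x hx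
      by_contra hc
      push Not at hc
      have h1 := hle _ (subset_closure (cone_smul hx (t := (g lam + 1) / g x) (by positivity)))
      rw [map_smul, smul_eq_mul, div_mul_cancel₀ _ hc.ne'] at h1
      linarith
    have hlam0 : g lam = 0 := by
      refine le_antisymm ?_ h0
      have hcl2 : IsClosed {x : Fin q → ℝ | g x ≤ 0} := isClosed_le g.continuous continuous_const
      exact closure_minimal hneg hcl2 hcl
    refine ⟨-g.toLinearMap, ?_, ?_, ?_⟩
    · intro h
      obtain ⟨a, ha⟩ := hint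
      have h1 := hg a ha
      have h2 : ∀ x, g x = 0 := by
        intro x
        have := congrArg (fun l : (Fin q → ℝ) →ₗ[ℝ] ℝ => l x) h
        simpa using this
      rw [h2 a, h2 lam] at h1
      exact lt_irrefl _ h1
    · simp [hlam0]
    · intro x hx
      have := hneg x hx
      simp only [LinearMap.neg_apply, ContinuousLinearMap.coe_coe]
      linarith
  · have h1 : affineSpan ℝ (cone V) ≠ ⊤ := by
      intro h
      exact hint ((cone_convex V).interior_nonempty_iff_affineSpan_eq_top.2 h)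
    have h2 : vectorSpan ℝ (cone V) ≠ ⊤ := by
      intro h
      exact h1 ((AffineSubspace.affineSpan_eq_top_iff_vectorSpan_eq_top_of_nonempty ℝ _ _
        ⟨0, cone_zero V⟩).2 h)
    have h3 : Submodule.span ℝ (cone V) ≠ ⊤ := by
      intro h
      apply h2
      rw [vectorSpan_eq_span_vsub_set_right ℝ (cone_zero V)]
      simpa using h
    obtain ⟨g, hg0, hg⟩ := Submodule.exists_le_ker_of_lt_top _ (lt_top_iff_ne_top.2 h3)
    have hz : ∀ x ∈ cone V, g x = 0 := fun x hx => hg (Submodule.subset_span hx)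
    refine ⟨g, hg0, ?_, fun x hx => (hz x hx).ge⟩
    have hcont : Continuous g := LinearMap.continuous_of_finiteDimensional g
    have hcl2 : IsClosed {x : Fin q → ℝ | g x = 0} := isClosed_eq hcont continuous_const
    exact closure_minimal hz hcl2 hcl

/-! ### Job V -/

theorem int_low {τ : ℝ → ℝ} (h0 : ∀ r, 0 ≤ r → 0 ≤ τ r ∧ τ r ≤ 1)
    (hanti : ∀ r r', 0 ≤ r → r ≤ r' → τ r' ≤ τ r) (n : ℕ) :
    (∑ k ∈ Finset.range (n + 1), 2 ^ k * τ (2 ^ k) - τ 1) / 2 ≤ ∫ r in (0 : ℝ)..2 ^ n, τ r := by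
  have hii : ∀ a b : ℝ, 0 ≤ a → a ≤ b → IntervalIntegrable τ volume a b := by
    intro a b ha hab
    refine AntitoneOn.intervalIntegrable ?_
    rw [Set.uIcc_of_le hab]
    intro x hx y _ hxy
    exact hanti x y (ha.trans hx.1) hxy
  induction n with
  | zero =>
    simp only [zero_add, Finset.sum_range_one, pow_zero, one_mul, sub_self, zero_div]
    exact intervalIntegral.integral_nonneg zero_le_one fun x hx => (h0 x hx.1).1
  | succ m ih =>
    rw [Finset.sum_range_succ]
    have h2 : (0 : ℝ) < 2 ^ m := by positivity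
    have h3 : (2 : ℝ) ^ m ≤ 2 ^ (m + 1) := by rw [pow_succ]; linarith
    rw [← intervalIntegral.integral_add_adjacent_intervals (hii 0 (2 ^ m) le_rfl h2.le)
      (hii (2 ^ m) (2 ^ (m + 1)) h2.le h3)]
    have h4 : 2 ^ m * τ (2 ^ (m + 1)) ≤ ∫ r in (2 : ℝ) ^ m..2 ^ (m + 1), τ r := by
      have h5 : ∫ _ in (2 : ℝ) ^ m..2 ^ (m + 1), τ (2 ^ (m + 1)) = 2 ^ m * τ (2 ^ (m + 1)) := by
        rw [intervalIntegral.integral_const, smul_eq_mul, pow_succ]
        ring
      rw [← h5]
      refine intervalIntegral.integral_mono_on h3 intervalIntegrable_const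
        (hii _ _ h2.le h3) fun x hx => ?_
      exact hanti x _ (h2.le.trans hx.1) hx.2
    have h6 : (2 : ℝ) ^ (m + 1) = 2 * 2 ^ m := by rw [pow_succ]; ring
    rw [h6] at h4 ⊢
    linarith

theorem t_V : S_V := by
  intro d A B hd hA hB
  obtain ⟨e, he⟩ : ∃ e, e = d / (B * (A + 7)) := ⟨_, rfl⟩
  have he0 : 0 < e := by rw [he]; positivity
  refine ⟨e / 16, max 2 (Real.exp ((20 / e) ^ 2)), by positivity, ?_⟩
  intro τ h0 hanti hyp
  -- lower bound of the sums
  have hlow : ∀ K : ℕ, 2 ≤ K → e * √K ≤ 6 + 4 * ∑ k ∈ Finset.range K, 2 ^ k * τ (2 ^ k) := by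
    intro K hK
    have h1 := hyp K hK
    obtain ⟨s, hs⟩ : ∃ s, s = √(K : ℝ) := ⟨_, rfl⟩
    have hK1 : (1 : ℝ) ≤ K := by exact_mod_cast (by omega : 1 ≤ K)
    have hs1 : 1 ≤ s := by rw [hs]; exact Real.one_le_sqrt.2 hK1
    have hss : s * s = K := by rw [hs]; exact Real.mul_self_sqrt (by linarith)
    obtain ⟨T, hT⟩ : ∃ T, T = 6 + 4 * ∑ k ∈ Finset.range K, 2 ^ k * τ (2 ^ k) := ⟨_, rfl⟩
    rw [← hs, ← hT] at h1 ⊢
    rw [← hss] at h1
    have hT0 : 0 ≤ T := by
      rw [hT]
      have : 0 ≤ ∑ k ∈ Finset.range K, 2 ^ k * τ (2 ^ k) :=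
        Finset.sum_nonneg fun k _ => mul_nonneg (by positivity) (h0 _ (by positivity)).1
      linarith
    have h2 : B * (A * s + 7) * T ≤ B * ((A + 7) * s) * T := by
      refine mul_le_mul_of_nonneg_right (mul_le_mul_of_nonneg_left ?_ hB.le) hT0
      nlinarith
    have h3 : d * (s * s) ≤ B * (A + 7) * T * s := by
      calc d * (s * s) ≤ B * ((A + 7) * s) * T := h1.trans h2
        _ = B * (A + 7) * T * s := by ring
    have h4 : d * s ≤ B * (A + 7) * T := by
      have : d * s * s ≤ B * (A + 7) * T * s := by linarith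
      exact le_of_mul_le_mul_right this (by linarith)
    rw [he, div_mul_eq_mul_div, div_le_iff₀ (by positivity)]
    linarith
  constructor
  · intro R hR
    have hR2 : 2 ≤ R := (le_max_left _ _).trans hR
    have hRe : Real.exp ((20 / e) ^ 2) ≤ R := (le_max_right _ _).trans hR
    obtain ⟨n, hn1, hn2⟩ := exists_nat_pow_near (show (1 : ℝ) ≤ R by linarith) (one_lt_two)
    have hn0 : 1 ≤ n := by
      by_contra h
      have : n = 0 := by omega
      rw [this] at hn2
      norm_num at hn2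
      linarith
    have hR0 : 0 < R := by linarith
    have hlogR : Real.log R ≤ ((n + 1 : ℕ) : ℝ) := by
      have h1 : Real.log R ≤ Real.log (2 ^ (n + 1)) := Real.log_le_log hR0 hn2.le
      rw [Real.log_pow] at h1
      have h2 : Real.log 2 ≤ 1 := by
        have := Real.log_two_lt_d9
        linarith
      have h3 : ((n + 1 : ℕ) : ℝ) * Real.log 2 ≤ ((n + 1 : ℕ) : ℝ) * 1 :=
        mul_le_mul_of_nonneg_left h2 (Nat.cast_nonneg _)
      linarith
    have hloge : (20 / e) ^ 2 ≤ Real.log R := by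
      rw [← Real.log_exp ((20 / e) ^ 2)]
      exact Real.log_le_log (Real.exp_pos _) hRe
    have h1 := hlow (n + 1) (by omega)
    have h2 := int_low h0 hanti n
    have h3 : ∫ r in (0 : ℝ)..2 ^ n, τ r ≤ ∫ r in (0 : ℝ)..R, τ r := by
      have hii : ∀ a b : ℝ, 0 ≤ a → a ≤ b → IntervalIntegrable τ volume a b := by
        intro a b ha hab
        refine AntitoneOn.intervalIntegrable ?_
        rw [Set.uIcc_of_le hab]
        intro x hx y _ hxy
        exact hanti x y (ha.trans hx.1) hxy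
      have hp : (0 : ℝ) ≤ 2 ^ n := by positivity
      rw [← intervalIntegral.integral_add_adjacent_intervals (hii 0 (2 ^ n) le_rfl hp)
        (hii (2 ^ n) R hp hn1)]
      have : 0 ≤ ∫ r in (2 : ℝ) ^ n..R, τ r :=
        intervalIntegral.integral_nonneg hn1 fun x hx => (h0 x (hp.trans hx.1)).1
      linarith
    have h4 := (h0 1 zero_le_one).2
    have h5 : 20 ≤ e * √((n + 1 : ℕ) : ℝ) := by
      have h6 : 20 / e ≤ √((n + 1 : ℕ) : ℝ) :=
        Real.le_sqrt_of_sq_le (hloge.trans hlogR)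
      rw [div_le_iff₀ he0] at h6
      linarith
    have h6 : √(Real.log R) ≤ √((n + 1 : ℕ) : ℝ) := Real.sqrt_le_sqrt hlogR
    have h7 : e / 16 * √(Real.log R) ≤ e / 16 * √((n + 1 : ℕ) : ℝ) :=
      mul_le_mul_of_nonneg_left h6 (by positivity)
    linarith
  · intro C r₀ hC
    -- C is positive
    have hC0 : 0 < C := by
      have h1 := hC (max r₀ 2) (le_max_left _ _)
      have h2 : (2 : ℝ) ≤ max r₀ 2 := le_max_right _ _
      have h3 := (h0 (max r₀ 2) (by linarith)).1
      have h4 : 0 < max r₀ 2 * Real.log (max r₀ 2) :=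
        mul_pos (by linarith) (Real.log_pos (by linarith))
      have h5 := h3.trans_lt h1
      by_contra hc
      push Not at hc
      have := div_nonpos_of_nonpos_of_nonneg hc h4.le
      linarith
    obtain ⟨k₀, hk₀⟩ : ∃ k₀ : ℕ, r₀ ≤ 2 ^ k₀ := by
      obtain ⟨k, hk⟩ := pow_unbounded_of_one_lt r₀ (one_lt_two (α := ℝ))
      exact ⟨k, hk.le⟩
    obtain ⟨C', hC'⟩ : ∃ C', C' = C / Real.log 2 := ⟨_, rfl⟩
    have hl2 : 0 < Real.log 2 := Real.log_pos (by norm_num)
    have hC'0 : 0 < C' := by rw [hC']; positivity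
    have hterm : ∀ i : ℕ, 2 ^ (i + 1) * τ (2 ^ (i + 1)) ≤
        (if i < k₀ then (2 : ℝ) ^ k₀ else 0) + C' * ((i + 1 : ℕ) : ℝ)⁻¹ := by
      intro i
      have hp : (0 : ℝ) < 2 ^ (i + 1) := by positivity
      have hi0 : (0 : ℝ) < ((i + 1 : ℕ) : ℝ) := by positivity
      by_cases h : i < k₀
      · rw [if_pos h]
        have h1 := (h0 (2 ^ (i + 1)) hp.le).2
        have h2 : (2 : ℝ) ^ (i + 1) ≤ 2 ^ k₀ := pow_le_pow_right₀ (by norm_num) h
        have h3 : (2 : ℝ) ^ (i + 1) * τ (2 ^ (i + 1)) ≤ 2 ^ (i + 1) * 1 :=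
          mul_le_mul_of_nonneg_left h1 hp.le
        have h4 : 0 ≤ C' * ((i + 1 : ℕ) : ℝ)⁻¹ := by positivity
        linarith
      · rw [if_neg h, zero_add]
        have h1 : r₀ ≤ 2 ^ (i + 1) := hk₀.trans (pow_le_pow_right₀ (by norm_num) (by omega))
        have h2 := (hC _ h1).le
        rw [Real.log_pow] at h2
        have h3 := mul_le_mul_of_nonneg_left h2 hp.le
        refine h3.trans (le_of_eq ?_)
        rw [hC']
        field_simp
    have hup : ∀ n : ℕ, ∑ k ∈ Finset.range (n + 1), 2 ^ k * τ (2 ^ k) ≤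
        1 + k₀ * 2 ^ k₀ + C' * (1 + Real.log n) := by
      intro n
      rw [Finset.sum_range_succ']
      have h1 := Finset.sum_le_sum fun i (_ : i ∈ Finset.range n) => hterm i
      rw [Finset.sum_add_distrib, ← Finset.mul_sum] at h1
      have h2 : ∑ i ∈ Finset.range n, (if i < k₀ then (2 : ℝ) ^ k₀ else 0) ≤ k₀ * 2 ^ k₀ := by
        rw [← Finset.sum_filter, Finset.sum_const, nsmul_eq_mul]
        refine mul_le_mul_of_nonneg_right ?_ (by positivity)
        have : ((Finset.range n).filter fun i => i < k₀).card ≤ k₀ := by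
          calc ((Finset.range n).filter fun i => i < k₀).card ≤ (Finset.range k₀).card := by
                refine Finset.card_le_card fun i hi => ?_
                rw [Finset.mem_filter] at hi
                exact Finset.mem_range.2 hi.2
            _ = k₀ := Finset.card_range _
        exact_mod_cast this
      have h3 : ∑ i ∈ Finset.range n, (((i + 1 : ℕ) : ℝ))⁻¹ ≤ 1 + Real.log n := by
        have := harmonic_le_one_add_log n
        have e1 : ((harmonic n : ℚ) : ℝ) = ∑ i ∈ Finset.range n, (((i + 1 : ℕ) : ℝ))⁻¹ := by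
          unfold harmonic
          push_cast
          rfl
        rw [e1] at this
        exact this
      have h4 := mul_le_mul_of_nonneg_left h3 hC'0.le
      have h5 := (h0 1 zero_le_one).2
      simp only [pow_zero, one_mul]
      linarith
    -- choose K = m ^ 4
    obtain ⟨D, hD⟩ : ∃ D, D = 6 + 4 * (1 + k₀ * 2 ^ k₀ + C') := ⟨_, rfl⟩
    have hD0 : 0 < D := by rw [hD]; positivity
    have key : ∀ m : ℕ, 2 ≤ m → e * (m : ℝ) ^ 2 ≤ D + 16 * C' * m := by
      intro m hm
      have hm4 : 2 ≤ m ^ 4 := by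
        calc 2 ≤ m := hm
          _ = m ^ 1 := (pow_one m).symm
          _ ≤ m ^ 4 := Nat.pow_le_pow_right (by omega) (by norm_num)
      have h1 := hlow (m ^ 4) hm4
      have h2 : √((m ^ 4 : ℕ) : ℝ) = (m : ℝ) ^ 2 := by
        push_cast
        have : (m : ℝ) ^ 4 = ((m : ℝ) ^ 2) ^ 2 := by ring
        rw [this, Real.sqrt_sq (by positivity)]
      rw [h2] at h1
      have h3 := hup (m ^ 4)
      have h4 : ∑ k ∈ Finset.range (m ^ 4), 2 ^ k * τ (2 ^ k) ≤
          ∑ k ∈ Finset.range (m ^ 4 + 1), 2 ^ k * τ (2 ^ k) := by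
        rw [Finset.sum_range_succ]
        have := (h0 ((2 : ℝ) ^ (m ^ 4)) (by positivity)).1
        have : 0 ≤ (2 : ℝ) ^ (m ^ 4) * τ (2 ^ (m ^ 4)) := by positivity
        linarith
      have h5 : Real.log ((m ^ 4 : ℕ) : ℝ) ≤ 4 * m := by
        push_cast
        rw [Real.log_pow]
        have hm0 : (0 : ℝ) < m := by exact_mod_cast (by omega : 0 < m)
        have := Real.log_le_sub_one_of_pos hm0
        push_cast
        linarith
      have h6 := mul_le_mul_of_nonneg_left h5 hC'0.le
      rw [hD]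
      linarith
    obtain ⟨m, hm⟩ := exists_nat_gt ((16 * C' + D + 1) / e + 2)
    have hm2 : 2 ≤ m := by
      have h1 : (0 : ℝ) < (16 * C' + D + 1) / e := by positivity
      have : (2 : ℝ) < m := by linarith
      exact_mod_cast this.le
    have h1 := key m hm2
    have h2 : (16 * C' + D + 1) / e < m := by linarith
    rw [div_lt_iff₀ he0] at h2
    have hm1 : (1 : ℝ) ≤ m := by exact_mod_cast (by omega : 1 ≤ m)
    nlinarith [mul_le_mul_of_nonneg_right h2.le (by linarith : (0 : ℝ) ≤ m)]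

end Q294.Pm
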