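import Mathlib

/-!
Project PM (helper294), MP_47e84d_pr: translation-invariant matching schemes of planar multicolour
Poisson processes. Definitions used in the statement.
-/

set_option autoImplicit false

open MeasureTheory ProbabilityTheory
open scoped ENNReal NNReal

namespace Q294.Pm

/-! ### Matching schemes -/

/-- A family: a finite set of coloured points of the plane `ℂ = ℝ²`. -/
@[ext] structure Family (q : ℕ) where
  /-- the points, with their colours -/
  pts : Finset (ℂ × Fin q)

/-- The usual σ-algebra on finite point configurations: generated by the numbers of points in Borel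
sets. -/
noncomputable instance (q : ℕ) : MeasurableSpace (Family q) :=
  ⨆ B : {B : Set (ℂ × Fin q) // MeasurableSet B},
    MeasurableSpace.comap (fun F : Family q => {p | p ∈ F.pts ∧ p ∈ B.1}.ncard) ⊤

open scoped Classical in
/-- Translation of a family by `t`. -/
noncomputable def shift {q : ℕ} (t : ℂ) (F : Family q) : Family q :=
  ⟨F.pts.image fun p => (p.1 + t, p.2)⟩

/-- Euclidean diameter of a family. -/
noncomputable def diam {q : ℕ} (F : Family q) : ℝ :=
  Metric.diam {x : ℂ | ∃ i, (x, i) ∈ F.pts}

/-- The type of a family: its numbers of points of the colours. -/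
def type {q : ℕ} (F : Family q) : Fin q → ℕ := fun i => (F.pts.filter fun p => p.2 = i).card

/-- The points of colour `i` of a collection of families. -/
def points {q : ℕ} (M : Set (Family q)) (i : Fin q) : Set ℂ := {x | ∃ F ∈ M, (x, i) ∈ F.pts}

/-- `X i`, `i < q`, are independent homogeneous Poisson point processes of intensities `lam i`: the
numbers of points in bounded disjoint Borel sets are random variables, jointly independent over
sets and colours, with Poisson laws of mean `lam i` times area. -/
def IsPoisson {q : ℕ} {Ω : Type*} [MeasurableSpace Ω] (P : Measure Ω) (lam : Fin q → ℝ)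
    (X : Fin q → Ω → Set ℂ) : Prop :=
  ∀ (ι : Type) [Finite ι] (B : ι → Set ℂ), (∀ j, MeasurableSet (B j)) →
    (∀ j, Bornology.IsBounded (B j)) → Pairwise (Function.onFun Disjoint B) →
    (∀ i j, Measurable fun ω => (X i ω ∩ B j).encard) ∧
    iIndepFun (fun (p : Fin q × ι) ω => (X p.1 ω ∩ B p.2).encard) P ∧
    ∀ i j, P.map (fun ω => (X i ω ∩ B j).encard) =
      (poissonMeasure (lam i * (volume (B j)).toReal).toNNReal).map (Nat.cast : ℕ → ℕ∞)

/-- Translation-invariant `V`-matching scheme for independent Poisson processes of intensities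
`lam`. -/
structure IsScheme {q : ℕ} {Ω : Type*} [MeasurableSpace Ω] (P : Measure Ω) (lam : Fin q → ℝ)
    (V : Finset (Fin q → ℕ)) (M : Ω → Set (Family q)) : Prop where
  /-- the numbers of families with measurable properties are random variables -/
  measurable : ∀ A, MeasurableSet A → Measurable fun ω => (M ω ∩ A).encard
  /-- the families are not empty -/
  nonempty : ∀ᵐ ω ∂P, ∀ F ∈ M ω, F.pts.Nonempty
  /-- the families are disjoint, so they are a partition of the points -/
  disjoint : ∀ᵐ ω ∂P, ∀ F ∈ M ω, ∀ G ∈ M ω, F ≠ G → Disjoint F.pts G.pts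
  /-- the types of the families are in `V` -/
  type_mem : ∀ᵐ ω ∂P, ∀ F ∈ M ω, type F ∈ V
  /-- the points are independent Poisson processes -/
  poisson : IsPoisson P lam fun i ω => points (M ω) i
  /-- the law is translation invariant -/
  invariant : ∀ (t : ℂ) (ι : Type) [Finite ι] (A : ι → Set (Family q)),
    (∀ j, MeasurableSet (A j)) →
    P.map (fun ω j => (shift t '' M ω ∩ A j).encard) = P.map (fun ω j => (M ω ∩ A j).encard)

/-- The half-open square `[0,s)²`. -/
def sq (s : ℝ) : Set ℂ := {z | 0 ≤ z.re ∧ z.re < s ∧ 0 ≤ z.im ∧ z.im < s}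

/-- The coloured points in `B` whose family has diameter larger than `r`. -/
def far {q : ℕ} (M : Set (Family q)) (B : Set ℂ) (r : ℝ) : Set (ℂ × Fin q) :=
  {p | p.1 ∈ B ∧ ∃ F ∈ M, p ∈ F.pts ∧ r < diam F}

/-- Palm tail: the probability that the diameter of the family of a typical point is larger than
`r`, i.e. the expected number of points in the unit square whose family has diameter larger than `r`,
divided by the expected number of points in the unit square. -/
noncomputable def tail {q : ℕ} {Ω : Type*} [MeasurableSpace Ω] (P : Measure Ω) (lam : Fin q → ℝ)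
    (M : Ω → Set (Family q)) (r : ℝ) : ℝ :=
  (∫⁻ ω, ((far (M ω) (sq 1) r).encard : ℝ≥0∞) ∂P).toReal / ∑ i, lam i

/-- `cone(V)`. -/
def cone {q : ℕ} (V : Finset (Fin q → ℕ)) : Set (Fin q → ℝ) :=
  {x | ∃ a : (Fin q → ℕ) → ℝ, (∀ v, 0 ≤ a v) ∧ x = fun i => ∑ v ∈ V, a v * v i}

end Q294.Pm
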