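import Pool.Agent.Q294.Pm.Def

/-!
Project PM (helper294), MP_47e84d_pr. Statements of the lemma jobs, with proofs in the docstrings.
-/

set_option autoImplicit false

open MeasureTheory ProbabilityTheory
open scoped ENNReal NNReal

namespace Q294.Pm

/-- JOB A (algebra of the bump). Here `psi s x y = P(x) R(y) / s⁴`, `P(x) = x (s-x) (s-2x)`,
`R(y) = y (s-y)`.
Proof. (1) `P(x+1) - P(x) = q(x) := s² - 3 s (2x+1) + 2 (3x²+3x+1)` and `|q(x)| ≤ s²` for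
`0 ≤ x ≤ s-1` (`q` is a convex quadratic; the maximum is at an end point, the minimum is
`≥ -s²/2`), `0 ≤ R(y) ≤ s²/4`. (2) `R(y+1) - R(y) = s - 2y - 1`, `|.| ≤ s`, and `|P(x)| ≤ s³/4`
(even `≤ s³/10`). (3) `|q(x) - q(x')| ≤ 6 s |x - x'|`, `|R(y) - R(y')| ≤ s |y - y'|`, so the
difference is at most `6 s δ (s²/4) / s⁴ + s² (s δ) / s⁴ = 2.5 δ / s`. (4) `|P(x) - P(x')| ≤
s² |x-x'|` (as `|P'| ≤ s²` on `[0,s]`; or factor `P(x) - P(x') = (x-x') (...)`), so the difference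
is at most `s² δ s / s⁴ + (s³/4) 2 δ / s⁴ = 1.5 δ / s`. -/
def S_A : Prop := ∀ s : ℝ, 1 ≤ s →
  (∀ x y, 0 ≤ x → x + 1 ≤ s → 0 ≤ y → y ≤ s → |psi s (x + 1) y - psi s x y| ≤ 1 / 4) ∧
  (∀ x y, 0 ≤ x → x ≤ s → 0 ≤ y → y + 1 ≤ s → |psi s x (y + 1) - psi s x y| ≤ 1 / 4) ∧
  (∀ x y x' y' δ, 0 ≤ x → x + 1 ≤ s → 0 ≤ x' → x' + 1 ≤ s → 0 ≤ y → y ≤ s → 0 ≤ y' → y' ≤ s →
    |x - x'| ≤ δ → |y - y'| ≤ δ →
    |(psi s (x + 1) y - psi s x y) - (psi s (x' + 1) y' - psi s x' y')| ≤ 3 * δ / s) ∧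
  (∀ x y x' y' δ, 0 ≤ x → x ≤ s → 0 ≤ x' → x' ≤ s → 0 ≤ y → y + 1 ≤ s → 0 ≤ y' → y' + 1 ≤ s →
    |x - x'| ≤ δ → |y - y'| ≤ δ →
    |(psi s x (y + 1) - psi s x y) - (psi s x' (y' + 1) - psi s x' y')| ≤ 3 * δ / s)

/-- JOB B (sum and sign of the bump). Proof. Write `s = 2^(k+1) = 2h`, `z = cor k z + (x,y)` with
`x = z.1 % s`, `y = z.2 % s`; `Psi k z = x(s-x)(s-2x) y(s-y)/s⁴` and `s - 2x ≥ 0` iff `x ≤ h`.
`z ∈ Lh k z` iff `x < h`. For the sum: the box of side `2^K` is the disjoint union of the `4^K/s²`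
cells `{a s + x, b s + y}`, `a, b < 2^K/s`, `x, y < s` (use `Finset.sum` over `range (c * s)` as a
double sum, `Finset.sum_range` / `Nat.sum_range_mul`-style or induction on `c`), and on one cell
`∑ |x(s-x)(s-2x)| = 2 ∑_{x<h} x(2h-x)(2h-2x) = h²(h²-1)` (closed form by induction for the sum up to
`m`, or bound it below), `∑ y(s-y) = s(s²-1)/6`; so the cell has
`∑|Psi| = (s²/4)(s²/4-1) s(s²-1)/(6 s⁴) ≥ s³/140` for `s ≥ 4`. Any proof of a lower bound with the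
constant `1/100` for `2^k 4^K` is fine (`4^K s/140 = 2^k 4^K/70`). -/
def S_B : Prop :=
  (∀ k z, z ∈ Lh k z → 0 ≤ Psi k z) ∧ (∀ k z, z ∉ Lh k z → Psi k z ≤ 0) ∧
  ∀ K k : ℕ, 1 ≤ k → k < K → 2 ^ k * 4 ^ K / 100 ≤ ∑ b ∈ box (2 ^ K), |Psi k b|

/-- JOB C (oscillation of the increments). From `S_A` with `s = 2^(i+1)`: `z` and `cor j z` are in
the same cell of level `j < i`, hence in the same cell of level `i`, and their local coordinates
differ by less than `2^(j+1)`. (`z.1 % 2^(i+1) - (cor j z).1 % 2^(i+1) = z.1 % 2^(j+1)` since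
`z.1 = (cor j z).1 + z.1 % 2^(j+1)` and `2^(j+1)` divides `2^(i+1)`.) -/
def S_C : Prop :=
  (∀ i z, |dx i z| ≤ 1 / 4) ∧ (∀ i z, |dy i z| ≤ 1 / 4) ∧
  (∀ i j z, j < i → |dx i z - dx i (cor j z)| ≤ 3 * 2 ^ (j + 1) / 2 ^ (i + 1)) ∧
  (∀ i j z, j < i → |dy i z - dy i (cor j z)| ≤ 3 * 2 ^ (j + 1) / 2 ^ (i + 1))

/-- JOB D (the potential is Lipschitz). Proof. Let `z` be a grid point. `phi` vanishes outside
the box and on the lines `z.1 = 0`, `z.2 = 0` (there `z.1 % 2^(k+1) = 0`, so all `Psi k z = 0`).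
Let `z, z' = z + (1,0)` both be in the box. For each `k < K`: if `z` and `z'` are in the same cell
of level `k` (i.e. `z.1 % 2^(k+1) + 1 < 2^(k+1)`) then `w K t k z' y = w K t k z y` (everything
depends only on the cells of the levels `≥ k`: `Lh i z' = Lh i z`, `cor i z' = cor i z` for `i ≥ k`)
and `Psi k z' - Psi k z = dx k z`; otherwise `Psi k z' = 0` and `0 - Psi k z = dx k z` as
`psi s s y = 0`. So `phi z' - phi z = ∑_{k<K} w K t k z y * dx k z`. If `z'` is not in the box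
but `z` is, the same formula holds with `phi z' = 0` (`z.1 % 2^(k+1) + 1 = 2^(k+1)` for all `k < K`).
Now let `J` be the least `k < K` with `Al K t k z y` (if there is none the sum is 0). `Al` at `J`
gives `Al` at all `k ≥ J` (`Al` is monotone), `w = 0` for `k < J`, `w = ep` for `k ≥ J`; and
`Ok K t J z y` says `|∑_{i>J} ep i * dx i (cor J z)| ≤ t`. With `S_C`:
`|∑_{i ≥ J} ep i dx i z| ≤ 1/4 + t + ∑_{i>J} 3·2^(J+1)/2^(i+1) ≤ t + 1/4 + 3 ≤ t + 4`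
(`|ep| ≤ 1`). The same in the second direction. -/
def S_D : Prop := ∀ (K : ℕ) (t : ℝ) (y : ℕ × ℕ → ℝ), 0 ≤ t →
  (∀ z, |phi K t y (z.1 + 1, z.2) - phi K t y z| ≤ t + 4) ∧
  (∀ z, |phi K t y (z.1, z.2 + 1) - phi K t y z| ≤ t + 4) ∧
  ∀ z : ℕ × ℕ, (z.1 = 0 ∨ z.2 = 0) → phi K t y z = 0

/-- JOB E (a stopped cell has a large stopped gradient). Proof. If `Al K t k z y` fails there is
`j` in `[k, K)` with `¬ Ok K t j z y`; take the largest such `j < K` (over all of `range K`). Then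
`Al K t i z y` holds for `j < i < K` and fails for `i ≤ j`, so `w K t i z y` is `ep i z y` for
`i > j` and `0` for `i ≤ j`, and `∑_{i<K} w i dx i z = ∑_{i ∈ Ico (j+1) K} ep i z y * dx i z`, which
by `S_C` differs from `∑_{i ∈ Ico (j+1) K} ep i z y * dx i (cor j z)` by at most
`∑_{i>j} 3·2^(j+1)/2^(i+1) ≤ 3`. `¬ Ok` says that one of the two corner sums is `> t` in absolute
value. -/
def S_E : Prop := ∀ (K : ℕ) (t : ℝ) (k : ℕ) (z : ℕ × ℕ) (y : ℕ × ℕ → ℝ), k < K →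
  ¬ Al K t k z y →
    t - 3 ≤ |∑ i ∈ Finset.range K, w K t i z y * dx i z| ∨
    t - 3 ≤ |∑ i ∈ Finset.range K, w K t i z y * dy i z|

/-- JOB F (symmetries, deterministic). (1) If the permutation `π` of the grid fixes all points
outside the finite set `T`, and `T ⊆ S` or `T` is disjoint from `S`, then `∑_{b∈S} y (π b) =
∑_{b∈S} y b`. (`Finset.sum_equiv`/`Finset.sum_bij`: `π` maps `S` onto `S`.) (2) For `i > k` a cell of
level `k` is contained in `Lh i z` or in `Rh i z` for `z` in the cell (its own half), and is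
disjoint from the other half: so for `π` which fixes everything outside
`Lh k z ∪ Rh k z`: `Zk i z (y ∘ π) = Zk i z y` for `i > k`; hence `ep i z`, `Al K t k z` (which
only uses `ep i z` with `i > k`), and `w K t i z` for `i > k` are invariant. (3) For `π` which fixes
everything outside `Lh k z`, or everything outside `Rh k z`, also `Zk k z` and so `w K t k z` is
invariant. (4) There is a permutation `π` (`b ↦ b ± (2^k, 0)`) fixing everything outside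
`Lh k z ∪ Rh k z` which exchanges the two halves; for it `Zk k z (y ∘ π) = - Zk k z y`, and
`w K t k z (y ∘ π) = - w K t k z y`. (5) For `z` in the box of side `2^K` and `k < K` the cell
`Lh k z ∪ Rh k z` is contained in the box. -/
def S_F : Prop := ∀ (K : ℕ) (t : ℝ) (k : ℕ) (z : ℕ × ℕ),
  (∀ π : Equiv.Perm (ℕ × ℕ), (∀ b, b ∉ Lh k z ∪ Rh k z → π b = b) → ∀ y : ℕ × ℕ → ℝ,
    (∀ i, k < i → w K t i z (y ∘ π) = w K t i z y) ∧ (Al K t k z (y ∘ π) ↔ Al K t k z y)) ∧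
  (∀ π : Equiv.Perm (ℕ × ℕ), ((∀ b, b ∉ Lh k z → π b = b) ∨ (∀ b, b ∉ Rh k z → π b = b)) →
    ∀ y : ℕ × ℕ → ℝ, w K t k z (y ∘ π) = w K t k z y) ∧
  (∃ π : Equiv.Perm (ℕ × ℕ), (∀ b, b ∉ Lh k z ∪ Rh k z → π b = b) ∧ ∀ y : ℕ × ℕ → ℝ,
    Zk k z (y ∘ π) = - Zk k z y ∧ w K t k z (y ∘ π) = - w K t k z y ∧
    (∑ b ∈ Lh k z, (y ∘ π) b = ∑ b ∈ Rh k z, y b)) ∧
  (z ∈ box (2 ^ K) → k < K → Lh k z ∪ Rh k z ⊆ box (2 ^ K))

universe u

/-- The hypotheses on the charges. -/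
structure Good {Ω : Type u} [MeasurableSpace Ω] (P : Measure Ω) (Y : ℕ × ℕ → Ω → ℝ)
    (c σ : ℝ) (K : ℕ) : Prop where
  meas : ∀ b, Measurable (Y b)
  exch : Exch P Y (2 ^ K)
  memLp : ∀ b, MemLp (Y b) 2 P
  low : ∀ z ∈ box (2 ^ K), ∀ k < K, c * 2 ^ (k + 1) ≤ ∫ ω, |Zk k z fun b => Y b ω| ∂P
  upp : ∀ z ∈ box (2 ^ K), ∀ k < K, ∫ ω, (Zk k z fun b => Y b ω) ^ 2 ∂P ≤ σ ^ 2 * (2 ^ (k + 1)) ^ 2

/-- JOB G (orthogonality and the formula for the gain). Proof, from `S_F`. `w K t k z` is a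
measurable function of `y` (finitely many coordinates, `Real.sign` measurable) with values in
`[-1,1]`. (1) For `k < i < K` take the permutation `π` of `S_F` (4) at level `k`: it fixes
everything outside the box, so by `Exch` the expectation of `w i z (Y) w k z (Y)` equals the one of
`w i z (Y ∘ π) w k z (Y ∘ π) = - w i z (Y) w k z (Y)` (here `(fun b => Y (π b) ω) =
(fun b => Y b ω) ∘ π`), hence it is 0. Expand the square: only the diagonal is left, `w² ≤ 1`.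
(2) `b ∈ box`, `b ∈ Lh k b`: for `b' ∈ Lh k b` the transposition `(b b')` leaves `w k b` invariant
(`S_F` (3)), so `E[w k b (Y) Y b'] = E[w k b (Y) Y b]`; summing over the `2·4^k` points `b'` of
`Lh k b`, `2·4^k E[w Y_b] = E[w S_L]`, `S_L` the charge of `Lh k b`; the same for `b ∈ Rh k b` with
`S_R`. By (4) `E[w S_L] = E[(-w) S_R]`, so `E[w Zk] = E[w S_L] - E[w S_R] = 2 E[w S_L] =
-2 E[w S_R]`. And `w * Zk = 1_{Al} |Zk|` (`Real.sign_mul_self`-type). Note: `b ∉ Lh k b` implies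
`b ∈ Rh k b`. Integrability: `w` is bounded and `Y b` in `L²`. -/
def S_G : Prop := ∀ (Ω : Type u) [MeasurableSpace Ω] (P : Measure Ω) [IsProbabilityMeasure P]
  (Y : ℕ × ℕ → Ω → ℝ) (c σ : ℝ) (K : ℕ), Good P Y c σ K → ∀ t : ℝ, ∀ z ∈ box (2 ^ K),
  (∀ k, Measurable fun ω => w K t k z fun b => Y b ω) ∧
  (∀ k, MeasurableSet {ω | Al K t k z fun b => Y b ω}) ∧
  (∀ a : ℕ → ℝ, ∫ ω, (∑ i ∈ Finset.range K, w K t i z (fun b => Y b ω) * a i) ^ 2 ∂P ≤
    ∑ i ∈ Finset.range K, a i ^ 2) ∧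
  ∀ k < K, ∫ ω, w K t k z (fun b => Y b ω) * Y z ω ∂P =
    (if z ∈ Lh k z then 1 else -1) / 4 ^ (k + 1) *
      ∫ ω, Set.indicator {ω | Al K t k z fun b => Y b ω} (fun ω => |Zk k z fun b => Y b ω|) ω ∂P

/-- JOB H (the discrete theorem). From `S_B`, `S_C`, `S_E`, `S_G`. Proof. Let `t = A √K + 3`.
`P(¬Al k z) ≤ P(|∑ w dx| ≥ A√K) + P(|∑ w dy| ≥ A√K) ≤ 2 (K/16)/(A² K) = 1/(8A²)` by `S_E`,
Chebyshev (Markov for the square), `S_G` and `|dx|, |dy| ≤ 1/4`. Cauchy-Schwarz: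
`E[1_{¬Al} |Zk|] ≤ √P(¬Al) √E[Zk²] ≤ σ 2^(k+1) / (√8 A) ≤ (c/2) 2^(k+1)` for `A ≥ σ/(√2 c)`, so
`E[1_{Al}|Zk|] ≥ (c/2) 2^(k+1)`. Then
`E ∑_{b∈box} Y_b phi(b) = ∑_b ∑_{k<K} Psi k b E[w k b Y_b] = ∑_b ∑_k |Psi k b| E[1_Al |Zk k b|]/4^(k+1)
≥ ∑_{1≤k<K} (c/2) 2^(k+1)/4^(k+1) · 2^k 4^K/100 = (K-1) c 4^K/400 ≥ (c/800) K 4^K`. -/
def S_H : Prop := ∀ c σ : ℝ, 0 < c → 0 < σ → ∃ A d : ℝ, 0 < A ∧ 0 < d ∧
  ∀ (Ω : Type u) [MeasurableSpace Ω] (P : Measure Ω) [IsProbabilityMeasure P]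
    (Y : ℕ × ℕ → Ω → ℝ) (K : ℕ), 2 ≤ K → Good P Y c σ K →
    d * K * 4 ^ K ≤ ∫ ω, ∑ b ∈ box (2 ^ K), Y b ω * phi K (A * √K + 3) (fun b' => Y b' ω) b ∂P

/-! ### Poisson charges -/

/-- JOB I (Poisson counts of unit squares). From `IsPoisson` with `ι` = the finite set `S`, `B j =
U j` (area 1: `U b` is the image of `[b.1,b.1+1) ×ˢ [b.2,b.2+1)`, `Complex.volume_...`, e.g. with
`Complex.measurableEquivRealProd` and `Complex.volume_preserving_equiv_real_prod`), composing with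
`ENat.toNat`. Also: almost surely all the counts are finite (the law of the `encard` is carried by
the range of the cast). -/
def S_I : Prop := ∀ (q : ℕ) (Ω : Type u) [MeasurableSpace Ω] (P : Measure Ω)
  [IsProbabilityMeasure P] (lam : Fin q → ℝ) (X : Fin q → Ω → Set ℂ), IsPoisson P lam X →
  ∀ S : Finset (ℕ × ℕ), Ind P lam S (fun i b ω => (X i ω ∩ U b).ncard) ∧
    ∀ᵐ ω ∂P, ∀ i, ∀ b ∈ S, (X i ω ∩ U b).Finite

/-- JOB J (exchangeability of the charges). Proof. The law of `(n i b)_{i, b ∈ S}` is the product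
measure (`iIndepFun_iff_map_fun_eq_pi_map`) whose factors do not depend on `b`; for a permutation
`π` fixing everything outside `S = box N`, `π` restricts to a permutation of `S` and
`(n i (π b))_{i,b∈S}` is again independent (`iIndepFun.precomp`) with the same marginals, so it has
the same law. `Yb` is a measurable function of these finitely many counts (coordinates outside `S`
are 0 and fixed by `π`), so the laws of `b ↦ Yb (π b)` and `b ↦ Yb b` agree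
(`IdentDistrib.comp`). -/
def S_J : Prop := ∀ (q : ℕ) (Ω : Type u) [MeasurableSpace Ω] (P : Measure Ω)
  [IsProbabilityMeasure P] (lam f : Fin q → ℝ) (n : Fin q → ℕ × ℕ → Ω → ℕ) (N : ℕ),
  Ind P lam (box N) n → Exch P (Yb f (box N) n) N

/-- JOB K (second moments). Proof. `n i b` has the Poisson law with mean and variance `lam i`
(`integral_poissonMeasure`, sums `∑ k e^{-r} r^k/k!`, `∑ k² ...`; or the moment formulas of the pool);
`Yb b = ∑ f i n i b` has mean `∑ f i lam i = 0` and lies in `L²`. For `z` in the box and `k < K`,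
`Zk k z Y = ∑_{b∈Lh} Y b - ∑_{b∈Rh} Y b` is a sum of `4^(k+1)` independent centred variables
`± f i (n i b - lam i)` ..., so `E Zk² = 4^(k+1) ∑ f i² lam i`. (`IndepFun.variance_sum` or expand and use
that products of different centred independent variables have mean 0. `Lh`, `Rh` are disjoint and
contained in the box.) -/
def S_K : Prop := ∀ (q : ℕ) (Ω : Type u) [MeasurableSpace Ω] (P : Measure Ω)
  [IsProbabilityMeasure P] (lam f : Fin q → ℝ) (n : Fin q → ℕ × ℕ → Ω → ℕ) (K : ℕ),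
  (∀ i, 0 < lam i) → ∑ i, f i * lam i = 0 → Ind P lam (box (2 ^ K)) n →
  (∀ b, Measurable (Yb f (box (2 ^ K)) n b)) ∧ (∀ b, MemLp (Yb f (box (2 ^ K)) n b) 2 P) ∧
  (∀ i, ∀ b ∈ box (2 ^ K), ∫ ω, (n i b ω : ℝ) ∂P = lam i ∧ Integrable (fun ω => (n i b ω : ℝ)) P) ∧
  ∀ z ∈ box (2 ^ K), ∀ k < K, ∫ ω, (Zk k z fun b => Yb f (box (2 ^ K)) n b ω) ^ 2 ∂P ≤
    (∑ i, f i ^ 2 * lam i) * (2 ^ (k + 1)) ^ 2

/-- JOB L (first absolute moments). Proof. Let `s = 2^(k+1)`, `Z = Zk k z Y`, `M > 0` with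
`|f i| ≤ M`, `u = 1/(M s)`. `1 - cos x ≤ |x|` gives `E|Z| ≥ (1 - E cos(u Z))/u`. `Z` is the sum over
`i` and `b ∈ Lh` of `f i n i b` minus the sum over `b ∈ Rh`, independent; with
`charFun_map_cast_poissonMeasure`, `E e^{iuZ} = ∏_i |χ_i(u f i)|^{s²}`,
`|χ_i(v)| = exp(-lam i (1 - cos v))`, (each half has `s²/2` points, the factors of the left and the
right half are complex conjugates), so `E cos(uZ) = exp(-s² ∑ lam i (1 - cos(u f i)))` and
`1 - cos v ≥ v²/4` for `|v| ≤ 1` gives `E cos(uZ) ≤ exp(-∑ lam i f i²/(4M²)) =: e^{-a}`, `a > 0`. So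
`E|Z| ≥ M (1 - e^{-a}) s`. -/
def S_L : Prop := ∀ (q : ℕ) (lam f : Fin q → ℝ), (∀ i, 0 < lam i) → f ≠ 0 → ∃ c : ℝ, 0 < c ∧
  ∀ (Ω : Type u) [MeasurableSpace Ω] (P : Measure Ω) [IsProbabilityMeasure P]
  (n : Fin q → ℕ × ℕ → Ω → ℕ) (K : ℕ), Ind P lam (box (2 ^ K)) n →
  ∀ z ∈ box (2 ^ K), ∀ k < K, c * 2 ^ (k + 1) ≤
    ∫ ω, |Zk k z fun b => Yb f (box (2 ^ K)) n b ω| ∂P

/-! ### Families -/

/-- number of points of the family in a set of coloured points -/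
noncomputable def nb {q : ℕ} (B : Set (ℂ × Fin q)) (F : Family q) : ℕ := {p | p ∈ F.pts ∧ p ∈ B}.ncard

/-- JOB M (Campbell formula). Proof. `κ ω := Measure.sum (fun F : M ω => Measure.dirac F.1)` is a
measure on `Family q` with `κ ω A = (M ω ∩ A).encard` for measurable `A` (`Measure.sum_apply`,
`tsum` of indicators = encard), so `ω ↦ κ ω` is measurable into measures
(`Measure.measurable_of_measurable_coe`; the cast `ℕ∞ → ℝ≥0∞` is measurable), and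
`∫⁻ g dκ ω = ∑' F : M ω, g F` (`lintegral_sum_measure`, `lintegral_dirac'`), which is measurable
in `ω` (`Measure.measurable_lintegral`). Let `m = P.bind κ` (or the measure `A ↦ ∫⁻ κ ω A`); then
`∫⁻ g dm = ∫⁻ ω, ∫⁻ g dκ ω` (`Measure.lintegral_bind`). Invariance with `ι = Unit`, `t`:
`m (shift t ⁻¹' A) = m A` (`(shift t '' M ∩ A).encard = (M ∩ shift t ⁻¹' A).encard` as `shift t` is
injective), so `m.map (shift t) = m` and `∫⁻ g (shift t F) dm = ∫⁻ g dm`. `shift t` is measurable: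
`nb B (shift t F) = nb B' F` with `B' = {p | (p.1 + t, p.2) ∈ B}` measurable. -/
def S_M : Prop := ∀ (q : ℕ) (Ω : Type u) [MeasurableSpace Ω] (P : Measure Ω)
  [IsProbabilityMeasure P] (M : Ω → Set (Family q)),
  (∀ A, MeasurableSet A → Measurable fun ω => (M ω ∩ A).encard) →
  (∀ (t : ℂ) (ι : Type) [Finite ι] (A : ι → Set (Family q)), (∀ j, MeasurableSet (A j)) →
    P.map (fun ω j => (shift t '' M ω ∩ A j).encard) = P.map (fun ω j => (M ω ∩ A j).encard)) →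
  ∀ g : Family q → ℝ≥0∞, Measurable g →
    (Measurable fun ω => ∑' F : M ω, g F.1) ∧
    ∀ t : ℂ, ∫⁻ ω, ∑' F : M ω, g (shift t F.1) ∂P = ∫⁻ ω, ∑' F : M ω, g F.1 ∂P

/-- JOB N (measurability and translation of the basic functions). Proof of (2): for `r ≥ 0`,
`r < diam F` iff there are two points of `F` at distance `> r` iff there are rational balls
`A, A'` (centres in a countable dense set, rational radii) with `nb (A ×ˢ univ) F ≥ 1`,
`nb (A' ×ˢ univ) F ≥ 1` and all distances between `A` and `A'` are `> r`: a countable union. (3) is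
`Metric.diam` of a translate; (4) by the injection `p ↦ (p.1 + t, p.2)`. -/
def S_N : Prop := ∀ q : ℕ,
  (∀ B : Set (ℂ × Fin q), MeasurableSet B → Measurable (nb B : Family q → ℕ)) ∧
  (∀ r : ℝ, 0 ≤ r → MeasurableSet {F : Family q | r < diam F}) ∧
  (∀ (t : ℂ) (F : Family q), diam (shift t F) = diam F) ∧
  (∀ (t : ℂ) (F : Family q) (B : Set (ℂ × Fin q)),
    nb B (shift t F) = nb {p | (p.1 + t, p.2) ∈ B} F)

/-- JOB O (numbers of points as sums over the families, deterministic). Proof. The sets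
`{p ∈ F.pts | p ∈ B}`, `F ∈ M`, are disjoint and their union is the set on the left, so its
`encard` is the sum of their `encard`s (`ENat`/`ENNReal` `tsum` of `encard` over a disjoint union;
e.g. via `Measure.count` with the σ-algebra `⊤`, or `tsum` of 1 over a sigma type). -/
def S_O : Prop := ∀ (q : ℕ) (M : Set (Family q)),
  (∀ F ∈ M, ∀ G ∈ M, F ≠ G → Disjoint F.pts G.pts) →
  (∀ (i : Fin q) (B : Set ℂ), ((points M i ∩ B).encard : ℝ≥0∞) =
    ∑' F : M, (nb (B ×ˢ {i}) F.1 : ℝ≥0∞)) ∧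
  ∀ (B : Set ℂ) (r : ℝ), ((far M B r).encard : ℝ≥0∞) =
    ∑' F : M, if r < diam F.1 then (nb (B ×ˢ Set.univ) F.1 : ℝ≥0∞) else 0

/-- JOB P (balance). `f` is a supporting functional: then almost surely all the families are
balanced. Proof. Let `B = sq 1`, `u F = nb (B × all) F / #F` (`#F = F.pts.card`; `u = 0` for
`#F = 0`), `n_i F = nb (univ × {i}) F = type F i`. Mass transport: for each colour `i`,
`lam i = E #(points i ∩ B) = E ∑_F nb(B×{i}) F = ∑_{z ∈ ℤ²} E ∑_F nb(B×{i}) F · nb((B+z)×all) F/#F`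
(the squares `B + z` tile the plane)
`= ∑_z E ∑_F nb((B-z)×{i}) F · nb(B×all) F/#F` (invariance, `S_M` with `t = z` and `S_N` (4))
`= E ∑_F n_i F · u F`. (First moment of the count of `sq 1`: mean of the Poisson law with parameter
`lam i · 1`.) Hence with `f⁺`, `f⁻`: `E ∑_F u F ∑_i f⁺_i n_i F = ∑ f⁺_i lam i = ∑ f⁻_i lam i =
E ∑_F u F ∑_i f⁻_i n_i F < ∞`, and `∑_i f⁺_i n_i F ≥ ∑_i f⁻_i n_i F` for `type F ∈ V`; so almost surely
`u F (∑_i f_i n_i F) = 0` for all `F ∈ M ω`. By invariance (apply `S_M` to the indicator of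
`{F | u F ≠ 0, ∑ f_i n_i F ≠ 0}` translated by `z ∈ ℤ²`; countably many `z`) the same with `sq 1 + z`
in place of `sq 1`, and every nonempty family meets one of these squares. Finally
`∑_{p ∈ F} f p.2 = ∑_i f_i n_i F`. -/
def S_P : Prop := ∀ (q : ℕ) (Ω : Type u) [MeasurableSpace Ω] (P : Measure Ω)
  [IsProbabilityMeasure P] (lam : Fin q → ℝ) (V : Finset (Fin q → ℕ)) (M : Ω → Set (Family q))
  (f : Fin q → ℝ), (∀ i, 0 < lam i) → IsScheme P lam V M → ∑ i, f i * lam i = 0 →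
  (∀ v ∈ V, 0 ≤ ∑ i, f i * v i) → ∀ᵐ ω ∂P, ∀ F ∈ M ω, ∑ p ∈ F.pts, f p.2 = 0

/-- JOB Q (the matching inequality, deterministic). Proof. Let `N = 2^K`, `Φ(x) =
φ(⌊x.re⌋₊, ⌊x.im⌋₊)`, `X` = all coloured points of `M` with position in `sq N`; they are finitely many
and `∑_{b∈box} ∑_i f i #(points i ∩ U b) φ b = ∑_{p∈X} f p.2 Φ p.1` (`sq N` is the disjoint union of
the `U b`, `Φ = φ b` on `U b`). Group the sum by families: `= ∑_F ∑_{p∈F} f p.2 Φ p.1` over the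
finitely many families which meet `sq N` (`Φ = 0` outside `sq N`: a negative coordinate gives
`⌊⌋₊ = 0` and `φ = 0` there). `|Φ x - Φ y| ≤ ℓ (|re(x-y)| + |im(x-y)| + 2) ≤ ℓ (2 ‖x-y‖ + 2)` and
`|Φ| ≤ ℓ N`. Fix `F` and `D = diam F`. If all points of `F` are in `sq N`, then with `p₀ ∈ F`:
`∑_{p∈F} f p.2 Φ p.1 = ∑ f p.2 (Φ p.1 - Φ p₀.1)`, at most `C #F ℓ (2D+2)`, and `D ≤ √2 N` so
`2D ≤ 4 min(D,N)`. If some `p₀ ∈ F` is outside then `Φ p₀.1 = 0` and `|Φ p.1| ≤ min(ℓ(2D+2), ℓN)`. In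
both cases `|∑_{p∈F} f p.2 Φ p.1| ≤ C ℓ ∑_{p∈F, p.1∈sq N} (4 min(D,N) + 2)`, and
`min(D,2^K) ≤ 1 + ∑_{k<K} 2^k 1[2^k < D]`. Sum over `F`. -/
def S_Q : Prop := ∀ (q : ℕ) (M : Set (Family q)) (f : Fin q → ℝ) (C ℓ : ℝ) (K : ℕ)
  (φ : ℕ × ℕ → ℝ),
  (∀ F ∈ M, ∀ G ∈ M, F ≠ G → Disjoint F.pts G.pts) →
  (∀ F ∈ M, ∑ p ∈ F.pts, f p.2 = 0) → (∀ i, |f i| ≤ C) → 0 ≤ ℓ →
  (∀ i, ∀ b ∈ box (2 ^ K), (points M i ∩ U b).Finite) →
  (∀ z, |φ (z.1 + 1, z.2) - φ z| ≤ ℓ) → (∀ z, |φ (z.1, z.2 + 1) - φ z| ≤ ℓ) →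
  (∀ z : ℕ × ℕ, (z.1 = 0 ∨ z.2 = 0) → φ z = 0) → (∀ z, z ∉ box (2 ^ K) → φ z = 0) →
  |∑ b ∈ box (2 ^ K), (∑ i, f i * ((points M i ∩ U b).ncard : ℝ)) * φ b| ≤
    C * ℓ * (6 * ∑ b ∈ box (2 ^ K), ∑ i, ((points M i ∩ U b).ncard : ℝ) +
      4 * ∑ k ∈ Finset.range K, 2 ^ k * ((far M (sq (2 ^ K)) (2 ^ k)).ncard : ℝ))

/-- JOB R (supporting functional of the cone). Proof. `C = cone V` is convex, contains 0 and is
closed under multiplication by `t ≥ 0`. If its interior is not empty, `lam` is not in the interior,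
so Hahn-Banach (`geometric_hahn_banach_open_point`) gives `g ≠ 0` with `g a < g lam` for `a` in the
interior, hence `g a ≤ g lam` for `a ∈ C` (`closure (interior C) = closure C`,
`Convex.closure_interior_eq_closure_of_nonempty_interior`); the cone property gives
`g a ≤ 0` on `C`, `g 0 = 0 ≤ g lam`, and `lam ∈ closure C` gives `g lam ≤ 0`. Take `f = -g`. If the
interior is empty, the span of `V` is a proper subspace (otherwise `C` contains a basis, so an open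
set; `Convex.interior_nonempty_iff_affineSpan_eq_top`), closed, it contains `closure C ∋ lam`; take
`f ≠ 0` vanishing on it. -/
def S_R : Prop := ∀ (q : ℕ) (lam : Fin q → ℝ) (V : Finset (Fin q → ℕ)),
  lam ∈ frontier (cone V) → ∃ f : Fin q → ℝ, f ≠ 0 ∧ ∑ i, f i * lam i = 0 ∧
    ∀ v ∈ V, 0 ≤ ∑ i, f i * v i

/-- JOB T (tiling). Proof. Almost surely the families are disjoint, so by `S_O` and the disjoint union
`sq (2^K) = ⋃_{b∈box} U b`: `#far(sq(2^K), r) = ∑_b #far(U b, r)`, and by `S_M`, `S_N`, `S_O`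
`E #far(U b, r) = E #far(sq 1, r)` (`U b = sq 1 + b`). Finite: `#far(sq 1, r) ≤ ∑_i #(points i ∩ sq 1)`
with mean `∑ lam i`. Hence `tail ≤ 1` as well. Measurability (a.e.) of `#far` from `S_M`,
`S_N`, `S_O`. -/
def S_T : Prop := ∀ (q : ℕ) (Ω : Type u) [MeasurableSpace Ω] (P : Measure Ω)
  [IsProbabilityMeasure P] (lam : Fin q → ℝ) (V : Finset (Fin q → ℕ)) (M : Ω → Set (Family q)),
  (∀ i, 0 < lam i) → 0 < q → IsScheme P lam V M → ∀ (K : ℕ) (r : ℝ), 0 ≤ r →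
  Integrable (fun ω => ((far (M ω) (sq (2 ^ K)) r).ncard : ℝ)) P ∧
  ∫ ω, ((far (M ω) (sq (2 ^ K)) r).ncard : ℝ) ∂P = 4 ^ K * (∑ i, lam i) * tail P lam M r ∧
  0 ≤ tail P lam M r ∧ tail P lam M r ≤ 1 ∧ ∀ r' ≥ r, tail P lam M r' ≤ tail P lam M r

/-- JOB V (the final calculation). Proof. `dK ≤ B (A √K + 7) (6 + 4 Σ_K)` with
`Σ_K = ∑_{k<K} 2^k τ(2^k)` gives `Σ_K ≥ c₁ √K` for `K ≥ K₀`, `c₁ = d/(8 B (A + 7))`. (1) For `R` large
let `2^(K-1) ≤ R < 2^K`; `∫_0^R τ ≥ ∑_{k=1}^{K-1} ∫_{2^(k-1)}^{2^k} τ ≥ ∑_{k=1}^{K-1} 2^(k-1) τ(2^k) ≥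
(Σ_K - 1)/2` and `log R ≤ K`. (τ is antitone on `[0,∞)`, so integrable on bounded intervals.)
(2) If `τ r < C/(r log r)` for `r ≥ r₀`, then with `2^k₀ ≥ max(r₀, 2)`:
`Σ_K ≤ ∑_{k<k₀} 2^k + ∑_{k₀≤k<K} C/(k log 2) ≤ 2^k₀ + (C/log 2)(1 + log K)`, which is smaller than
`c₁ √K` for large `K`. The constants `c`, `R₀` in (1) depend only on `d, A, B`. -/
def S_V : Prop := ∀ d A B : ℝ, 0 < d → 0 < A → 0 < B → ∃ c R₀ : ℝ, 0 < c ∧ ∀ τ : ℝ → ℝ,
  (∀ r, 0 ≤ r → 0 ≤ τ r ∧ τ r ≤ 1) → (∀ r r', 0 ≤ r → r ≤ r' → τ r' ≤ τ r) →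
  (∀ K : ℕ, 2 ≤ K → d * K ≤ B * (A * √K + 7) *
    (6 + 4 * ∑ k ∈ Finset.range K, 2 ^ k * τ (2 ^ k))) →
  (∀ R ≥ R₀, c * √(Real.log R) ≤ ∫ r in (0 : ℝ)..R, τ r) ∧
  ∀ C r₀ : ℝ, ¬ ∀ r ≥ r₀, τ r < C / (r * Real.log r)

end Q294.Pm
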