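import Pool.Agent.Q294.Pm.M

/-!
Project PM: job T, and the mean of the Poisson law.
-/

set_option autoImplicit false

open MeasureTheory ProbabilityTheory
open scoped ENNReal NNReal

namespace Q294.Pm

universe u

/-- mean of the Poisson law -/
theorem lintegral_poisson (r : ℝ≥0) : ∫⁻ n, (n : ℝ≥0∞) ∂(poissonMeasure r) = r := by
  have h1 : ∫⁻ n, (n : ℝ≥0∞) ∂(poissonMeasure r) =
      ∑' n : ℕ, ENNReal.ofReal (Real.exp (-r) * r ^ n / n.factorial) * n := by
    unfold poissonMeasure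
    rw [lintegral_sum_measure]
    refine tsum_congr fun n => ?_
    rw [lintegral_smul_measure, lintegral_dirac]
    rfl
  rw [h1, tsum_eq_zero_add' ENNReal.summable]
  simp only [Nat.cast_zero, mul_zero, zero_add]
  have h2 : ∀ n : ℕ, ENNReal.ofReal (Real.exp (-r) * r ^ (n + 1) / (n + 1).factorial) *
      ((n + 1 : ℕ) : ℝ≥0∞) = (r : ℝ≥0∞) * ENNReal.ofReal (Real.exp (-r) * r ^ n / n.factorial) := by
    intro n
    have e1 : ((n + 1 : ℕ) : ℝ≥0∞) = ENNReal.ofReal ((n + 1 : ℕ) : ℝ) := by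
      rw [ENNReal.ofReal_natCast]
    have e2 : (r : ℝ≥0∞) = ENNReal.ofReal (r : ℝ) := by
      rw [ENNReal.ofReal_coe_nnreal]
    rw [e1, e2, ← ENNReal.ofReal_mul (by positivity), ← ENNReal.ofReal_mul (by positivity)]
    congr 1
    rw [Nat.factorial_succ]
    push_cast
    field_simp
    ring
  simp only [h2]
  rw [ENNReal.tsum_mul_left]
  have h3 : ∑' n : ℕ, ENNReal.ofReal (Real.exp (-r) * r ^ n / n.factorial) = 1 := by
    have := hasSum_one_poissonMeasure r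
    rw [← ENNReal.ofReal_tsum_of_nonneg (fun n => by positivity) this.summable, this.tsum_eq,
      ENNReal.ofReal_one]
  rw [h3, mul_one]

theorem vol_U (b : ℕ × ℕ) : MeasurableSet (U b) ∧ volume (U b) = 1 ∧ Bornology.IsBounded (U b) := by
  have h1 : U b = Complex.measurableEquivRealProd ⁻¹'
      (Set.Ico (b.1 : ℝ) (b.1 + 1) ×ˢ Set.Ico (b.2 : ℝ) (b.2 + 1)) := by
    ext z
    simp only [U, Set.mem_preimage, Set.mem_prod, Set.mem_Ico, Complex.measurableEquivRealProd_apply]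
    exact ⟨fun h => ⟨⟨h.1, h.2.1⟩, h.2.2⟩, fun h => ⟨h.1.1, h.1.2, h.2⟩⟩
  have hm : MeasurableSet (Set.Ico (b.1 : ℝ) (b.1 + 1) ×ˢ Set.Ico (b.2 : ℝ) (b.2 + 1)) :=
    measurableSet_Ico.prod measurableSet_Ico
  refine ⟨?_, ?_, ?_⟩
  · rw [h1]
    exact Complex.measurableEquivRealProd.measurable hm
  · rw [h1, Complex.volume_preserving_equiv_real_prod.measure_preimage hm.nullMeasurableSet,
      Measure.volume_eq_prod, Measure.prod_prod, Real.volume_Ico, Real.volume_Ico]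
    norm_num
  · rw [Metric.isBounded_iff_subset_closedBall 0]
    refine ⟨(b.1 + 1) + (b.2 + 1), fun z hz => ?_⟩
    rw [mem_closedBall_zero_iff]
    refine (Complex.norm_le_abs_re_add_abs_im z).trans ?_
    obtain ⟨h1, h2, h3, h4⟩ := hz
    have e1 : (0 : ℝ) ≤ z.re := le_trans (Nat.cast_nonneg _) h1
    have e2 : (0 : ℝ) ≤ z.im := le_trans (Nat.cast_nonneg _) h3
    rw [abs_of_nonneg e1, abs_of_nonneg e2]
    linarith

theorem sq_one : sq 1 = U (0, 0) := by
  ext z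
  simp only [sq, U, Nat.cast_zero, zero_add]

/-- expected number of points of one colour in a unit square -/
theorem mean_points {q : ℕ} {Ω : Type u} [MeasurableSpace Ω] {P : Measure Ω} {lam : Fin q → ℝ}
    {X : Fin q → Ω → Set ℂ} (hX : IsPoisson P lam X) (i : Fin q) (b : ℕ × ℕ) :
    (Measurable fun ω => (X i ω ∩ U b).encard) ∧
    ∫⁻ ω, ((X i ω ∩ U b).encard : ℝ≥0∞) ∂P = ENNReal.ofReal (lam i) := by
  obtain ⟨v1, v2, v3⟩ := vol_U b
  obtain ⟨a1, a2, a3⟩ := hX Unit (fun _ => U b) (fun _ => v1) (fun _ => v3)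
    (fun x y h => absurd (Subsingleton.elim x y) h)
  refine ⟨a1 i (), ?_⟩
  have h1 := a3 i ()
  rw [v2] at h1
  have hm : Measurable fun n : ℕ∞ => (n : ℝ≥0∞) := measurable_from_top
  have h2 := lintegral_map (μ := P) hm (a1 i ())
  have h3 := lintegral_map (μ := poissonMeasure (lam i * (1 : ℝ≥0∞).toReal).toNNReal) hm
    (measurable_from_top (f := (Nat.cast : ℕ → ℕ∞)))
  rw [← h2, h1, h3]
  simp only [ENat.toENNReal_coe]
  rw [lintegral_poisson]
  simp only [ENNReal.toReal_one, mul_one]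
  rfl

/-- the function of a family -/
noncomputable def hB {q : ℕ} (B : Set ℂ) (r : ℝ) (F : Family q) : ℝ≥0∞ :=
  if r < diam F then (nb (B ×ˢ Set.univ) F : ℝ≥0∞) else 0

theorem meas_cast {q : ℕ} {B : Set (ℂ × Fin q)} (hB : MeasurableSet B) :
    Measurable fun F : Family q => (nb B F : ℝ≥0∞) :=
  (measurable_from_top (f := fun n : ℕ => (n : ℝ≥0∞))).comp (meas_nb hB)

theorem meas_hB {q : ℕ} {B : Set ℂ} (hB' : MeasurableSet B) {r : ℝ} (hr : 0 ≤ r) :
    Measurable (hB B r : Family q → ℝ≥0∞) := by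
  unfold hB
  exact Measurable.ite (meas_diam hr) (meas_cast (hB'.prod MeasurableSet.univ)) measurable_const

theorem far_tsum {q : ℕ} {Ω : Type u} [MeasurableSpace Ω] {P : Measure Ω} {lam : Fin q → ℝ}
    {V : Finset (Fin q → ℕ)} {M : Ω → Set (Family q)} (hM : IsScheme P lam V M) (B : Set ℂ) (r : ℝ) :
    (fun ω => ((far (M ω) B r).encard : ℝ≥0∞)) =ᵐ[P] fun ω => ∑' F : M ω, hB B r F.1 := by
  filter_upwards [hM.disjoint] with ω h
  exact (t_O q (M ω) h).2 B r

theorem hB_shift {q : ℕ} (b : ℕ × ℕ) (r : ℝ) (F : Family q) :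
    hB (sq 1) r (shift (-((b.1 : ℂ) + b.2 * Complex.I)) F) = hB (U b) r F := by
  unfold hB
  rw [diam_shift, nb_shift]
  have : {p : ℂ × Fin q | (p.1 + -((b.1 : ℂ) + b.2 * Complex.I), p.2) ∈ sq 1 ×ˢ Set.univ} =
      U b ×ˢ Set.univ := by
    ext p
    simp only [Set.mem_prod, Set.mem_univ, and_true, sq, U]
    show (0 ≤ (p.1 + -((b.1 : ℂ) + b.2 * Complex.I)).re ∧ _) ↔ _
    simp only [Complex.add_re, Complex.neg_re, Complex.add_im, Complex.neg_im, Complex.natCast_re,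
      Complex.natCast_im, Complex.mul_re, Complex.mul_im, Complex.I_re, Complex.I_im]
    constructor
    · rintro ⟨h1, h2, h3, h4⟩
      refine ⟨?_, ?_, ?_, ?_⟩ <;> nlinarith
    · rintro ⟨h1, h2, h3, h4⟩
      refine ⟨?_, ?_, ?_, ?_⟩ <;> nlinarith
  rw [this]

section

variable {q : ℕ} {Ω : Type u} [MeasurableSpace Ω] {P : Measure Ω} [IsProbabilityMeasure P]
  {lam : Fin q → ℝ} {V : Finset (Fin q → ℕ)} {M : Ω → Set (Family q)}

theorem camp (hM : IsScheme P lam V M) {g : Family q → ℝ≥0∞} (hg : Measurable g) :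
    (Measurable fun ω => ∑' F : M ω, g F.1) ∧
    ∀ t : ℂ, ∫⁻ ω, ∑' F : M ω, g (shift t F.1) ∂P = ∫⁻ ω, ∑' F : M ω, g F.1 ∂P :=
  t_M q Ω P M hM.measurable (fun t ι _ A hA => hM.invariant t ι A hA) g hg

theorem mean_U (hM : IsScheme P lam V M) {r : ℝ} (hr : 0 ≤ r) (b : ℕ × ℕ) :
    ∫⁻ ω, ((far (M ω) (U b) r).encard : ℝ≥0∞) ∂P = ∫⁻ ω, ((far (M ω) (sq 1) r).encard : ℝ≥0∞) ∂P := by
  rw [lintegral_congr_ae (far_tsum hM (U b) r), lintegral_congr_ae (far_tsum hM (sq 1) r)]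
  have hm : MeasurableSet (sq 1) := by rw [sq_one]; exact (vol_U _).1
  have := (camp hM (meas_hB hm hr)).2 (-((b.1 : ℂ) + b.2 * Complex.I))
  simp only [hB_shift] at this
  exact this

theorem aem_far (hM : IsScheme P lam V M) {r : ℝ} (hr : 0 ≤ r) {B : Set ℂ} (hB' : MeasurableSet B) :
    AEMeasurable (fun ω => ((far (M ω) B r).encard : ℝ≥0∞)) P :=
  ⟨_, (camp hM (meas_hB hB' hr)).1, far_tsum hM B r⟩

theorem far_box (M' : Set (Family q)) (N : ℕ) (r : ℝ) :
    ((far M' (sq N) r).encard : ℝ≥0∞) = ∑ b ∈ box N, ((far M' (U b) r).encard : ℝ≥0∞) := by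
  have h1 : far M' (sq N) r = ⋃ b : box N, far M' (U b.1) r := by
    ext p
    simp only [far, Set.mem_iUnion]
    constructor
    · rintro ⟨⟨h1, h2, h3, h4⟩, h5⟩
      have f1 := Nat.floor_le h1
      have f2 := Nat.lt_floor_add_one p.1.re
      have f3 := Nat.floor_le h3
      have f4 := Nat.lt_floor_add_one p.1.im
      refine ⟨⟨(⌊p.1.re⌋₊, ⌊p.1.im⌋₊), ?_⟩, ⟨f1, f2, f3, f4⟩, h5⟩
      unfold box
      simp only [Finset.mem_product, Finset.mem_range]
      exact ⟨by exact_mod_cast f1.trans_lt h2, by exact_mod_cast f3.trans_lt h4⟩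
    · rintro ⟨⟨b, hb⟩, ⟨h1, h2, h3, h4⟩, h5⟩
      unfold box at hb
      simp only [Finset.mem_product, Finset.mem_range] at hb
      have e1 : (b.1 : ℝ) + 1 ≤ N := by exact_mod_cast hb.1
      have e2 : (b.2 : ℝ) + 1 ≤ N := by exact_mod_cast hb.2
      have e3 : (0 : ℝ) ≤ b.1 := Nat.cast_nonneg _
      have e4 : (0 : ℝ) ≤ b.2 := Nat.cast_nonneg _
      simp only at h1 h2 h3 h4
      exact ⟨⟨e3.trans h1, by linarith, e4.trans h3, by linarith⟩, h5⟩
  rw [h1, encard_iUnion_tsum]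
  · rw [tsum_fintype, Finset.sum_coe_sort (box N) fun b => ((far M' (U b) r).encard : ℝ≥0∞)]
  · intro b b' hbb
    rw [Function.onFun, Set.disjoint_left]
    rintro p ⟨⟨h1, h2, h3, h4⟩, _⟩ ⟨⟨h1', h2', h3', h4'⟩, _⟩
    apply hbb
    have e1 : b.1.1 = b'.1.1 := by
      have i1 : (b.1.1 : ℝ) < b'.1.1 + 1 := by linarith
      have i2 : (b'.1.1 : ℝ) < b.1.1 + 1 := by linarith
      have i3 : b.1.1 < b'.1.1 + 1 := by exact_mod_cast i1
      have i4 : b'.1.1 < b.1.1 + 1 := by exact_mod_cast i2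
      omega
    have e2 : b.1.2 = b'.1.2 := by
      have i1 : (b.1.2 : ℝ) < b'.1.2 + 1 := by linarith
      have i2 : (b'.1.2 : ℝ) < b.1.2 + 1 := by linarith
      have i3 : b.1.2 < b'.1.2 + 1 := by exact_mod_cast i1
      have i4 : b'.1.2 < b.1.2 + 1 := by exact_mod_cast i2
      omega
    exact Subtype.ext (Prod.ext e1 e2)

theorem mean_sq (hM : IsScheme P lam V M) {r : ℝ} (hr : 0 ≤ r) (N : ℕ) :
    ∫⁻ ω, ((far (M ω) (sq N) r).encard : ℝ≥0∞) ∂P =
      (N * N : ℕ) * ∫⁻ ω, ((far (M ω) (sq 1) r).encard : ℝ≥0∞) ∂P := by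
  have h1 : ∀ ω, ((far (M ω) (sq N) r).encard : ℝ≥0∞) =
      ∑ b ∈ box N, ((far (M ω) (U b) r).encard : ℝ≥0∞) := fun ω => far_box (M ω) N r
  simp only [h1]
  rw [lintegral_finsetSum' _ fun b _ => aem_far hM hr (vol_U b).1]
  simp only [mean_U hM hr]
  rw [Finset.sum_const, nsmul_eq_mul]
  unfold box
  rw [Finset.card_product, Finset.card_range]

theorem far_le (M' : Set (Family q)) (B : Set ℂ) (r : ℝ) :
    ((far M' B r).encard : ℝ≥0∞) ≤ ∑ i, ((points M' i ∩ B).encard : ℝ≥0∞) := by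
  have h1 : far M' B r ⊆ ⋃ i : Fin q, (fun x : ℂ => (x, i)) '' (points M' i ∩ B) := by
    rintro p ⟨hB, F, hF, hp, _⟩
    simp only [Set.mem_iUnion, Set.mem_image]
    exact ⟨p.2, p.1, ⟨⟨F, hF, hp⟩, hB⟩, rfl⟩
  have h2 : ((far M' B r).encard : ℝ≥0∞) ≤
      ((⋃ i : Fin q, (fun x : ℂ => (x, i)) '' (points M' i ∩ B)).encard : ℝ≥0∞) := by
    have := Set.encard_le_encard h1
    exact_mod_cast this
  refine h2.trans (le_of_eq ?_)
  rw [encard_iUnion_tsum]
  · rw [tsum_fintype]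
    refine Finset.sum_congr rfl fun i _ => ?_
    have hinj : Function.Injective fun x : ℂ => (x, i) := fun a b h => (Prod.ext_iff.1 h).1
    rw [hinj.encard_image]
  · intro i j hij
    rw [Function.onFun, Set.disjoint_left]
    rintro p ⟨x, _, rfl⟩ ⟨x', _, h⟩
    exact hij (Prod.ext_iff.1 h).2.symm

theorem mean_le (hM : IsScheme P lam V M) (hlam : ∀ i, 0 < lam i) (r : ℝ) :
    ∫⁻ ω, ((far (M ω) (sq 1) r).encard : ℝ≥0∞) ∂P ≤ ENNReal.ofReal (∑ i, lam i) := by
  have h1 : ∫⁻ ω, ((far (M ω) (sq 1) r).encard : ℝ≥0∞) ∂P ≤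
      ∫⁻ ω, ∑ i, ((points (M ω) i ∩ U (0, 0)).encard : ℝ≥0∞) ∂P := by
    refine lintegral_mono fun ω => ?_
    rw [sq_one]
    exact far_le (M ω) _ r
  refine h1.trans (le_of_eq ?_)
  have hm : ∀ i : Fin q, Measurable fun ω => ((points (M ω) i ∩ U (0, 0)).encard : ℝ≥0∞) :=
    fun i => (measurable_from_top (f := fun n : ℕ∞ => (n : ℝ≥0∞))).comp
      (mean_points hM.poisson i (0, 0)).1
  rw [lintegral_finsetSum _ fun i _ => hm i]
  rw [Finset.sum_congr rfl fun i _ => (mean_points hM.poisson i (0, 0)).2]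
  rw [ENNReal.ofReal_sum_of_nonneg fun i _ => (hlam i).le]

theorem toReal_encard {α : Type*} (s : Set α) : ((s.encard : ℝ≥0∞)).toReal = s.ncard := by
  unfold Set.ncard
  rcases eq_or_ne s.encard ⊤ with h | h
  · rw [h]
    simp
  · obtain ⟨n, hn⟩ := ENat.ne_top_iff_exists.1 h
    rw [← hn]
    simp

end

theorem t_T : S_T.{u} := by
  intro q Ω _ P _ lam V M hlam hq hM K r hr
  have hΛ : 0 < ∑ i, lam i := by
    have : Nonempty (Fin q) := ⟨⟨0, hq⟩⟩
    exact Finset.sum_pos (fun i _ => hlam i) Finset.univ_nonempty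
  have hfin : ∀ r', ∫⁻ ω, ((far (M ω) (sq 1) r').encard : ℝ≥0∞) ∂P ≠ ∞ := by
    intro r'
    exact ((mean_le hM hlam r').trans_lt ENNReal.ofReal_lt_top).ne
  have hcast : (sq (2 ^ K) : Set ℂ) = sq ((2 ^ K : ℕ) : ℝ) := by push_cast; rfl
  have hE := mean_sq hM hr (2 ^ K)
  rw [← hcast] at hE
  have hfinK : ∫⁻ ω, ((far (M ω) (sq (2 ^ K)) r).encard : ℝ≥0∞) ∂P ≠ ∞ := by
    rw [hE]
    exact ENNReal.mul_ne_top (ENNReal.natCast_ne_top _) (hfin r)
  have hmsq : MeasurableSet (sq (2 ^ K)) := by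
    unfold sq
    refine (measurableSet_le measurable_const Complex.measurable_re).inter ?_
    refine (measurableSet_lt Complex.measurable_re measurable_const).inter ?_
    exact (measurableSet_le measurable_const Complex.measurable_im).inter
      (measurableSet_lt Complex.measurable_im measurable_const)
  have haem := aem_far hM hr hmsq
  have heq : ∀ ω, ((far (M ω) (sq (2 ^ K)) r).ncard : ℝ) =
      (((far (M ω) (sq (2 ^ K)) r).encard : ℝ≥0∞)).toReal := fun ω => (toReal_encard _).symm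
  refine ⟨?_, ?_, ?_, ?_, ?_⟩
  · simp only [heq]
    exact integrable_toReal_of_lintegral_ne_top haem hfinK
  · simp only [heq]
    rw [integral_toReal haem (ae_lt_top' haem hfinK), hE, ENNReal.toReal_mul]
    unfold tail
    have e1 : (((2 ^ K * 2 ^ K : ℕ) : ℝ≥0∞)).toReal = 4 ^ K := by
      rw [ENNReal.toReal_natCast]
      push_cast
      rw [← mul_pow]
      norm_num
    rw [e1]
    field_simp
  · unfold tail
    positivity
  · unfold tail
    rw [div_le_one hΛ]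
    calc (∫⁻ ω, ((far (M ω) (sq 1) r).encard : ℝ≥0∞) ∂P).toReal ≤
          (ENNReal.ofReal (∑ i, lam i)).toReal :=
          ENNReal.toReal_mono ENNReal.ofReal_ne_top (mean_le hM hlam r)
      _ = ∑ i, lam i := ENNReal.toReal_ofReal hΛ.le
  · intro r' hr'
    unfold tail
    refine div_le_div_of_nonneg_right ?_ hΛ.le
    refine ENNReal.toReal_mono (hfin r) (lintegral_mono fun ω => ?_)
    have : far (M ω) (sq 1) r' ⊆ far (M ω) (sq 1) r := by
      rintro p ⟨h1, F, h2, h3, h4⟩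
      exact ⟨h1, F, h2, h3, lt_of_le_of_lt hr' h4⟩
    exact ENat.toENNReal_le.2 (Set.encard_le_encard this)

end Q294.Pm
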